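import Pool.Agent.Y680.T.Com

/-!
# Semistable curves with `ℤ/2 × ℤ/4`
-/

set_option autoImplicit false

namespace Pool.Agent.Y680.T

open Finset WeierstrassCurve Pool.Agent.Results.MP_4d5ce1_nt.AllHeightsSharp

/-- the points -/
def α24 : Fin 4 → ℤ × ℤ := ![(0, 1), (1, 0), (1, 1), (-1, 1)]

/-- the exponents -/
def e24 : Fin 4 → ℕ := ![4, 4, 2, 2]

lemma prod24 (a b : ℤ) : ∏ i, (Lf (α24 i) (a, b)).natAbs ^ e24 i =
    ((a ^ 2 * b ^ 2 * (a ^ 2 - b ^ 2)) ^ 2).natAbs := by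
  rw [Fin.prod_univ_four]
  change (a * 1 - b * 0).natAbs ^ 4 * (a * 0 - b * 1).natAbs ^ 4 * (a * 1 - b * 1).natAbs ^ 2 *
    (a * 1 - b * (-1)).natAbs ^ 2 = _
  rw [← Int.natAbs_pow, ← Int.natAbs_pow, ← Int.natAbs_pow, ← Int.natAbs_pow, ← Int.natAbs_mul,
    ← Int.natAbs_mul, ← Int.natAbs_mul]
  congr 1
  ring

lemma Lf24 {a b : ℤ} (h : a ^ 2 * b ^ 2 * (a ^ 2 - b ^ 2) ≠ 0) (i : Fin 4) :
    Lf (α24 i) (a, b) ≠ 0 := by
  have e : a ^ 2 * b ^ 2 * (a ^ 2 - b ^ 2) = a * b * (a * b) * (a - b) * (a + b) := by ring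
  rw [e] at h
  simp only [mul_ne_zero_iff] at h
  fin_cases i
  · change a * 1 - b * 0 ≠ 0
    rw [mul_one, mul_zero, sub_zero]
    exact h.1.1.1.1
  · change a * 0 - b * 1 ≠ 0
    intro h0
    apply h.1.1.1.2
    linarith
  · change a * 1 - b * 1 ≠ 0
    intro h0
    apply h.1.2
    linarith
  · change a * 1 - b * (-1) ≠ 0
    intro h0
    apply h.2
    linarith

/-- the family -/
noncomputable def F24 : Fam 4 (Tor (ZMod 2 × ZMod 4)) where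
  α := α24
  S := {2, 3}
  e := e24
  A := 4096
  K := 4
  R x := RR (x.1 ^ 4 - x.1 ^ 2 * x.2 ^ 2 + x.2 ^ 4)
    ((x.1 ^ 2 * x.2 ^ 2 * (x.1 ^ 2 - x.2 ^ 2)) ^ 2 / 256)
  hα := by decide
  hS i j hij p hp h := by
    have h1 : ∀ i j : Fin 4, i ≠ j →
      ((α24 i).1 * (α24 j).2 - (α24 j).1 * (α24 i).2).natAbs ∣ 6 ^ 4 := by decide
    exact prime_23 (h1 i j hij) hp h
  he := by decide
  hK x := (RR_card _ _).trans (by norm_num)
  hP W h := h.1.1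
  hx W hW := by
    obtain ⟨⟨hD, hc⟩, hf⟩ := hW
    obtain ⟨P, Q, hP, hP0, hQ, hQ0, hPQ⟩ := of_emb24 hf
    obtain ⟨m, n, e4, eD⟩ := par24 P Q hP hP0 hQ hQ0 hPQ
    rw [map_c4] at e4
    rw [map_D] at eD
    obtain ⟨a, b, hab, hb, e4', eD'⟩ := int24 hc hD m n e4 eD
    have hne : a ^ 2 * b ^ 2 * (a ^ 2 - b ^ 2) ≠ 0 := by
      intro h0
      rw [h0] at eD'
      apply hD
      linarith
    refine ⟨(a, b), ⟨hab, Or.inl hb⟩, Lf24 hne, 256, by norm_num, by norm_num,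
      fun p hp h => prime_2pow (l := 8) (by norm_num) hp h, ?_, ?_⟩
    · rw [prod24, ← eD', Int.natAbs_mul]
      rfl
    · refine mem_RR W e4' ?_
      simp only
      rw [← eD']
      omega

/-- an explicit curve -/
def W24 (s k : ℤ) : WeierstrassCurve ℤ := ⟨1, 4 * s ^ 2 + k * (k + 1), 0, s ^ 2 * (2 * k + 1) ^ 2, 0⟩

lemma W24_c4 (s k : ℤ) : (W24 s k).c₄ = ((4 * s) ^ 2) ^ 2 - (4 * s) ^ 2 * (2 * k + 1) ^ 2 +
    ((2 * k + 1) ^ 2) ^ 2 := by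
  simp only [WeierstrassCurve.c₄, WeierstrassCurve.b₂, WeierstrassCurve.b₄, W24]
  ring

lemma W24_D (s k : ℤ) : 256 * (W24 s k).Δ = ((4 * s) ^ 2 * (2 * k + 1) ^ 2 *
    ((4 * s) ^ 2 - (2 * k + 1) ^ 2)) ^ 2 := by
  simp only [WeierstrassCurve.Δ, WeierstrassCurve.b₂, WeierstrassCurve.b₄, WeierstrassCurve.b₆,
    WeierstrassCurve.b₈, W24]
  ring

lemma W24_tor {s k : ℤ} (hs : 0 < s) (hk : 0 ≤ k) (hD : (W24 s k).Δ ≠ 0) :
    ∃ f : ZMod 2 × ZMod 4 →+ ((W24 s k).map (Int.castRingHom ℚ)).toAffine.Point,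
      Function.Injective f := by
  obtain ⟨W, hW⟩ : ∃ W, W = (W24 s k).map (Int.castRingHom ℚ) := ⟨_, rfl⟩
  have a1 : W.a₁ = 1 := by rw [hW]; simp [W24]
  have a2 : W.a₂ = 4 * (s : ℚ) ^ 2 + k * (k + 1) := by rw [hW]; simp [W24]
  have a3 : W.a₃ = 0 := by rw [hW]; simp [W24]
  have a4 : W.a₄ = (s : ℚ) ^ 2 * (2 * k + 1) ^ 2 := by rw [hW]; simp [W24]
  have a6 : W.a₆ = 0 := by rw [hW]; simp [W24]
  have hDW : W.Δ ≠ 0 := by
    rw [hW, map_D]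
    exact_mod_cast hD
  rw [← hW]
  have hns : ∀ x y : ℚ, W.toAffine.Equation x y → W.toAffine.Nonsingular x y := fun x y h =>
    (Affine.equation_iff_nonsingular_of_Δ_ne_zero hDW).mp h
  have n0 : W.toAffine.Nonsingular 0 0 := by
    apply hns
    rw [Affine.equation_iff, a6]
    ring
  have n1 : W.toAffine.Nonsingular (-4 * (s : ℚ) ^ 2) (2 * s ^ 2) := by
    apply hns
    rw [Affine.equation_iff, a1, a2, a3, a4, a6]
    ring
  have n2 : W.toAffine.Nonsingular ((s : ℚ) * (2 * k + 1)) (s * (2 * k + 1) * (2 * s + k)) := by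
    apply hns
    rw [Affine.equation_iff, a1, a2, a3, a4, a6]
    ring
  have hsq : (0 : ℚ) < s := by exact_mod_cast hs
  have hkq : (0 : ℚ) ≤ k := by exact_mod_cast hk
  have d2 : 2 • Affine.Point.some _ _ n2 = Affine.Point.some _ _ n0 := by
    refine dbl_of (l := 2 * (s : ℚ) + k) n2 n0 ?_ ?_ ?_ ?_
    · rw [psi, a1, a3]
      have : 0 < 2 * ((s : ℚ) * (2 * k + 1) * (2 * s + k)) + 1 * (s * (2 * k + 1)) + 0 := by
        positivity
      exact this.ne'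
    · rw [psi, a1, a2, a3, a4]
      ring
    · rw [a1, a2]
      ring
    · rw [a1, a3]
      ring
  refine emb24_of (P := Affine.Point.some _ _ n1) (Q := Affine.Point.some _ _ n2) ?_ ?_ ?_ ?_ ?_
  · apply two_of_psi
    rw [psi, a1, a3]
    ring
  · exact Affine.Point.some_ne_zero _
  · rw [show (4 : ℕ) = 2 * 2 by norm_num, mul_nsmul, d2]
    apply two_of_psi
    rw [psi, a1, a3]
    ring
  · rw [d2]
    exact Affine.Point.some_ne_zero _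
  · rw [d2, ne_eq, Affine.Point.some.injEq]
    rintro ⟨h, -⟩
    have : 0 < 4 * (s : ℚ) ^ 2 := by positivity
    linarith

lemma W24_all {p : ℕ × ℕ} (hp : Gd p) : ∃ (a b : ℤ) (W : WeierstrassCurve ℤ),
    a = 4 * p.1 ∧ b = p.2 ∧ W = W24 p.1 ((p.2 / 2 : ℕ) : ℤ) ∧
    a ^ 2 * b ^ 2 * (a ^ 2 - b ^ 2) ≠ 0 ∧
    W.c₄ = (a ^ 2) ^ 2 - a ^ 2 * b ^ 2 + (b ^ 2) ^ 2 ∧
    256 * W.Δ = (a ^ 2 * b ^ 2 * (a ^ 2 - b ^ 2)) ^ 2 := by
  obtain ⟨h1, h2, h3, h4⟩ := hp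
  rw [cop6_iff] at h4
  refine ⟨4 * p.1, p.2, _, rfl, rfl, rfl, ?_, ?_, ?_⟩
  · have hb : (p.2 : ℤ) ≠ 0 := by exact_mod_cast h2.ne'
    have ha : (4 * p.1 : ℤ) ≠ 0 := by positivity
    have hd : (4 * (p.1 : ℤ)) ^ 2 - (p.2 : ℤ) ^ 2 ≠ 0 := by
      intro h
      have h5 : (4 * (p.1 : ℤ)) ^ 2 = (p.2 : ℤ) ^ 2 := by linarith
      rcases sq_eq_sq_iff_eq_or_eq_neg.1 h5 with h6 | h6 <;> omega
    exact mul_ne_zero (mul_ne_zero (pow_ne_zero 2 ha) (pow_ne_zero 2 hb)) hd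
  · rw [W24_c4]
    have : (2 * ((p.2 / 2 : ℕ) : ℤ) + 1) = p.2 := by omega
    rw [this]
  · rw [W24_D]
    have : (2 * ((p.2 / 2 : ℕ) : ℤ) + 1) = p.2 := by omega
    rw [this]

theorem lower24 : ∃ c' : ℝ, 0 < c' ∧ ∃ X₀ : ℝ, ∀ X : ℝ, X₀ ≤ X →
      c' * X ^ (2 / ((4 : ℕ) : ℝ)) ≤ ((Cv (Tor (ZMod 2 × ZMod 4)) X).ncard : ℝ) := by
  classical
  refine F24.lower (by norm_num) (fun p => inv (W24 p.1 ((p.2 / 2 : ℕ) : ℤ))) 9 (by norm_num) ?_ ?_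
  · intro p hp
    obtain ⟨a, b, W, ha, hb, hW, hne, e4, eD⟩ := W24_all hp
    obtain ⟨h1, h2, h3, h4⟩ := hp
    have hcop : ∀ q : ℕ, q.Prime → (q : ℤ) ∣ a ^ 2 → (q : ℤ) ∣ b ^ 2 → False := by
      intro q hq g1 g2
      have hqi : Prime (q : ℤ) := Nat.prime_iff_prime_int.1 hq
      have g3 := hqi.dvd_of_dvd_pow g1
      have g4 := hqi.dvd_of_dvd_pow g2
      rw [hb] at g4
      have g4' : q ∣ p.2 := by exact_mod_cast g4
      rw [ha] at g3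
      rcases hqi.dvd_mul.1 g3 with g5 | g5
      · have g6 : q ∣ 2 ^ 2 := by exact_mod_cast g5
        have g7 : q ∣ 2 := hq.dvd_of_dvd_pow g6
        have g8 := (Nat.prime_dvd_prime_iff_eq hq Nat.prime_two).1 g7
        rw [cop6_iff] at h4
        subst g8
        omega
      · have g5' : q ∣ p.1 := by exact_mod_cast g5
        have := Nat.dvd_gcd g5' g4'
        rw [h3] at this
        exact hq.one_lt.ne' (Nat.dvd_one.1 this)
    have hD : W.Δ ≠ 0 := by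
      intro h0
      rw [h0] at eD
      have : (0 : ℤ) < (a ^ 2 * b ^ 2 * (a ^ 2 - b ^ 2)) ^ 2 := by positivity
      linarith
    refine ⟨W, ⟨⟨hD, cop_UV hcop e4 eD⟩, ?_⟩, by rw [hW], (a, b), 256, Lf24 hne, ?_, ?_⟩
    · rw [hW]
      refine W24_tor (by exact_mod_cast h1) (by positivity) ?_
      rw [← hW]
      exact hD
    · change 256 * W.Δ.natAbs = ∏ i, (Lf (α24 i) (a, b)).natAbs ^ e24 i
      rw [prod24, ← eD, Int.natAbs_mul]
      rfl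
    · unfold htn
      rw [ha, hb]
      simp only
      omega
  · intro g s hs
    have hinj : Set.InjOn (fun p : ℕ × ℕ => (((4 * (p.1 : ℤ)) ^ 2) ^ 2, ((p.2 : ℤ) ^ 2) ^ 2))
        (s : Set (ℕ × ℕ)) := by
      rintro x - y - hxy
      simp only [Prod.mk.injEq] at hxy
      obtain ⟨e1, e2⟩ := hxy
      have f1 : (4 * (x.1 : ℤ)) ^ 4 = (4 * (y.1 : ℤ)) ^ 4 := by linarith
      have f2 : (x.2 : ℤ) ^ 4 = (y.2 : ℤ) ^ 4 := by linarith
      have f3 := (pow_left_inj₀ (by positivity) (by positivity) (by norm_num)).1 f1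
      have f4 := (pow_left_inj₀ (by positivity) (by positivity) (by norm_num)).1 f2
      exact Prod.ext (by omega) (by omega)
    have hmaps : ∀ p ∈ s, (((4 * (p.1 : ℤ)) ^ 2) ^ 2, ((p.2 : ℤ) ^ 2) ^ 2) ∈ rt3 g ×ˢ rt3 g := by
      intro p hp
      obtain ⟨h1, h2⟩ := hs p hp
      obtain ⟨a, b, W, ha, hb, hW, hne, e4, eD⟩ := W24_all h1
      obtain ⟨r1, r2⟩ := roots_mem W e4 eD
      have hg : inv W = g := by rw [hW]; exact h2
      rw [hg] at r1 r2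
      rw [ha] at r1
      rw [hb] at r2
      exact Finset.mem_product.2 ⟨r1, r2⟩
    have := Finset.card_le_card_of_injOn _ hmaps hinj
    rw [Finset.card_product] at this
    have h3 := rt3_card g
    calc s.card ≤ (rt3 g).card * (rt3 g).card := this
      _ ≤ 3 * 3 := Nat.mul_le_mul h3 h3
      _ = 9 := rfl

end Pool.Agent.Y680.T
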