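import Pool.Agent.Y680.T.Com

/-!
# Semistable curves with `ℤ/2 × ℤ/6`
-/

set_option autoImplicit false

namespace Pool.Agent.Y680.T

open Finset WeierstrassCurve Pool.Agent.Results.MP_4d5ce1_nt.AllHeightsSharp

/-- the points -/
def α26 : Fin 6 → ℤ × ℤ := ![(0, 1), (1, 0), (-2, 1), (-1, 2), (1, 1), (-1, 1)]

/-- the exponents -/
def e26 : Fin 6 → ℕ := ![6, 6, 2, 2, 2, 6]

/-- the difference of two roots -/
def UU (a b : ℤ) : ℤ := a ^ 3 * (a + 2 * b)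

/-- the difference of two roots -/
def VV (a b : ℤ) : ℤ := b ^ 3 * (b + 2 * a)

lemma UU_sub (a b : ℤ) : UU a b - VV a b = (a - b) * (a + b) ^ 3 := by
  unfold UU VV
  ring

lemma prod26 (a b : ℤ) : ∏ i, (Lf (α26 i) (a, b)).natAbs ^ e26 i =
    ((UU a b * VV a b * (UU a b - VV a b)) ^ 2).natAbs := by
  rw [Fin.prod_univ_six]
  change (a * 1 - b * 0).natAbs ^ 6 * (a * 0 - b * 1).natAbs ^ 6 * (a * 1 - b * (-2)).natAbs ^ 2 *
    (a * 2 - b * (-1)).natAbs ^ 2 * (a * 1 - b * 1).natAbs ^ 2 *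
    (a * 1 - b * (-1)).natAbs ^ 6 = _
  rw [← Int.natAbs_pow, ← Int.natAbs_pow, ← Int.natAbs_pow, ← Int.natAbs_pow, ← Int.natAbs_pow,
    ← Int.natAbs_pow, ← Int.natAbs_mul, ← Int.natAbs_mul, ← Int.natAbs_mul, ← Int.natAbs_mul,
    ← Int.natAbs_mul]
  congr 1
  rw [UU_sub]
  unfold UU VV
  ring

lemma Lf26 {a b : ℤ} (h : UU a b * VV a b * (UU a b - VV a b) ≠ 0) (i : Fin 6) :
    Lf (α26 i) (a, b) ≠ 0 := by
  rw [UU_sub] at h
  unfold UU VV at h
  simp only [mul_ne_zero_iff, ne_eq, pow_eq_zero_iff, OfNat.ofNat_ne_zero, not_false_eq_true] at h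
  obtain ⟨⟨⟨h1, h2⟩, h3, h4⟩, h5, h6⟩ := h
  fin_cases i
  · change a * 1 - b * 0 ≠ 0
    intro h0; apply h1; linarith
  · change a * 0 - b * 1 ≠ 0
    intro h0; apply h3; linarith
  · change a * 1 - b * (-2) ≠ 0
    intro h0; apply h2; linarith
  · change a * 2 - b * (-1) ≠ 0
    intro h0; apply h4; linarith
  · change a * 1 - b * 1 ≠ 0
    intro h0; apply h5; linarith
  · change a * 1 - b * (-1) ≠ 0
    intro h0; apply h6; linarith

/-- the family -/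
noncomputable def F26 : Fam 6 (Tor (ZMod 2 × ZMod 6)) where
  α := α26
  S := {2, 3}
  e := e26
  A := 4096
  K := 4
  R x := RR (UU x.1 x.2 ^ 2 - UU x.1 x.2 * VV x.1 x.2 + VV x.1 x.2 ^ 2)
    ((UU x.1 x.2 * VV x.1 x.2 * (UU x.1 x.2 - VV x.1 x.2)) ^ 2 / 256)
  hα := by decide
  hS i j hij p hp h := by
    have h1 : ∀ i j : Fin 6, i ≠ j →
      ((α26 i).1 * (α26 j).2 - (α26 j).1 * (α26 i).2).natAbs ∣ 6 ^ 4 := by decide
    exact prime_23 (h1 i j hij) hp h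
  he := by decide
  hK x := (RR_card _ _).trans (by norm_num)
  hP W h := h.1.1
  hx W hW := by
    obtain ⟨⟨hD, hc⟩, hf⟩ := hW
    obtain ⟨P1, P2, R, h1, h2, h10, h20, h12, hR, hR0⟩ := of_emb26 hf
    obtain ⟨r, s, t, hr, hs, ht, hrel, e4, eD⟩ := par26 P1 P2 R h1 h2 h10 h20 h12 hR hR0
    rw [map_c4] at e4
    rw [map_D] at eD
    obtain ⟨a, b, U, V, hab, hb, hU, hV, e4', eD'⟩ := int26 hc hD r s t hr hs ht hrel e4 eD
    have hU' : U = UU a b := hU
    have hV' : V = VV a b := hV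
    rw [hU', hV'] at e4' eD'
    have hne : UU a b * VV a b * (UU a b - VV a b) ≠ 0 := by
      intro h0
      rw [h0] at eD'
      apply hD
      linarith
    refine ⟨(a, b), ⟨hab, Or.inl hb⟩, Lf26 hne, 256, by norm_num, by norm_num,
      fun p hp h => prime_2pow (l := 8) (by norm_num) hp h, ?_, ?_⟩
    · rw [prod26, ← eD', Int.natAbs_mul]
      rfl
    · refine mem_RR W e4' ?_
      simp only
      rw [← eD']
      omega

/-- an explicit curve; here `a = 6 s` and `b = 2 k + 1` -/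
def W26 (s k : ℤ) : WeierstrassCurve ℤ :=
  ⟨1, 108 * s ^ 3 * (3 * s + (2 * k + 1)) + (4 * k ^ 2 * (k + 1) ^ 2 + 2 * k * (k + 1) +
    3 * s * (2 * k + 1) ^ 3), 0,
    27 * s ^ 3 * (3 * s + (2 * k + 1)) * ((2 * k + 1) ^ 3 * ((2 * k + 1) + 12 * s)), 0⟩

lemma W26_c4 (s k : ℤ) : (W26 s k).c₄ = UU (6 * s) (2 * k + 1) ^ 2 -
    UU (6 * s) (2 * k + 1) * VV (6 * s) (2 * k + 1) + VV (6 * s) (2 * k + 1) ^ 2 := by
  simp only [WeierstrassCurve.c₄, WeierstrassCurve.b₂, WeierstrassCurve.b₄, W26, UU, VV]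
  ring

lemma W26_D (s k : ℤ) : 256 * (W26 s k).Δ = (UU (6 * s) (2 * k + 1) * VV (6 * s) (2 * k + 1) *
    (UU (6 * s) (2 * k + 1) - VV (6 * s) (2 * k + 1))) ^ 2 := by
  simp only [WeierstrassCurve.Δ, WeierstrassCurve.b₂, WeierstrassCurve.b₄, WeierstrassCurve.b₆,
    WeierstrassCurve.b₈, W26, UU, VV]
  ring

lemma W26_tor {s k : ℤ} (hs : 0 < s) (hk : 0 ≤ k) (hD : (W26 s k).Δ ≠ 0) :
    ∃ f : ZMod 2 × ZMod 6 →+ ((W26 s k).map (Int.castRingHom ℚ)).toAffine.Point,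
      Function.Injective f := by
  obtain ⟨W, hW⟩ : ∃ W, W = (W26 s k).map (Int.castRingHom ℚ) := ⟨_, rfl⟩
  have a1 : W.a₁ = 1 := by rw [hW]; simp [W26]
  have a2 : W.a₂ = 108 * (s : ℚ) ^ 3 * (3 * s + (2 * k + 1)) + (4 * (k : ℚ) ^ 2 * (k + 1) ^ 2 +
      2 * k * (k + 1) + 3 * s * (2 * k + 1) ^ 3) := by rw [hW]; simp [W26]
  have a3 : W.a₃ = 0 := by rw [hW]; simp [W26]
  have a4 : W.a₄ = 27 * (s : ℚ) ^ 3 * (3 * s + (2 * k + 1)) *
      ((2 * (k : ℚ) + 1) ^ 3 * ((2 * k + 1) + 12 * s)) := by rw [hW]; simp [W26]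
  have a6 : W.a₆ = 0 := by rw [hW]; simp [W26]
  have hDW : W.Δ ≠ 0 := by
    rw [hW, map_D]
    exact_mod_cast hD
  rw [← hW]
  have hns : ∀ x y : ℚ, W.toAffine.Equation x y → W.toAffine.Nonsingular x y := fun x y h =>
    (Affine.equation_iff_nonsingular_of_Δ_ne_zero hDW).mp h
  have n0 : W.toAffine.Nonsingular 0 0 := by
    apply hns
    rw [Affine.equation_iff, a6]
    ring
  have n1 : W.toAffine.Nonsingular (-(108 * (s : ℚ) ^ 3 * (3 * s + (2 * k + 1))))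
      (54 * (s : ℚ) ^ 3 * (3 * s + (2 * k + 1))) := by
    apply hns
    rw [Affine.equation_iff, a1, a2, a3, a4, a6]
    ring
  have n2 : W.toAffine.Nonsingular (9 * (s : ℚ) ^ 2 * (2 * k + 1) ^ 2)
      (18 * (s : ℚ) ^ 2 * (2 * k + 1) ^ 2 * (3 * s + k) * (3 * s + k + 1)) := by
    apply hns
    rw [Affine.equation_iff, a1, a2, a3, a4, a6]
    ring
  have hsq : (0 : ℚ) < s := by exact_mod_cast hs
  have hkq : (0 : ℚ) ≤ k := by exact_mod_cast hk
  have d3 : 3 • Affine.Point.some _ _ n2 = 0 := by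
    refine three_of (l := 18 * (s : ℚ) ^ 2 + 3 * s * (2 * k + 1) + 2 * k * (k + 1)) n2 ?_ ?_ ?_
    · rw [psi, a1, a3]
      have : 0 < 2 * (18 * (s : ℚ) ^ 2 * (2 * k + 1) ^ 2 * (3 * s + k) * (3 * s + k + 1)) +
          1 * (9 * (s : ℚ) ^ 2 * (2 * k + 1) ^ 2) + 0 := by
        positivity
      exact this.ne'
    · rw [psi, a1, a2, a3, a4]
      ring
    · rw [a1, a2]
      ring
  refine emb26' (P := Affine.Point.some _ _ n1) (P' := Affine.Point.some _ _ n0)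
    (R := Affine.Point.some _ _ n2) ?_ (Affine.Point.some_ne_zero _) ?_
    (Affine.Point.some_ne_zero _) ?_ d3 (Affine.Point.some_ne_zero _)
  · apply two_of_psi
    rw [psi, a1, a3]
    ring
  · apply two_of_psi
    rw [psi, a1, a3]
    ring
  · rw [ne_eq, Affine.Point.some.injEq]
    rintro ⟨h, -⟩
    have : 0 < 108 * (s : ℚ) ^ 3 * (3 * s + (2 * k + 1)) := by positivity
    linarith

lemma W26_all {p : ℕ × ℕ} (hp : Gd p) : ∃ (a b : ℤ) (W : WeierstrassCurve ℤ),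
    a = 6 * p.1 ∧ b = p.2 ∧ W = W26 p.1 ((p.2 / 2 : ℕ) : ℤ) ∧
    UU a b * VV a b * (UU a b - VV a b) ≠ 0 ∧
    W.c₄ = UU a b ^ 2 - UU a b * VV a b + VV a b ^ 2 ∧
    256 * W.Δ = (UU a b * VV a b * (UU a b - VV a b)) ^ 2 := by
  obtain ⟨h1, h2, h3, h4⟩ := hp
  rw [cop6_iff] at h4
  refine ⟨6 * p.1, p.2, _, rfl, rfl, rfl, ?_, ?_, ?_⟩
  · rw [UU_sub]
    have hb : (0 : ℤ) < (p.2 : ℤ) := by exact_mod_cast h2
    have ha : (0 : ℤ) < (p.1 : ℤ) := by exact_mod_cast h1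
    have hd : (6 * (p.1 : ℤ)) - (p.2 : ℤ) ≠ 0 := by omega
    unfold UU VV
    have e1 : (0 : ℤ) < (6 * (p.1 : ℤ)) ^ 3 * (6 * (p.1 : ℤ) + 2 * (p.2 : ℤ)) := by positivity
    have e2 : (0 : ℤ) < (p.2 : ℤ) ^ 3 * ((p.2 : ℤ) + 2 * (6 * (p.1 : ℤ))) := by positivity
    have e3 : (0 : ℤ) < (6 * (p.1 : ℤ) + (p.2 : ℤ)) ^ 3 := by positivity
    exact mul_ne_zero (mul_ne_zero e1.ne' e2.ne') (mul_ne_zero hd e3.ne')
  · rw [W26_c4]
    have : (2 * ((p.2 / 2 : ℕ) : ℤ) + 1) = p.2 := by omega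
    rw [this]
  · rw [W26_D]
    have : (2 * ((p.2 / 2 : ℕ) : ℤ) + 1) = p.2 := by omega
    rw [this]

lemma UV_inj {a b a' b' : ℤ} (ha : 0 < a) (hb : 0 < b) (ha' : 0 < a') (hb' : 0 < b')
    (hab : IsCoprime a b) (hab' : IsCoprime a' b') (hU : UU a b ^ 2 = UU a' b' ^ 2)
    (hV : VV a b ^ 2 = VV a' b' ^ 2) : a = a' ∧ b = b' := by
  have pos : ∀ {a b : ℤ}, 0 < a → 0 < b → 0 < UU a b ∧ 0 < VV a b := by
    intro a b ha hb
    unfold UU VV
    constructor <;> positivity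
  have hU' : UU a b = UU a' b' := (pow_left_inj₀ (pos ha hb).1.le (pos ha' hb').1.le (by norm_num)).1 hU
  have hV' : VV a b = VV a' b' := (pow_left_inj₀ (pos ha hb).2.le (pos ha' hb').2.le (by norm_num)).1 hV
  have key : ∀ {a b a' b' : ℤ}, 0 < a → 0 < b → 0 < a' → 0 < b' → UU a b = UU a' b' →
      VV a b = VV a' b' → ¬ a * b' < a' * b := by
    intro a b a' b' ha hb ha' hb' hU hV hlt
    obtain ⟨x, hx⟩ : ∃ x, x = a * b' := ⟨_, rfl⟩
    obtain ⟨y, hy⟩ : ∃ y, y = a' * b := ⟨_, rfl⟩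
    obtain ⟨z, hz⟩ : ∃ z, z = a * a' + b * b' := ⟨_, rfl⟩
    rw [← hx, ← hy] at hlt
    have hx0 : 0 < x := by rw [hx]; positivity
    have hz0 : 0 < z := by rw [hz]; positivity
    have e1 : UU a b * VV a' b' = x ^ 4 + 4 * x ^ 3 * y + 2 * x ^ 3 * z := by
      rw [hx, hy, hz]
      unfold UU VV
      ring
    have e2 : UU a' b' * VV a b = y ^ 4 + 4 * x * y ^ 3 + 2 * y ^ 3 * z := by
      rw [hx, hy, hz]
      unfold UU VV
      ring
    have e3 : x ^ 4 + 4 * x ^ 3 * y + 2 * x ^ 3 * z = y ^ 4 + 4 * x * y ^ 3 + 2 * y ^ 3 * z := by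
      rw [← e1, ← e2, hU, hV]
    have f1 : x ^ 4 < y ^ 4 := pow_lt_pow_left₀ hlt hx0.le (by norm_num)
    have f2 : x ^ 2 < y ^ 2 := pow_lt_pow_left₀ hlt hx0.le (by norm_num)
    have f3 : x ^ 3 < y ^ 3 := pow_lt_pow_left₀ hlt hx0.le (by norm_num)
    have f4 : x * y * x ^ 2 < x * y * y ^ 2 := by
      apply mul_lt_mul_of_pos_left f2
      have : 0 < y := by linarith
      positivity
    have f5 : x ^ 3 * z < y ^ 3 * z := mul_lt_mul_of_pos_right f3 hz0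
    nlinarith
  have h1 := key ha hb ha' hb' hU' hV'
  have h2 := key ha' hb' ha hb hU'.symm hV'.symm
  have h3 : a * b' = a' * b := by
    push Not at h1 h2
    linarith
  have h4 : a ∣ a' := hab.dvd_of_dvd_mul_right ⟨b', h3.symm⟩
  have h5 : a' ∣ a := hab'.dvd_of_dvd_mul_right ⟨b, h3⟩
  have h6 : a = a' := Int.dvd_antisymm ha.le ha'.le h4 h5
  refine ⟨h6, ?_⟩
  rw [← h6] at h3
  exact (mul_left_cancel₀ ha.ne' h3).symm

theorem lower26 : ∃ c' : ℝ, 0 < c' ∧ ∃ X₀ : ℝ, ∀ X : ℝ, X₀ ≤ X →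
      c' * X ^ (2 / ((6 : ℕ) : ℝ)) ≤ ((Cv (Tor (ZMod 2 × ZMod 6)) X).ncard : ℝ) := by
  classical
  refine F26.lower (by norm_num) (fun p => inv (W26 p.1 ((p.2 / 2 : ℕ) : ℤ))) 9 (by norm_num) ?_ ?_
  · intro p hp
    obtain ⟨a, b, W, ha, hb, hW, hne, e4, eD⟩ := W26_all hp
    obtain ⟨h1, h2, h3, h4⟩ := hp
    have hab : ∀ q : ℕ, q.Prime → (q : ℤ) ∣ a → (q : ℤ) ∣ b → False := by
      intro q hq g3 g4
      have hqi : Prime (q : ℤ) := Nat.prime_iff_prime_int.1 hq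
      rw [hb] at g4
      have g4' : q ∣ p.2 := by exact_mod_cast g4
      rw [ha] at g3
      rcases hqi.dvd_mul.1 g3 with g5 | g5
      · have g6 : q ∣ 6 := by exact_mod_cast g5
        have := Nat.dvd_gcd g4' g6
        rw [h4] at this
        exact hq.one_lt.ne' (Nat.dvd_one.1 this)
      · have g5' : q ∣ p.1 := by exact_mod_cast g5
        have := Nat.dvd_gcd g5' g4'
        rw [h3] at this
        exact hq.one_lt.ne' (Nat.dvd_one.1 this)
    have hcop : ∀ q : ℕ, q.Prime → (q : ℤ) ∣ UU a b → (q : ℤ) ∣ VV a b → False := by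
      intro q hq g1 g2
      have hqi : Prime (q : ℤ) := Nat.prime_iff_prime_int.1 hq
      have ha' : ¬ (q : ℤ) ∣ a := by
        intro ha'
        refine hab q hq ha' (hqi.dvd_of_dvd_pow (n := 4) ?_)
        have : b ^ 4 = VV a b - a * (2 * b ^ 3) := by unfold VV; ring
        rw [this]
        exact dvd_sub g2 (ha'.mul_right _)
      have hb' : ¬ (q : ℤ) ∣ b := by
        intro hb'
        refine hab q hq (hqi.dvd_of_dvd_pow (n := 4) ?_) hb'
        have : a ^ 4 = UU a b - b * (2 * a ^ 3) := by unfold UU; ring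
        rw [this]
        exact dvd_sub g1 (hb'.mul_right _)
      have g3 : (q : ℤ) ∣ a + 2 * b := by
        unfold UU at g1
        rcases hqi.dvd_mul.1 g1 with h | h
        · exact absurd (hqi.dvd_of_dvd_pow h) ha'
        · exact h
      have g4 : (q : ℤ) ∣ b + 2 * a := by
        unfold VV at g2
        rcases hqi.dvd_mul.1 g2 with h | h
        · exact absurd (hqi.dvd_of_dvd_pow h) hb'
        · exact h
      have g5 : (q : ℤ) ∣ 3 * b := by
        have : 3 * b = 2 * (a + 2 * b) - (b + 2 * a) := by ring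
        rw [this]
        exact dvd_sub (g3.mul_left _) g4
      rcases hqi.dvd_mul.1 g5 with g6 | g6
      · have g7 : q ∣ 3 := by exact_mod_cast g6
        have g8 := (Nat.prime_dvd_prime_iff_eq hq Nat.prime_three).1 g7
        subst g8
        apply ha'
        rw [ha]
        exact ⟨2 * p.1, by push_cast; ring⟩
      · exact hb' g6
    have hD : W.Δ ≠ 0 := by
      intro h0
      rw [h0] at eD
      have : (0 : ℤ) < (UU a b * VV a b * (UU a b - VV a b)) ^ 2 := by positivity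
      linarith
    refine ⟨W, ⟨⟨hD, cop_UV hcop e4 eD⟩, ?_⟩, by rw [hW], (a, b), 256, Lf26 hne, ?_, ?_⟩
    · rw [hW]
      refine W26_tor (by exact_mod_cast h1) (by positivity) ?_
      rw [← hW]
      exact hD
    · change 256 * W.Δ.natAbs = ∏ i, (Lf (α26 i) (a, b)).natAbs ^ e26 i
      rw [prod26, ← eD, Int.natAbs_mul]
      rfl
    · unfold htn
      rw [ha, hb]
      simp only
      omega
  · intro g s hs
    have hinj : Set.InjOn (fun p : ℕ × ℕ => (UU (6 * p.1) p.2 ^ 2, VV (6 * p.1) p.2 ^ 2))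
        (s : Set (ℕ × ℕ)) := by
      rintro x hx y hy hxy
      obtain ⟨⟨a1, a2, a3, a4⟩, -⟩ := hs x hx
      obtain ⟨⟨b1, b2, b3, b4⟩, -⟩ := hs y hy
      simp only [Prod.mk.injEq] at hxy
      obtain ⟨e1, e2⟩ := hxy
      have c1 : ∀ u v : ℕ, Nat.Coprime u v → Nat.Coprime v 6 → IsCoprime (6 * (u : ℤ)) (v : ℤ) := by
        intro u v huv hv
        have h1 : IsCoprime ((6 * u : ℕ) : ℤ) (v : ℤ) :=
          Nat.isCoprime_iff_coprime.2 (Nat.Coprime.mul_left hv.symm huv)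
        simpa using h1
      obtain ⟨f1, f2⟩ := UV_inj (by positivity) (by positivity) (by positivity) (by positivity)
        (c1 _ _ a3 a4) (c1 _ _ b3 b4) e1 e2
      exact Prod.ext (by omega) (by omega)
    have hmaps : ∀ p ∈ s, (UU (6 * p.1) p.2 ^ 2, VV (6 * p.1) p.2 ^ 2) ∈ rt3 g ×ˢ rt3 g := by
      intro p hp
      obtain ⟨h1, h2⟩ := hs p hp
      obtain ⟨a, b, W, ha, hb, hW, hne, e4, eD⟩ := W26_all h1
      obtain ⟨r1, r2⟩ := roots_mem W e4 eD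
      have hg : inv W = g := by rw [hW]; exact h2
      rw [hg, ha, hb] at r1 r2
      exact Finset.mem_product.2 ⟨r1, r2⟩
    have := Finset.card_le_card_of_injOn _ hmaps hinj
    rw [Finset.card_product] at this
    have h3 := rt3_card g
    calc s.card ≤ (rt3 g).card * (rt3 g).card := this
      _ ≤ 3 * 3 := Nat.mul_le_mul h3 h3
      _ = 9 := rfl

end Pool.Agent.Y680.T
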