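import Pool.Agent.Y680.T.Com

/-!
# Semistable curves with a point of order six
-/

set_option autoImplicit false

namespace Pool.Agent.Y680.T

open Finset WeierstrassCurve Pool.Agent.Results.MP_4d5ce1_nt.AllHeightsSharp

/-- the points -/
def α6 : Fin 4 → ℤ × ℤ := ![(1, 0), (-2, 1), (-3, 1), (6, 1)]

/-- the exponents -/
def e6 : Fin 4 → ℕ := ![6, 3, 2, 1]

/-- the invariant `c₄` -/
def g4 (a b : ℤ) : ℤ := a * (a ^ 3 - 24 * (b ^ 2 * (a + 2 * b)))

/-- the discriminant -/
def gD (a b : ℤ) : ℤ := b ^ 6 * (a + 2 * b) ^ 3 * (a + 3 * b) ^ 2 * (a - 6 * b)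

lemma prod6 (a b : ℤ) : ∏ i, (Lf (α6 i) (a, b)).natAbs ^ e6 i = (gD a b).natAbs := by
  rw [Fin.prod_univ_four]
  change (a * 0 - b * 1).natAbs ^ 6 * (a * 1 - b * (-2)).natAbs ^ 3 *
    (a * 1 - b * (-3)).natAbs ^ 2 * (a * 1 - b * 6).natAbs ^ 1 = _
  rw [← Int.natAbs_pow, ← Int.natAbs_pow, ← Int.natAbs_pow, ← Int.natAbs_pow, ← Int.natAbs_mul,
    ← Int.natAbs_mul, ← Int.natAbs_mul]
  congr 1
  unfold gD
  ring

lemma Lf6 {a b : ℤ} (h : gD a b ≠ 0) (i : Fin 4) : Lf (α6 i) (a, b) ≠ 0 := by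
  unfold gD at h
  simp only [mul_ne_zero_iff, ne_eq, pow_eq_zero_iff, OfNat.ofNat_ne_zero, not_false_eq_true] at h
  obtain ⟨⟨⟨h1, h2⟩, h3⟩, h4⟩ := h
  fin_cases i
  · change a * 0 - b * 1 ≠ 0
    intro h0; apply h1; linarith
  · change a * 1 - b * (-2) ≠ 0
    intro h0; apply h2; linarith
  · change a * 1 - b * (-3) ≠ 0
    intro h0; apply h3; linarith
  · change a * 1 - b * 6 ≠ 0
    intro h0; apply h4; linarith

/-- the family -/
noncomputable def F6 : Fam 4 (Tor (ZMod 6)) where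
  α := α6
  S := {2, 3}
  e := e6
  A := 4096
  K := 4
  R x := RR (g4 x.1 x.2) (gD x.1 x.2) ∪ RR (g4 x.1 x.2 / 16) (gD x.1 x.2 / 4096)
  hα := by decide
  hS i j hij p hp h := by
    have h1 : ∀ i j : Fin 4, i ≠ j →
      ((α6 i).1 * (α6 j).2 - (α6 j).1 * (α6 i).2).natAbs ∣ 6 ^ 4 := by decide
    exact prime_23 (h1 i j hij) hp h
  he := by decide
  hK x := by
    have h1 := Finset.card_union_le (RR (g4 x.1 x.2) (gD x.1 x.2))
      (RR (g4 x.1 x.2 / 16) (gD x.1 x.2 / 4096))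
    have h2 := RR_card (g4 x.1 x.2) (gD x.1 x.2)
    have h3 := RR_card (g4 x.1 x.2 / 16) (gD x.1 x.2 / 4096)
    omega
  hP W h := h.1.1
  hx W hW := by
    obtain ⟨⟨hD, hc⟩, hf⟩ := hW
    obtain ⟨P, R, hP, hP0, hR, hR0⟩ := of_emb6 hf
    obtain ⟨m, r, e4, eD⟩ := par6 P R hP hP0 hR hR0
    rw [map_c4] at e4
    rw [map_D] at eD
    obtain ⟨a, b, t, hab, hb, ht, e4', eD'⟩ := int6 hc hD m r e4 eD
    have h4 : (t : ℤ) ^ 4 * W.c₄ = g4 a b := e4'
    have h12 : (t : ℤ) ^ 12 * W.Δ = gD a b := eD'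
    have ht0 : (0 : ℤ) < t := by rcases ht with rfl | rfl <;> norm_num
    have hne : gD a b ≠ 0 := by
      rw [← h12]
      exact mul_ne_zero (by positivity) hD
    refine ⟨(a, b), ⟨hab, Or.inl hb⟩, Lf6 hne, t ^ 12, ?_, ?_, ?_, ?_, ?_⟩
    · rcases ht with rfl | rfl <;> norm_num
    · rcases ht with rfl | rfl <;> norm_num
    · intro p hp h
      have h1 : p ∣ t := hp.dvd_of_dvd_pow h
      refine prime_2pow (l := 1) (k := 2) (by norm_num) hp ?_
      rcases ht with rfl | rfl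
      · exact (Nat.dvd_one.1 h1) ▸ one_dvd _
      · exact h1
    · rw [prod6, ← h12, Int.natAbs_mul, Int.natAbs_pow]
      rfl
    · simp only
      rw [Finset.mem_union]
      rcases ht with rfl | rfl
      · left
        push_cast at h4 h12
        exact mem_RR W (by linarith) (by linarith)
      · right
        push_cast at h4 h12
        exact mem_RR W (by omega) (by omega)

/-- an explicit curve -/
def W6 (a b : ℤ) : WeierstrassCurve ℤ := ⟨a, 0, b ^ 2 * (a + 2 * b), 0, 0⟩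

lemma W6_c4 (a b : ℤ) : (W6 a b).c₄ = g4 a b := by
  simp only [WeierstrassCurve.c₄, WeierstrassCurve.b₂, WeierstrassCurve.b₄, W6, g4]
  ring

lemma W6_D (a b : ℤ) : (W6 a b).Δ = gD a b := by
  simp only [WeierstrassCurve.Δ, WeierstrassCurve.b₂, WeierstrassCurve.b₄, WeierstrassCurve.b₆,
    WeierstrassCurve.b₈, W6, gD]
  ring

lemma W6_tor {a b : ℤ} (ha : 0 < a) (hb : 0 < b) (hD : (W6 a b).Δ ≠ 0) :
    ∃ f : ZMod 6 →+ ((W6 a b).map (Int.castRingHom ℚ)).toAffine.Point,
      Function.Injective f := by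
  obtain ⟨W, hW⟩ : ∃ W, W = (W6 a b).map (Int.castRingHom ℚ) := ⟨_, rfl⟩
  have a1 : W.a₁ = a := by rw [hW]; simp [W6]
  have a2 : W.a₂ = 0 := by rw [hW]; simp [W6]
  have a3 : W.a₃ = (b : ℚ) ^ 2 * (a + 2 * b) := by rw [hW]; simp [W6]
  have a4 : W.a₄ = 0 := by rw [hW]; simp [W6]
  have a6 : W.a₆ = 0 := by rw [hW]; simp [W6]
  have hDW : W.Δ ≠ 0 := by
    rw [hW, map_D]
    exact_mod_cast hD
  rw [← hW]
  have hns : ∀ x y : ℚ, W.toAffine.Equation x y → W.toAffine.Nonsingular x y := fun x y h =>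
    (Affine.equation_iff_nonsingular_of_Δ_ne_zero hDW).mp h
  have n0 : W.toAffine.Nonsingular 0 0 := by
    apply hns
    rw [Affine.equation_iff, a6]
    ring
  have n1 : W.toAffine.Nonsingular (-(b : ℚ) ^ 2) (-(b : ℚ) ^ 3) := by
    apply hns
    rw [Affine.equation_iff, a1, a2, a3, a4, a6]
    ring
  have haq : (0 : ℚ) < a := by exact_mod_cast ha
  have hbq : (0 : ℚ) < b := by exact_mod_cast hb
  have d3 : 3 • Affine.Point.some _ _ n0 = 0 := by
    refine three_of (l := 0) n0 ?_ ?_ ?_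
    · rw [psi, a3]
      have : 0 < 2 * 0 + W.a₁ * 0 + (b : ℚ) ^ 2 * (a + 2 * b) := by
        rw [mul_zero, mul_zero, zero_add, zero_add]
        positivity
      exact this.ne'
    · rw [a4]
      ring
    · rw [a2]
      ring
  refine emb6' (P := Affine.Point.some _ _ n1) (R := Affine.Point.some _ _ n0) ?_
    (Affine.Point.some_ne_zero _) d3 (Affine.Point.some_ne_zero _)
  apply two_of_psi
  rw [psi, a1, a3]
  ring

/-- a polynomial attached to the invariants -/
noncomputable def rt8 (g : ℤ × ℤ) : Finset ℤ :=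
  (Polynomial.C 1 * Polynomial.X ^ 8 - Polynomial.C (6 * g.1) * Polynomial.X ^ 4 -
    Polynomial.C (8 * g.2) * Polynomial.X ^ 2 -
    Polynomial.C (3 * g.1 ^ 2) : Polynomial ℤ).roots.toFinset

lemma rt8_card (g : ℤ × ℤ) : (rt8 g).card ≤ 8 := by
  refine (Multiset.toFinset_card_le _).trans ((Polynomial.card_roots' _).trans ?_)
  compute_degree

lemma mem_rt8 {g : ℤ × ℤ} {t : ℤ} (h : t ^ 8 - 6 * g.1 * t ^ 4 - 8 * g.2 * t ^ 2 -
    3 * g.1 ^ 2 = 0) : t ∈ rt8 g := by
  unfold rt8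
  rw [Multiset.mem_toFinset, Polynomial.mem_roots']
  constructor
  · intro h0
    have h1 := congrArg (fun p : Polynomial ℤ => p.coeff 8) h0
    simp only [Polynomial.coeff_sub, Polynomial.coeff_C_mul,
      Polynomial.coeff_X_pow, Polynomial.coeff_C, Polynomial.coeff_zero] at h1
    norm_num at h1
  · simp only [Polynomial.IsRoot.def, Polynomial.eval_sub, Polynomial.eval_mul, Polynomial.eval_C,
      Polynomial.eval_pow, Polynomial.eval_X]
    linarith

/-- a polynomial attached to the invariants and `a` -/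
noncomputable def rtb (c a : ℤ) : Finset ℤ :=
  (Polynomial.C (48 * a) * Polynomial.X ^ 3 + Polynomial.C (24 * a ^ 2) * Polynomial.X ^ 2 +
    Polynomial.C (c - a ^ 4) : Polynomial ℤ).roots.toFinset

lemma rtb_card (c a : ℤ) : (rtb c a).card ≤ 3 := by
  refine (Multiset.toFinset_card_le _).trans ((Polynomial.card_roots' _).trans ?_)
  compute_degree

lemma mem_rtb {c a b : ℤ} (ha : a ≠ 0) (h : c = g4 a b) : b ∈ rtb c a := by
  unfold rtb
  rw [Multiset.mem_toFinset, Polynomial.mem_roots']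
  constructor
  · intro h0
    have h1 := congrArg (fun p : Polynomial ℤ => p.coeff 3) h0
    simp only [Polynomial.coeff_add, Polynomial.coeff_C_mul,
      Polynomial.coeff_X_pow, Polynomial.coeff_C, Polynomial.coeff_zero] at h1
    norm_num at h1
    exact ha h1
  · simp only [Polynomial.IsRoot.def, Polynomial.eval_add, Polynomial.eval_mul, Polynomial.eval_C,
      Polynomial.eval_pow, Polynomial.eval_X]
    rw [h]
    unfold g4
    ring

lemma W6_c6 (a b : ℤ) : (W6 a b).c₆ = -(a ^ 6) + 36 * a ^ 3 * (b ^ 2 * (a + 2 * b)) -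
    216 * (b ^ 2 * (a + 2 * b)) ^ 2 := by
  simp only [WeierstrassCurve.c₆, WeierstrassCurve.b₂, WeierstrassCurve.b₄, WeierstrassCurve.b₆, W6]
  ring

theorem lower6 : ∃ c' : ℝ, 0 < c' ∧ ∃ X₀ : ℝ, ∀ X : ℝ, X₀ ≤ X →
      c' * X ^ (2 / ((4 : ℕ) : ℝ)) ≤ ((Cv (Tor (ZMod 6)) X).ncard : ℝ) := by
  classical
  refine F6.lower (by norm_num) (fun p => inv (W6 p.2 p.1)) 24 (by norm_num) ?_ ?_
  · rintro ⟨q, p⟩ ⟨h1, h2, h3, h4⟩
    simp only at h1 h2 h3 h4
    obtain ⟨a, ha⟩ : ∃ a : ℤ, a = p := ⟨_, rfl⟩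
    obtain ⟨b, hb⟩ : ∃ b : ℤ, b = q := ⟨_, rfl⟩
    have ha0 : 0 < a := by rw [ha]; exact_mod_cast h2
    have hb0 : 0 < b := by rw [hb]; exact_mod_cast h1
    have h4' := (cop6_iff p).1 h4
    have hne : gD a b ≠ 0 := by
      unfold gD
      have e1 : a - 6 * b ≠ 0 := by omega
      exact mul_ne_zero (mul_ne_zero (mul_ne_zero (by positivity) (by positivity)) (by positivity)) e1
    have hD : (W6 a b).Δ ≠ 0 := by rw [W6_D]; exact hne
    have hcop : IsCoprime (W6 a b).c₄ (W6 a b).Δ := by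
      rw [W6_c4, W6_D, Int.isCoprime_iff_nat_coprime]
      refine Nat.coprime_of_dvd fun r hr g1' g2' => ?_
      have hri : Prime (r : ℤ) := Nat.prime_iff_prime_int.1 hr
      have g1 : (r : ℤ) ∣ g4 a b := Int.natCast_dvd.2 g1'
      have g2 : (r : ℤ) ∣ gD a b := Int.natCast_dvd.2 g2'
      have hcon : (r : ℤ) ∣ a → (r : ℤ) ∣ b → False := by
        intro g3 g4
        rw [ha] at g3
        rw [hb] at g4
        have g3' : r ∣ p := by exact_mod_cast g3
        have g4' : r ∣ q := by exact_mod_cast g4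
        have := Nat.dvd_gcd g4' g3'
        rw [h3] at this
        exact hr.one_lt.ne' (Nat.dvd_one.1 this)
      have hra6 : (r : ℤ) ∣ a → ¬ r ∣ 6 := by
        intro g3 g4
        rw [ha] at g3
        have g3' : r ∣ p := by exact_mod_cast g3
        have := Nat.dvd_gcd g3' g4
        rw [h4] at this
        exact hr.one_lt.ne' (Nat.dvd_one.1 this)
      have hr6 : ¬ r ∣ 6 := by
        intro h6
        apply hra6 _ h6
        refine hri.dvd_of_dvd_pow (n := 4) ?_
        have : a ^ 4 = g4 a b + 6 * (4 * (a * (b ^ 2 * (a + 2 * b)))) := by unfold g4; ring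
        rw [this]
        have h6' : (r : ℤ) ∣ 6 := by exact_mod_cast h6
        exact dvd_add g1 (h6'.mul_right _)
      have hpow : ∀ k l : ℕ, (r : ℤ) ∣ 2 ^ k * 3 ^ l * b ^ 4 → (r : ℤ) ∣ b := by
        intro k l h
        rcases hri.dvd_mul.1 h with h | h
        · exfalso
          rcases hri.dvd_mul.1 h with h | h
          · have h5 := hri.dvd_of_dvd_pow h
            have : r ∣ 2 := by exact_mod_cast h5
            exact hr6 (this.trans (by norm_num))
          · have h5 := hri.dvd_of_dvd_pow h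
            have : r ∣ 3 := by exact_mod_cast h5
            exact hr6 (this.trans (by norm_num))
        · exact hri.dvd_of_dvd_pow h
      have hfin : (r : ℤ) ∣ b → False := by
        intro hb
        refine hcon (hri.dvd_of_dvd_pow (n := 4) ?_) hb
        have : a ^ 4 = g4 a b + b * (24 * (a * (b * (a + 2 * b)))) := by unfold g4; ring
        rw [this]
        exact dvd_add g1 (hb.mul_right _)
      unfold gD at g2
      rcases hri.dvd_mul.1 g2 with h | h
      · rcases hri.dvd_mul.1 h with h | h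
        · rcases hri.dvd_mul.1 h with h | h
          · exact hfin (hri.dvd_of_dvd_pow h)
          · have h1 := hri.dvd_of_dvd_pow h
            refine hfin (hpow 4 0 ?_)
            have : (2 : ℤ) ^ 4 * 3 ^ 0 * b ^ 4 = g4 a b -
              (a + 2 * b) * (a ^ 3 - 2 * a ^ 2 * b - 20 * a * b ^ 2 - 8 * b ^ 3) := by
              unfold g4; ring
            rw [this]
            exact dvd_sub g1 (h1.mul_right _)
        · have h1 := hri.dvd_of_dvd_pow h
          refine hfin (hpow 0 2 ?_)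
          have : (2 : ℤ) ^ 0 * 3 ^ 2 * b ^ 4 = g4 a b -
            (a + 3 * b) * (a ^ 3 - 3 * a ^ 2 * b - 15 * a * b ^ 2 - 3 * b ^ 3) := by
            unfold g4; ring
          rw [this]
          exact dvd_sub g1 (h1.mul_right _)
      · refine hfin (hpow 4 2 ?_)
        have : (2 : ℤ) ^ 4 * 3 ^ 2 * b ^ 4 = g4 a b -
          (a - 6 * b) * (a ^ 3 + 6 * a ^ 2 * b + 12 * a * b ^ 2 + 24 * b ^ 3) := by
          unfold g4; ring
        rw [this]
        exact dvd_sub g1 (h.mul_right _)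
    refine ⟨W6 a b, ⟨⟨hD, hcop⟩, W6_tor ha0 hb0 hD⟩, by rw [ha, hb], (a, b), 1, Lf6 hne, ?_, ?_⟩
    · change 1 * (W6 a b).Δ.natAbs = ∏ i, (Lf (α6 i) (a, b)).natAbs ^ e6 i
      rw [prod6, W6_D, one_mul]
    · unfold htn
      rw [ha, hb]
      simp only
      omega
  · intro g s hs
    have hsub : s ⊆ ((rt8 g).biUnion fun a => (rtb g.1 a).image fun b => (b.toNat, a.toNat)) := by
      intro p hp
      obtain ⟨⟨h1, h2, h3, h4⟩, h5⟩ := hs p hp
      have e1 : (W6 p.2 p.1).c₄ = g.1 := by rw [← h5]; rfl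
      have e2 : (W6 p.2 p.1).c₆ = g.2 := by rw [← h5]; rfl
      rw [Finset.mem_biUnion]
      refine ⟨(p.2 : ℤ), ?_, ?_⟩
      · apply mem_rt8
        rw [← e1, ← e2, W6_c4, W6_c6]
        unfold g4
        ring
      · rw [Finset.mem_image]
        refine ⟨(p.1 : ℤ), mem_rtb ?_ ?_, ?_⟩
        · exact_mod_cast h2.ne'
        · rw [← e1, W6_c4]
        · simp
    refine (Finset.card_le_card hsub).trans ?_
    refine (Finset.card_biUnion_le_card_mul _ _ 3 fun a _ => ?_).trans ?_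
    · exact Finset.card_image_le.trans (rtb_card _ _)
    · have := rt8_card g
      omega

end Pool.Agent.Y680.T
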