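import Pool.Agent.Y680.T.Low

/-!
# Common lemmas for the three families
-/

set_option autoImplicit false

namespace Pool.Agent.Y680.T

open Finset WeierstrassCurve

/-- semistable curves whose group of rational points contains a copy of `T` -/
def Tor (T : Type) [AddCommGroup T] (W : WeierstrassCurve ℤ) : Prop :=
  (W.Δ ≠ 0 ∧ IsCoprime W.c₄ W.Δ) ∧
    ∃ f : T →+ (W.map (Int.castRingHom ℚ)).toAffine.Point, Function.Injective f

lemma map_c4 (W : WeierstrassCurve ℤ) : (W.map (Int.castRingHom ℚ)).c₄ = (W.c₄ : ℚ) := by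
  rw [WeierstrassCurve.map_c₄]
  simp

lemma map_D (W : WeierstrassCurve ℤ) : (W.map (Int.castRingHom ℚ)).Δ = (W.Δ : ℚ) := by
  rw [WeierstrassCurve.map_Δ]
  simp

/-- the square roots of an integer -/
def sqs (n : ℤ) : Finset ℤ := {Int.sqrt n, -Int.sqrt n}

lemma sqs_card (n : ℤ) : (sqs n).card ≤ 2 := Finset.card_le_two

lemma mem_sqs {n z : ℤ} (h : z ^ 2 = n) : z ∈ sqs n := by
  unfold sqs
  rw [Finset.mem_insert, Finset.mem_singleton, ← h, pow_two, Int.sqrt_eq]
  omega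

/-- the possible invariants with given `c₄` and `Δ` -/
def RR (c D : ℤ) : Finset (ℤ × ℤ) := {c} ×ˢ sqs (c ^ 3 - 1728 * D)

lemma RR_card (c D : ℤ) : (RR c D).card ≤ 2 := by
  unfold RR
  rw [Finset.card_product, Finset.card_singleton, one_mul]
  exact sqs_card _

lemma mem_RR (W : WeierstrassCurve ℤ) {c D : ℤ} (hc : W.c₄ = c) (hD : W.Δ = D) :
    inv W ∈ RR c D := by
  unfold inv RR
  rw [Finset.mem_product, Finset.mem_singleton]
  refine ⟨hc, mem_sqs ?_⟩
  have := W.c_relation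
  rw [← hc, ← hD]
  linarith

/-- a cubic attached to the invariants -/
noncomputable def rt3 (g : ℤ × ℤ) : Finset ℤ :=
  (Polynomial.C 27 * Polynomial.X ^ 3 - Polynomial.C (54 * g.1) * Polynomial.X ^ 2 +
    Polynomial.C (27 * g.1 ^ 2) * Polynomial.X -
    Polynomial.C (4 * (g.1 ^ 3 - g.2 ^ 2)) : Polynomial ℤ).roots.toFinset

lemma rt3_card (g : ℤ × ℤ) : (rt3 g).card ≤ 3 := by
  refine (Multiset.toFinset_card_le _).trans ((Polynomial.card_roots' _).trans ?_)
  compute_degree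

lemma mem_rt3 {g : ℤ × ℤ} {t : ℤ} (h : 27 * t ^ 3 - 54 * g.1 * t ^ 2 + 27 * g.1 ^ 2 * t -
    4 * (g.1 ^ 3 - g.2 ^ 2) = 0) : t ∈ rt3 g := by
  unfold rt3
  rw [Multiset.mem_toFinset, Polynomial.mem_roots']
  constructor
  · intro h0
    have h1 := congrArg (fun p : Polynomial ℤ => p.coeff 3) h0
    simp only [Polynomial.coeff_sub, Polynomial.coeff_add, Polynomial.coeff_C_mul,
      Polynomial.coeff_X_pow, Polynomial.coeff_X, Polynomial.coeff_C, Polynomial.coeff_zero] at h1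
    norm_num at h1
  · simp only [Polynomial.IsRoot.def, Polynomial.eval_sub, Polynomial.eval_add,
      Polynomial.eval_mul, Polynomial.eval_C, Polynomial.eval_pow, Polynomial.eval_X]
    linarith

lemma roots_mem (W : WeierstrassCurve ℤ) {U V : ℤ} (hc : W.c₄ = U ^ 2 - U * V + V ^ 2)
    (hD : 256 * W.Δ = (U * V * (U - V)) ^ 2) : U ^ 2 ∈ rt3 (inv W) ∧ V ^ 2 ∈ rt3 (inv W) := by
  have h := W.c_relation
  have h1 : 4 * (W.c₄ ^ 3 - W.c₆ ^ 2) = 27 * (U * V * (U - V)) ^ 2 := by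
    rw [← hD, ← h]; ring
  constructor
  · apply mem_rt3
    unfold inv
    simp only
    rw [h1, hc]
    ring
  · apply mem_rt3
    unfold inv
    simp only
    rw [h1, hc]
    ring

/-- coprimality of the invariants -/
lemma cop_UV {c D U V : ℤ} (hUV : ∀ p : ℕ, p.Prime → (p : ℤ) ∣ U → (p : ℤ) ∣ V → False)
    (hc : c = U ^ 2 - U * V + V ^ 2) (hD : 256 * D = (U * V * (U - V)) ^ 2) : IsCoprime c D := by
  rw [Int.isCoprime_iff_nat_coprime]
  refine Nat.coprime_of_dvd fun p hp h1 h2 => ?_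
  have hpi : Prime (p : ℤ) := Nat.prime_iff_prime_int.1 hp
  have g1 : (p : ℤ) ∣ U ^ 2 - U * V + V ^ 2 := by
    rw [← hc]
    exact Int.natCast_dvd.2 h1
  have g2 : (p : ℤ) ∣ U * V * (U - V) := by
    refine hpi.dvd_of_dvd_pow (n := 2) ?_
    rw [← hD]
    exact (Int.natCast_dvd.2 h2).mul_left _
  rcases hpi.dvd_mul.1 g2 with g3 | g3
  · rcases hpi.dvd_mul.1 g3 with g4 | g4
    · refine hUV p hp g4 (hpi.dvd_of_dvd_pow (n := 2) ?_)
      have : V ^ 2 = (U ^ 2 - U * V + V ^ 2) - U * (U - V) := by ring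
      rw [this]
      exact dvd_sub g1 (g4.mul_right _)
    · refine hUV p hp (hpi.dvd_of_dvd_pow (n := 2) ?_) g4
      have : U ^ 2 = (U ^ 2 - U * V + V ^ 2) - V * (V - U) := by ring
      rw [this]
      exact dvd_sub g1 (g4.mul_right _)
  · have h1 : (p : ℤ) ∣ V ^ 2 := by
      have : V ^ 2 = (U ^ 2 - U * V + V ^ 2) - (U - V) * U := by ring
      rw [this]
      exact dvd_sub g1 (g3.mul_right _)
    have h2 : (p : ℤ) ∣ U ^ 2 := by
      have : U ^ 2 = (U ^ 2 - U * V + V ^ 2) + (U - V) * V := by ring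
      rw [this]
      exact dvd_add g1 (g3.mul_right _)
    exact hUV p hp (hpi.dvd_of_dvd_pow h2) (hpi.dvd_of_dvd_pow h1)

lemma prime_23 {d : ℤ} (h : d.natAbs ∣ 6 ^ 4) {p : ℕ} (hp : p.Prime) (hd : (p : ℤ) ∣ d) :
    p ∈ ({2, 3} : Finset ℕ) := by
  have h1 : p ∣ 6 ^ 4 := (Int.natCast_dvd.1 hd).trans h
  have h2 : p ∣ 2 * 3 := hp.dvd_of_dvd_pow h1
  rw [Finset.mem_insert, Finset.mem_singleton]
  rcases (Nat.Prime.dvd_mul hp).1 h2 with h3 | h3
  · exact Or.inl ((Nat.prime_dvd_prime_iff_eq hp Nat.prime_two).1 h3)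
  · exact Or.inr ((Nat.prime_dvd_prime_iff_eq hp Nat.prime_three).1 h3)

lemma prime_2pow {k l : ℕ} (hk : k = 2 ^ l) {p : ℕ} (hp : p.Prime) (hd : p ∣ k) :
    p ∈ ({2, 3} : Finset ℕ) := by
  rw [hk] at hd
  have h2 : p ∣ 2 := hp.dvd_of_dvd_pow hd
  rw [Finset.mem_insert, Finset.mem_singleton]
  exact Or.inl ((Nat.prime_dvd_prime_iff_eq hp Nat.prime_two).1 h2)

section
variable {F : Type*} [Field F] [DecidableEq F] {W : WeierstrassCurve F}

/-- a criterion for a point of order three -/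
lemma three_of {x y l : F} (h : W.toAffine.Nonsingular x y) (h0 : psi W x y ≠ 0)
    (hl : l * psi W x y = 3 * x ^ 2 + 2 * W.a₂ * x + W.a₄ - W.a₁ * y)
    (hf : l ^ 2 + W.a₁ * l - W.a₂ - 3 * x = 0) : 3 • Affine.Point.some x y h = 0 := by
  obtain ⟨l', x', y', h', e1, e2, e3, e4⟩ := dbl h h0
  have hll : l' = l := mul_right_cancel₀ h0 (e1.trans hl.symm)
  have hx' : x' = x := by
    rw [e2, hll]
    linear_combination hf
  have hy' : y' = W.toAffine.negY x y := by
    rw [e3, hx', Affine.negY]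
    ring
  have e5 : 2 • Affine.Point.some x y h = - Affine.Point.some x y h := by
    rw [e4, Affine.Point.neg_some]
    subst hx' hy'
    rfl
  rw [show (3 : ℕ) = 2 + 1 by norm_num, add_nsmul, e5, one_smul, neg_add_cancel]

/-- a criterion for the double of a point -/
lemma dbl_of {x y l x' y' : F} (h : W.toAffine.Nonsingular x y)
    (h' : W.toAffine.Nonsingular x' y') (h0 : psi W x y ≠ 0)
    (hl : l * psi W x y = 3 * x ^ 2 + 2 * W.a₂ * x + W.a₄ - W.a₁ * y)
    (hx : x' = l ^ 2 + W.a₁ * l - W.a₂ - 2 * x)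
    (hy : y' = -(l * (x' - x) + y) - W.a₁ * x' - W.a₃) :
    2 • Affine.Point.some x y h = Affine.Point.some x' y' h' := by
  obtain ⟨l', x'', y'', h'', e1, e2, e3, e4⟩ := dbl h h0
  have hll : l' = l := mul_right_cancel₀ h0 (e1.trans hl.symm)
  have hx' : x'' = x' := by rw [e2, hll, hx]
  have hy' : y'' = y' := by rw [e3, hll, hx', hy]
  rw [e4]
  subst hx' hy'
  rfl

end

lemma emb6' {A : Type*} [AddCommGroup A] {P R : A} (hP : 2 • P = 0) (hP0 : P ≠ 0)
    (hR : 3 • R = 0) (hR0 : R ≠ 0) : ∃ f : ZMod 6 →+ A, Function.Injective f := by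
  refine emb6_of (P := P + R) ?_ ?_ ?_
  · have : 6 • (P + R) = 3 • (2 • P) + 2 • (3 • R) := by module
    rw [this, hP, hR]
    simp
  · have : 3 • (P + R) = 2 • P + P + 3 • R := by module
    rw [this, hP, hR]
    simpa using hP0
  · have : 2 • (P + R) = 2 • P + 3 • R - R := by module
    rw [this, hP, hR]
    simpa using hR0

lemma emb26' {A : Type*} [AddCommGroup A] {P P' R : A} (hP : 2 • P = 0) (hP0 : P ≠ 0)
    (hP' : 2 • P' = 0) (hP0' : P' ≠ 0) (hne : P ≠ P')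
    (hR : 3 • R = 0) (hR0 : R ≠ 0) : ∃ f : ZMod 2 × ZMod 6 →+ A, Function.Injective f := by
  have h3 : 3 • (P' + R) = P' := by
    have : 3 • (P' + R) = 2 • P' + P' + 3 • R := by module
    rw [this, hP', hR]
    simp
  refine emb26_of (P := P) (Q := P' + R) hP hP0 ?_ ?_ ?_ ?_
  · have : 6 • (P' + R) = 3 • (2 • P') + 2 • (3 • R) := by module
    rw [this, hP', hR]
    simp
  · have : 2 • (P' + R) = 2 • P' + 3 • R - R := by module
    rw [this, hP', hR]
    simpa using hR0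
  · rw [h3]
    exact hP0'
  · rw [h3]
    exact hne

end Pool.Agent.Y680.T
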