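import Pool.Agent.Y680.T.Gen

/-!
# The exceptions and the lower bound for the number of curves
-/

set_option autoImplicit false

namespace Pool.Agent.Y680.T

open Finset Pool.Agent.Results.MP_4d5ce1_nt.AllHeightsSharp Pool.Agent.Y911.PL

variable {q : ℕ} {P : WeierstrassCurve ℤ → Prop}

lemma Fam.U_pos (F : Fam q P) : 1 ≤ F.U := by
  unfold Fam.U
  omega

lemma hh_htn (x : ℤ × ℤ) : hh x = Real.log (htn x) := rfl

/-- outside the exceptional sets the discriminant has the expected size -/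
lemma Fam.good (F : Fam q P) (hq : 3 ≤ q) {δ δ' ε m : ℝ} (hδ : 0 < δ) (hδ' : 0 < δ') (hδ1 : δ' ≤ 1)
    (hm : m = (∑ i, F.e i : ℕ) / (q : ℝ)) (h1 : δ' * m ≤ δ / 2) (hε : 0 < ε) (hε1 : ε ≤ 1)
    (h2 : ε * m ≤ δ) {W : WeierstrassCurve ℤ} (hW : W.Δ ≠ 0) {x : ℤ × ℤ}
    (hl : ∀ i, Lf (F.α i) x ≠ 0) {k : ℕ} (hk0 : 0 < k) (hkA : k ≤ F.A)
    (h : k * W.Δ.natAbs = ∏ i, (Lf (F.α i) x).natAbs ^ F.e i)
    (hN : ((q : ℝ) - ε) * hh x ≤ Real.log (rd W))
    (hL : ∀ i, (1 - δ') * hh x ≤ Real.log (Lf (F.α i) x).natAbs)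
    (hbig : (∑ i, F.e i : ℕ) * Real.log F.U + Real.log (F.A + 1) ≤ δ / 2 * Real.log (rd W)) :
    (rd W : ℝ) ^ (m - δ) ≤ |(W.Δ : ℝ)| ∧ |(W.Δ : ℝ)| ≤ (rd W : ℝ) ^ (m + δ) := by
  have hqR : (3 : ℝ) ≤ q := by exact_mod_cast hq
  have hq0 : (0 : ℝ) < q := by linarith
  obtain ⟨mu, hmu⟩ : ∃ mu : ℝ, mu = ((∑ i, F.e i : ℕ) : ℝ) := ⟨_, rfl⟩
  rw [← hmu] at hm hbig
  have hmu0 : 0 ≤ mu := by rw [hmu]; positivity
  have hm0 : 0 ≤ m := by rw [hm]; positivity
  have hmq : m * q = mu := by rw [hm]; field_simp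
  obtain ⟨l, hll⟩ : ∃ l, l = Real.log (rd W) := ⟨_, rfl⟩
  obtain ⟨t, ht⟩ : ∃ t, t = hh x := ⟨_, rfl⟩
  obtain ⟨u, hu⟩ : ∃ u, u = Real.log (F.U : ℝ) := ⟨_, rfl⟩
  obtain ⟨a, ha⟩ : ∃ a, a = Real.log ((F.A : ℝ) + 1) := ⟨_, rfl⟩
  obtain ⟨D, hD⟩ : ∃ D, D = Real.log |(W.Δ : ℝ)| := ⟨_, rfl⟩
  have ht0 : 0 ≤ t := by rw [ht]; exact hh_nonneg x
  have hU1 : (1 : ℝ) ≤ F.U := by exact_mod_cast F.U_pos
  have hu0 : 0 ≤ u := by rw [hu]; exact Real.log_nonneg hU1
  have ha0 : 0 ≤ a := by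
    rw [ha]
    exact Real.log_nonneg (by have : (0 : ℝ) ≤ F.A := Nat.cast_nonneg _; linarith)
  have hrd : (0 : ℝ) < rd W := by exact_mod_cast rd_pos W
  have hDpos : 0 < |(W.Δ : ℝ)| := by
    rw [abs_pos]
    exact_mod_cast hW
  have hDn : |(W.Δ : ℝ)| = (W.Δ.natAbs : ℝ) := by
    rw [← Int.cast_abs, Int.abs_eq_natAbs]
    simp
  have hkk : (0 : ℝ) < k := by exact_mod_cast hk0
  -- the logarithm of the identity
  have hsum : Real.log k + D = ∑ i, (F.e i : ℝ) * Real.log (Lf (F.α i) x).natAbs := by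
    have h5 : Real.log ((k * W.Δ.natAbs : ℕ) : ℝ) = Real.log k + D := by
      rw [hD, hDn, Nat.cast_mul, Real.log_mul hkk.ne']
      exact_mod_cast (Int.natAbs_pos.2 hW).ne'
    rw [← h5, h, Nat.cast_prod, Real.log_prod]
    · refine Finset.sum_congr rfl fun i _ => ?_
      rw [Nat.cast_pow, Real.log_pow]
    · intro i _
      have := pow_pos (Int.natAbs_pos.2 (hl i)) (F.e i)
      exact_mod_cast this.ne'
  have hx0 : x ≠ (0, 0) := by
    rintro rfl
    have hq1 : 0 < q := by omega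
    exact hl ⟨0, hq1⟩ (by unfold Lf; simp)
  have hht : 0 < htn x := by
    rcases Nat.eq_zero_or_pos (htn x) with h0 | h0
    · exfalso
      apply hx0
      unfold htn at h0
      have : x.1.natAbs = 0 := by omega
      have : x.2.natAbs = 0 := by omega
      exact Prod.ext (by simp only; omega) (by simp only; omega)
    · exact h0
  have hup : ∀ i, Real.log (Lf (F.α i) x).natAbs ≤ u + t := by
    intro i
    have h5 : ((Lf (F.α i) x).natAbs : ℝ) ≤ F.U * htn x := by exact_mod_cast F.Lf_le x i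
    have h6 : (0 : ℝ) < (Lf (F.α i) x).natAbs := by exact_mod_cast Int.natAbs_pos.2 (hl i)
    rw [hu, ht, hh_htn, ← Real.log_mul (by linarith) (by exact_mod_cast hht.ne')]
    exact Real.log_le_log h6 h5
  have hS1 : ∑ i, (F.e i : ℝ) * Real.log (Lf (F.α i) x).natAbs ≤ mu * (u + t) := by
    rw [hmu]
    push_cast
    rw [Finset.sum_mul]
    exact Finset.sum_le_sum fun i _ => mul_le_mul_of_nonneg_left (hup i) (Nat.cast_nonneg _)
  have hS2 : mu * ((1 - δ') * t) ≤ ∑ i, (F.e i : ℝ) * Real.log (Lf (F.α i) x).natAbs := by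
    rw [hmu]
    push_cast
    rw [Finset.sum_mul]
    refine Finset.sum_le_sum fun i _ => mul_le_mul_of_nonneg_left ?_ (Nat.cast_nonneg _)
    rw [ht]
    exact hL i
  have hk1 : 0 ≤ Real.log k := Real.log_natCast_nonneg k
  have hk2 : Real.log k ≤ a := by
    rw [ha]
    have : (k : ℝ) ≤ F.A := by exact_mod_cast hkA
    exact Real.log_le_log hkk (by linarith)
  have hlu : l ≤ q * (u + t) := by
    have h5 : ((rd W : ℕ) : ℝ) ≤ ((F.U * htn x : ℕ) : ℝ) ^ q := by exact_mod_cast F.rd_le hl h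
    have h6 := Real.log_le_log hrd h5
    rw [Real.log_pow, Nat.cast_mul, Real.log_mul (by linarith) (by exact_mod_cast hht.ne'),
      ← hu, ← hh_htn, ← ht, ← hll] at h6
    exact h6
  rw [← hll, ← ht] at hN
  rw [← hu, ← ha, ← hll] at hbig
  have hl0 : 0 ≤ l := by
    rw [hll]
    exact Real.log_natCast_nonneg _
  have hL1 : D ≤ (m + δ) * l := by
    have h5 : D ≤ mu * (u + t) := by linarith
    have h6 : mu * t ≤ (m + δ / 2) * l := by
      have h7 : mu * t ≤ (m + δ / 2) * (((q : ℝ) - ε) * t) := by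
        have h8 : mu ≤ (m + δ / 2) * ((q : ℝ) - ε) := by
          have h9 : 2 ≤ (q : ℝ) - ε := by linarith
          have h10 : (m + δ / 2) * ((q : ℝ) - ε) = mu - ε * m + δ / 2 * ((q : ℝ) - ε) := by
            rw [← hmq]; ring
          have h11 : δ / 2 * 2 ≤ δ / 2 * ((q : ℝ) - ε) := by gcongr
          rw [h10]
          linarith
        nlinarith
      have h8 : (m + δ / 2) * (((q : ℝ) - ε) * t) ≤ (m + δ / 2) * l := by
        apply mul_le_mul_of_nonneg_left hN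
        positivity
      linarith
    nlinarith
  have hL2 : (m - δ) * l ≤ D := by
    have h5 : mu * ((1 - δ') * t) - a ≤ D := by linarith
    have h6 : (1 - δ') * m * l ≤ mu * ((1 - δ') * t) + mu * u := by
      have h7 : (1 - δ') * m * l ≤ (1 - δ') * m * (q * (u + t)) := by
        apply mul_le_mul_of_nonneg_left hlu
        exact mul_nonneg (by linarith) hm0
      have h8 : (1 - δ') * m * (q * (u + t)) = mu * ((1 - δ') * t) + (1 - δ') * (mu * u) := by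
        rw [← hmq]; ring
      have h9 : (1 - δ') * (mu * u) ≤ 1 * (mu * u) := by
        apply mul_le_mul_of_nonneg_right (by linarith) (mul_nonneg hmu0 hu0)
      linarith
    have h7 : (m - δ / 2) * l ≤ (1 - δ') * m * l := by
      apply mul_le_mul_of_nonneg_right _ hl0
      linarith
    nlinarith
  constructor
  · rw [Real.rpow_def_of_pos hrd, ← hll]
    have : |(W.Δ : ℝ)| = Real.exp D := by rw [hD, Real.exp_log hDpos]
    rw [this]
    exact Real.exp_le_exp.2 (by linarith)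
  · rw [Real.rpow_def_of_pos hrd, ← hll]
    have : |(W.Δ : ℝ)| = Real.exp D := by rw [hD, Real.exp_log hDpos]
    rw [this]
    exact Real.exp_le_exp.2 (by linarith)

theorem Fam.exceptions (F : Fam q P) (hq : 3 ≤ q) {m : ℝ} (hm : m = (∑ i, F.e i : ℕ) / (q : ℝ))
    {δ : ℝ} (hδ : 0 < δ) : ∃ η : ℝ, 0 < η ∧ ∃ C : ℝ, 0 < C ∧ ∀ X : ℝ, 1 ≤ X →
      ((Bd P m δ X).ncard : ℝ) ≤ C * X ^ (2 / (q : ℝ) - η) := by
  classical
  have hqR : (3 : ℝ) ≤ q := by exact_mod_cast hq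
  have hq0 : (0 : ℝ) < q := by linarith
  have hm1 : 1 ≤ m := by
    rw [hm, le_div_iff₀ hq0, one_mul]
    have : q ≤ ∑ i, F.e i := by
      calc q = ∑ _i : Fin q, 1 := by simp
        _ ≤ _ := Finset.sum_le_sum fun i _ => F.he i
    exact_mod_cast this
  have hm0 : 0 < m := by linarith
  obtain ⟨δ', hδ'⟩ : ∃ δ' : ℝ, δ' = min (1 / 2) (δ / (2 * m)) := ⟨_, rfl⟩
  have hd0 : 0 < δ' := by rw [hδ']; exact lt_min (by norm_num) (by positivity)
  have hd1 : δ' ≤ 1 / 2 := by rw [hδ']; exact min_le_left _ _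
  have hd2 : δ' * m ≤ δ / 2 := by
    have : δ' ≤ δ / (2 * m) := by rw [hδ']; exact min_le_right _ _
    rw [le_div_iff₀ (by positivity)] at this
    linarith
  obtain ⟨ε, hε⟩ : ∃ ε : ℝ, ε = min 1 (min (δ' / 4) (δ / m)) := ⟨_, rfl⟩
  have he0 : 0 < ε := by rw [hε]; exact lt_min one_pos (lt_min (by positivity) (by positivity))
  have he1 : ε ≤ 1 := by rw [hε]; exact min_le_left _ _
  have he2 : ε ≤ δ' / 4 := by rw [hε]; exact (min_le_right _ _).trans (min_le_left _ _)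
  have he3 : ε * m ≤ δ := by
    have : ε ≤ δ / m := by rw [hε]; exact (min_le_right _ _).trans (min_le_right _ _)
    rwa [le_div_iff₀ hm0] at this
  obtain ⟨ν, hν, C1, hC1, hexc⟩ := exceptions_le hq F.α F.hα F.S he0
  obtain ⟨C2, hC2, hup⟩ := F.upper hq
  have hqe : 0 < (q : ℝ) - ε := by linarith
  obtain ⟨θ, hθ⟩ : ∃ θ : ℝ, θ = (2 - δ') / ((q : ℝ) - ε) := ⟨_, rfl⟩
  have hθ2 : θ < 2 / (q : ℝ) := by
    rw [hθ, div_lt_div_iff₀ hqe hq0]
    nlinarith
  -- the threshold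
  obtain ⟨L0, hL0⟩ : ∃ L0 : ℝ, L0 = 2 / δ * ((∑ i, F.e i : ℕ) * Real.log F.U +
    Real.log (F.A + 1)) := ⟨_, rfl⟩
  have hU1 : (1 : ℝ) ≤ F.U := by exact_mod_cast F.U_pos
  have hL00 : 0 ≤ L0 := by
    rw [hL0]
    have h1 : 0 ≤ Real.log (F.U : ℝ) := Real.log_nonneg hU1
    have h2 : 0 ≤ Real.log ((F.A : ℝ) + 1) := Real.log_nonneg (by
      have : (0 : ℝ) ≤ F.A := Nat.cast_nonneg _
      linarith)
    positivity
  obtain ⟨N0, hN0⟩ : ∃ N0 : ℝ, N0 = Real.exp L0 := ⟨_, rfl⟩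
  have hN01 : 1 ≤ N0 := by rw [hN0]; exact Real.one_le_exp hL00
  obtain ⟨hfin0, hc0⟩ := hup N0 hN01
  obtain ⟨η, hη⟩ : ∃ η : ℝ, η = min ν (min (2 / (q : ℝ)) (2 / (q : ℝ) - θ)) := ⟨_, rfl⟩
  have hη0 : 0 < η := by
    rw [hη]
    exact lt_min hν (lt_min (by positivity) (by linarith))
  have hη1 : η ≤ ν := by rw [hη]; exact min_le_left _ _
  have hη2 : η ≤ 2 / (q : ℝ) := by rw [hη]; exact (min_le_right _ _).trans (min_le_left _ _)
  have hη3 : η ≤ 2 / (q : ℝ) - θ := by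
    rw [hη]; exact (min_le_right _ _).trans (min_le_right _ _)
  refine ⟨η, hη0, C2 * N0 ^ (2 / (q : ℝ)) + F.K * (C1 + q * 9), by positivity, fun X hX => ?_⟩
  have hX0 : 0 < X := by linarith
  have hpow : ∀ s : ℝ, s ≤ 2 / (q : ℝ) - η → X ^ s ≤ X ^ (2 / (q : ℝ) - η) := fun s hs =>
    Real.rpow_le_rpow_of_exponent_le hX hs
  have hone : 1 ≤ X ^ (2 / (q : ℝ) - η) := Real.one_le_rpow hX (by linarith)
  obtain ⟨H, hH⟩ : ∃ H : ℕ, H = ⌊X ^ (1 / ((q : ℝ) - ε))⌋₊ := ⟨_, rfl⟩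
  obtain ⟨M, hM⟩ : ∃ M : ℕ, M = ⌊X ^ ((1 - δ') / ((q : ℝ) - ε))⌋₊ := ⟨_, rfl⟩
  have hHr : (H : ℝ) ≤ X ^ (1 / ((q : ℝ) - ε)) := by rw [hH]; exact Nat.floor_le (by positivity)
  have hMr : (M : ℝ) ≤ X ^ ((1 - δ') / ((q : ℝ) - ε)) := by
    rw [hM]; exact Nat.floor_le (by positivity)
  obtain ⟨T1, hT1⟩ : ∃ T1 : Set (ℤ × ℤ), T1 = {x | x ∈ Pts F.α F.S X ∧
    N1 F.α F.S x < ((q : ℝ) - ε) * hh x} := ⟨_, rfl⟩
  obtain ⟨T2, hT2⟩ : ∃ T2 : Fin q → Set (ℤ × ℤ), T2 = fun i =>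
    {x | htn x ≤ H ∧ (Lf (F.α i) x).natAbs ≤ M} := ⟨_, rfl⟩
  have hT1f : T1.Finite := by
    rw [hT1]
    exact (pts_finite hq F.α F.hα F.S hX).subset fun x hx => hx.1
  have hα0 : ∀ i, F.α i ≠ (0, 0) := by
    intro i h0
    obtain ⟨j, hj⟩ : ∃ j : Fin q, i ≠ j := by
      by_contra hcon
      push Not at hcon
      have e1 := hcon ⟨0, by omega⟩
      have e2 := hcon ⟨1, by omega⟩
      rw [e1] at e2
      exact absurd (Fin.mk.inj_iff.1 e2) (by norm_num)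
    apply F.hα i j hj
    rw [h0]
    ring
  have hT2f : ∀ i, (T2 i).Finite := by
    intro i
    rw [hT2]
    exact (near_count (F.α i) (hα0 i) H M).1
  have hT2u : (⋃ i, T2 i).Finite := Set.finite_iUnion hT2f
  have hT2c : ((⋃ i, T2 i).ncard : ℝ) ≤ q * 9 * X ^ (2 / (q : ℝ) - η) := by
    have h1 : (⋃ i, T2 i).ncard ≤ ∑ i, (T2 i).ncard := by
      have := Set.ncard_iUnion_le_of_fintype T2
      exact this
    have h2 : ∀ i, ((T2 i).ncard : ℝ) ≤ 9 * X ^ (2 / (q : ℝ) - η) := by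
      intro i
      have h3 : (T2 i).ncard ≤ (2 * H + 1) * (2 * M + 1) := by
        rw [hT2]
        exact (near_count (F.α i) (hα0 i) H M).2
      have h4 : ((T2 i).ncard : ℝ) ≤ (2 * (H : ℝ) + 1) * (2 * (M : ℝ) + 1) := by exact_mod_cast h3
      have h5 : (1 : ℝ) ≤ X ^ (1 / ((q : ℝ) - ε)) := Real.one_le_rpow hX (by positivity)
      have h6 : (1 : ℝ) ≤ X ^ ((1 - δ') / ((q : ℝ) - ε)) :=
        Real.one_le_rpow hX (div_nonneg (by linarith) hqe.le)
      have h7 : (2 * (H : ℝ) + 1) * (2 * (M : ℝ) + 1) ≤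
          (3 * X ^ (1 / ((q : ℝ) - ε))) * (3 * X ^ ((1 - δ') / ((q : ℝ) - ε))) := by
        apply mul_le_mul (by linarith) (by linarith) (by positivity) (by positivity)
      have h8 : (3 * X ^ (1 / ((q : ℝ) - ε))) * (3 * X ^ ((1 - δ') / ((q : ℝ) - ε))) =
          9 * X ^ θ := by
        have : X ^ θ = X ^ (1 / ((q : ℝ) - ε)) * X ^ ((1 - δ') / ((q : ℝ) - ε)) := by
          rw [← Real.rpow_add hX0, hθ]
          congr 1
          rw [← add_div]
          congr 1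
          ring
        rw [this]
        ring
      have h9 := hpow θ (by linarith)
      linarith
    calc ((⋃ i, T2 i).ncard : ℝ) ≤ ((∑ i, (T2 i).ncard : ℕ) : ℝ) := by exact_mod_cast h1
      _ = ∑ i, ((T2 i).ncard : ℝ) := by push_cast; rfl
      _ ≤ ∑ _i : Fin q, 9 * X ^ (2 / (q : ℝ) - η) := Finset.sum_le_sum fun i _ => h2 i
      _ = _ := by
        rw [Finset.sum_const, Finset.card_univ, Fintype.card_fin, nsmul_eq_mul]
        ring
  have hT1c : (T1.ncard : ℝ) ≤ C1 * X ^ (2 / (q : ℝ) - η) := by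
    rw [hT1]
    refine (hexc X hX).trans ?_
    exact mul_le_mul_of_nonneg_left (hpow _ (by linarith)) hC1.le
  -- the covering
  have hcov : Bd P m δ X ⊆ Cv P N0 ∪ {g | ∃ x ∈ T1 ∪ ⋃ i, T2 i, g ∈ F.R x} := by
    rintro g ⟨W, hW, hWX, rfl, hbad⟩
    by_cases hsmall : (rd W : ℝ) ≤ N0
    · exact Or.inl ⟨W, hW, hsmall, rfl⟩
    · right
      obtain ⟨x, hn, hl, k, hk0, hkA, hk, hprod, hR⟩ := F.hx W hW
      have hN1 := F.N1_le hn hk (F.hP W hW) hprod
      have hrd : (0 : ℝ) < rd W := by exact_mod_cast rd_pos W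
      refine ⟨x, ?_, hR⟩
      by_contra hx
      rw [Set.mem_union, not_or] at hx
      obtain ⟨hx1, hx2⟩ := hx
      have hlogX : Real.log (rd W) ≤ Real.log X := Real.log_le_log hrd hWX
      have hxP : x ∈ Pts F.α F.S X := ⟨hn, hl, hN1.trans hlogX⟩
      have h3 : ((q : ℝ) - ε) * hh x ≤ N1 F.α F.S x := by
        by_contra hlt
        push Not at hlt
        apply hx1
        rw [hT1]
        exact ⟨hxP, hlt⟩
      have h4 : hh x ≤ 1 / ((q : ℝ) - ε) * Real.log X := by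
        rw [one_div, ← div_eq_inv_mul, le_div_iff₀ hqe]
        linarith
      have hx0 : x ≠ (0, 0) := by
        rintro rfl
        exact hl ⟨0, by omega⟩ (by unfold Lf; simp)
      have hht : 0 < htn x := by
        rcases Nat.eq_zero_or_pos (htn x) with h0 | h0
        · exfalso
          apply hx0
          unfold htn at h0
          have : x.1.natAbs = 0 := by omega
          have : x.2.natAbs = 0 := by omega
          exact Prod.ext (by simp only; omega) (by simp only; omega)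
        · exact h0
      have hhtr : (0 : ℝ) < htn x := by exact_mod_cast hht
      have h5 : htn x ≤ H := by
        rw [hH]
        apply Nat.le_floor
        rw [hh_htn, ← Real.log_rpow hX0] at h4
        exact (Real.log_le_log_iff hhtr (by positivity)).1 h4
      have h6 : ∀ i, (1 - δ') * hh x ≤ Real.log (Lf (F.α i) x).natAbs := by
        intro i
        have h7 : M < (Lf (F.α i) x).natAbs := by
          by_contra hcon
          push Not at hcon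
          apply hx2
          rw [Set.mem_iUnion]
          refine ⟨i, ?_⟩
          rw [hT2]
          exact ⟨h5, hcon⟩
        have h8 : X ^ ((1 - δ') / ((q : ℝ) - ε)) < (Lf (F.α i) x).natAbs := by
          rw [hM] at h7
          exact (Nat.floor_lt (by positivity)).1 h7
        have h9 := Real.log_le_log (by positivity) h8.le
        rw [Real.log_rpow hX0] at h9
        refine le_trans ?_ h9
        have : (1 - δ') / ((q : ℝ) - ε) * Real.log X =
          (1 - δ') * (1 / ((q : ℝ) - ε) * Real.log X) := by ring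
        rw [this]
        exact mul_le_mul_of_nonneg_left h4 (by linarith)
      apply hbad
      refine F.good hq hδ hd0 (by linarith) hm hd2 he0 he1 he3 (F.hP W hW) hl hk0 hkA hprod
        (h3.trans hN1) h6 ?_
      push Not at hsmall
      have h10 : L0 ≤ Real.log (rd W) := by
        rw [hN0] at hsmall
        exact (Real.le_log_iff_exp_le hrd).2 hsmall.le
      rw [hL0] at h10
      have h11 : δ / 2 * (2 / δ * ((∑ i, F.e i : ℕ) * Real.log F.U + Real.log (F.A + 1))) ≤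
        δ / 2 * Real.log (rd W) := mul_le_mul_of_nonneg_left h10 (by positivity)
      refine le_trans (le_of_eq ?_) h11
      field_simp
  obtain ⟨hf3, hc3⟩ := ncard_biUnion_le (hT1f.union hT2u) F.R F.K F.hK
    (Y := {g | ∃ x ∈ T1 ∪ ⋃ i, T2 i, g ∈ F.R x}) (fun g hg => hg)
  have h20 : (Bd P m δ X).ncard ≤ (Cv P N0).ncard +
      ({g | ∃ x ∈ T1 ∪ ⋃ i, T2 i, g ∈ F.R x} : Set (ℤ × ℤ)).ncard :=
    (Set.ncard_le_ncard hcov (hfin0.union hf3)).trans (Set.ncard_union_le _ _)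
  have h21 : (T1 ∪ ⋃ i, T2 i).ncard ≤ T1.ncard + (⋃ i, T2 i).ncard := Set.ncard_union_le _ _
  have h20' : ((Bd P m δ X).ncard : ℝ) ≤ (Cv P N0).ncard +
      ({g | ∃ x ∈ T1 ∪ ⋃ i, T2 i, g ∈ F.R x} : Set (ℤ × ℤ)).ncard := by exact_mod_cast h20
  have h21' : ((T1 ∪ ⋃ i, T2 i).ncard : ℝ) ≤ T1.ncard + (⋃ i, T2 i).ncard := by
    exact_mod_cast h21
  have hK0 : (0 : ℝ) ≤ F.K := Nat.cast_nonneg _
  have h22 : (F.K : ℝ) * ((T1 ∪ ⋃ i, T2 i).ncard : ℝ) ≤
      F.K * ((C1 + q * 9) * X ^ (2 / (q : ℝ) - η)) := by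
    apply mul_le_mul_of_nonneg_left _ hK0
    linarith
  have h23 : C2 * N0 ^ (2 / (q : ℝ)) * 1 ≤ C2 * N0 ^ (2 / (q : ℝ)) * X ^ (2 / (q : ℝ) - η) :=
    mul_le_mul_of_nonneg_left hone (by positivity)
  calc ((Bd P m δ X).ncard : ℝ) ≤ C2 * N0 ^ (2 / (q : ℝ)) * X ^ (2 / (q : ℝ) - η) +
        F.K * ((C1 + q * 9) * X ^ (2 / (q : ℝ) - η)) := by linarith
    _ = _ := by ring

/-- the lower bound for the number of curves -/
theorem lowerCv (hq : 3 ≤ q) {c B : ℝ} (hc : 0 < c) (hB : 0 < B)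
    (hG : ∀ N : ℕ, 1 ≤ N → ∃ G : Finset (ℤ × ℤ), c * (N : ℝ) ^ 2 ≤ G.card ∧ ∀ g ∈ G,
      ∃ W, P W ∧ inv W = g ∧ (rd W : ℝ) ≤ B * (N : ℝ) ^ q)
    (hfin : ∀ X : ℝ, 1 ≤ X → (Cv P X).Finite) :
    ∃ c' : ℝ, 0 < c' ∧ ∃ X₀ : ℝ, ∀ X : ℝ, X₀ ≤ X →
      c' * X ^ (2 / (q : ℝ)) ≤ ((Cv P X).ncard : ℝ) := by
  have hqR : (3 : ℝ) ≤ q := by exact_mod_cast hq
  have hq0 : (0 : ℝ) < q := by linarith
  refine ⟨c / 4 * (1 / B) ^ (2 / (q : ℝ)), by positivity, max 1 B, fun X hX => ?_⟩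
  have hX1 : 1 ≤ X := (le_max_left _ _).trans hX
  have hXB : B ≤ X := (le_max_right _ _).trans hX
  have hX0 : 0 < X := by linarith
  obtain ⟨Y, hY⟩ : ∃ Y : ℝ, Y = (X / B) ^ (1 / (q : ℝ)) := ⟨_, rfl⟩
  have hXB1 : 1 ≤ X / B := by rw [le_div_iff₀ hB]; linarith
  have hY1 : 1 ≤ Y := by rw [hY]; exact Real.one_le_rpow hXB1 (by positivity)
  obtain ⟨N, hN⟩ : ∃ N : ℕ, N = ⌊Y⌋₊ := ⟨_, rfl⟩
  have hN1 : 1 ≤ N := by rw [hN]; exact Nat.le_floor (by simpa using hY1)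
  have hNr : (1 : ℝ) ≤ N := by exact_mod_cast hN1
  have hNle : (N : ℝ) ≤ Y := by rw [hN]; exact Nat.floor_le (by linarith)
  have hNge : Y / 2 ≤ N := by
    have : Y - 1 < N := by rw [hN]; exact Nat.sub_one_lt_floor _
    linarith
  obtain ⟨G, hGc, hG⟩ := hG N hN1
  have hsub : (G : Set (ℤ × ℤ)) ⊆ Cv P X := by
    intro g hg
    obtain ⟨W, hW, hi, hr⟩ := hG g hg
    refine ⟨W, hW, hr.trans ?_, hi⟩
    have h1 : (N : ℝ) ^ q ≤ Y ^ q := pow_le_pow_left₀ (by linarith) hNle q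
    have h2 : Y ^ q = X / B := by
      rw [hY, ← Real.rpow_natCast, ← Real.rpow_mul (by positivity)]
      rw [one_div, inv_mul_cancel₀ hq0.ne', Real.rpow_one]
    calc B * (N : ℝ) ^ q ≤ B * (X / B) := by rw [← h2]; gcongr
      _ = X := by field_simp
  have h1 : G.card ≤ (Cv P X).ncard := by
    rw [← Set.ncard_coe_finset]
    exact Set.ncard_le_ncard hsub (hfin X hX1)
  have h2 : (X / B) ^ (2 / (q : ℝ)) = Y ^ 2 := by
    rw [hY, ← Real.rpow_natCast, ← Real.rpow_mul (by positivity)]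
    congr 1
    push_cast
    ring
  have h3 : (1 / B) ^ (2 / (q : ℝ)) * X ^ (2 / (q : ℝ)) = Y ^ 2 := by
    rw [← h2, ← Real.mul_rpow (by positivity) hX0.le]
    congr 1
    ring
  calc c / 4 * (1 / B) ^ (2 / (q : ℝ)) * X ^ (2 / (q : ℝ))
      = c / 4 * ((1 / B) ^ (2 / (q : ℝ)) * X ^ (2 / (q : ℝ))) := by ring
    _ = c * (Y / 2) ^ 2 := by rw [h3]; ring
    _ ≤ c * (N : ℝ) ^ 2 := by
        apply mul_le_mul_of_nonneg_left _ hc.le
        exact pow_le_pow_left₀ (by linarith) hNge 2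
    _ ≤ G.card := hGc
    _ ≤ (Cv P X).ncard := by exact_mod_cast h1

end Pool.Agent.Y680.T
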