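import Pool.Agent.Y911.PL.Main

/-!
# Counting elliptic curves in a family over the projective line, all heights
-/

set_option autoImplicit false

namespace Pool.Agent.Y680.T

open Finset Pool.Agent.Results.MP_4d5ce1_nt.AllHeightsSharp Pool.Agent.Y911.PL

/-- the value of the linear form attached to the point `α` -/
def Lf (α : ℤ × ℤ) (x : ℤ × ℤ) : ℤ := x.1 * α.2 - x.2 * α.1

/-- the height -/
def htn (x : ℤ × ℤ) : ℕ := max x.1.natAbs x.2.natAbs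

/-- the product of the primes dividing the discriminant -/
def rd (W : WeierstrassCurve ℤ) : ℕ := ∏ p ∈ W.Δ.natAbs.primeFactors, p

/-- the invariants `c₄, c₆` -/
def inv (W : WeierstrassCurve ℤ) : ℤ × ℤ := (W.c₄, W.c₆)

/-- the invariants of the curves with the property `P` with `rd W ≤ X` -/
def Cv (P : WeierstrassCurve ℤ → Prop) (X : ℝ) : Set (ℤ × ℤ) :=
  {g | ∃ W, P W ∧ (rd W : ℝ) ≤ X ∧ inv W = g}

/-- the exceptions -/
def Bd (P : WeierstrassCurve ℤ → Prop) (m δ X : ℝ) : Set (ℤ × ℤ) :=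
  {g | ∃ W, P W ∧ (rd W : ℝ) ≤ X ∧ inv W = g ∧
    ¬((rd W : ℝ) ^ (m - δ) ≤ |(W.Δ : ℝ)| ∧ |(W.Δ : ℝ)| ≤ (rd W : ℝ) ^ (m + δ))}

/-- The data of a family: points, exponents and the relation with the curves. -/
structure Fam (q : ℕ) (P : WeierstrassCurve ℤ → Prop) where
  α : Fin q → ℤ × ℤ
  S : Finset ℕ
  e : Fin q → ℕ
  A : ℕ
  K : ℕ
  R : ℤ × ℤ → Finset (ℤ × ℤ)
  hα : ∀ i j, i ≠ j → (α i).1 * (α j).2 ≠ (α j).1 * (α i).2
  hS : ∀ i j, i ≠ j → ∀ p : ℕ, p.Prime →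
    (p : ℤ) ∣ (α i).1 * (α j).2 - (α j).1 * (α i).2 → p ∈ S
  he : ∀ i, 1 ≤ e i
  hK : ∀ x, (R x).card ≤ K
  hP : ∀ W, P W → W.Δ ≠ 0
  hx : ∀ W, P W → ∃ x, Nrm x ∧ (∀ i, Lf (α i) x ≠ 0) ∧ ∃ k : ℕ, 0 < k ∧ k ≤ A ∧
    (∀ p : ℕ, p.Prime → p ∣ k → p ∈ S) ∧ k * W.Δ.natAbs = ∏ i, (Lf (α i) x).natAbs ^ e i ∧
    inv W ∈ R x

section

variable {q : ℕ} {P : WeierstrassCurve ℤ → Prop} (F : Fam q P)

/-- a bound for the coefficients of the forms -/
def Fam.U : ℕ := 1 + ∑ i, ((F.α i).1.natAbs + (F.α i).2.natAbs)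

lemma Fam.Lf_le (x : ℤ × ℤ) (i : Fin q) : (Lf (F.α i) x).natAbs ≤ F.U * htn x := by
  have h1 : (F.α i).1.natAbs + (F.α i).2.natAbs ≤ F.U := by
    unfold Fam.U
    have := Finset.single_le_sum (f := fun i => (F.α i).1.natAbs + (F.α i).2.natAbs)
      (fun i _ => Nat.zero_le _) (Finset.mem_univ i)
    omega
  have h2 : x.1.natAbs ≤ htn x := le_max_left _ _
  have h3 : x.2.natAbs ≤ htn x := le_max_right _ _
  unfold Lf
  calc (x.1 * (F.α i).2 - x.2 * (F.α i).1).natAbs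
      ≤ (x.1 * (F.α i).2).natAbs + (x.2 * (F.α i).1).natAbs := by omega
    _ = x.1.natAbs * (F.α i).2.natAbs + x.2.natAbs * (F.α i).1.natAbs := by
        rw [Int.natAbs_mul, Int.natAbs_mul]
    _ ≤ htn x * (F.α i).2.natAbs + htn x * (F.α i).1.natAbs := by gcongr
    _ = ((F.α i).1.natAbs + (F.α i).2.natAbs) * htn x := by ring
    _ ≤ F.U * htn x := by gcongr

lemma Fam.disj {x : ℤ × ℤ} (hn : Nrm x) {i j : Fin q} (hij : i ≠ j) {p : ℕ} (hp : p.Prime)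
    (h1 : (p : ℤ) ∣ Lf (F.α i) x) (h2 : (p : ℤ) ∣ Lf (F.α j) x) : p ∈ F.S := by
  have hpi : Prime (p : ℤ) := Nat.prime_iff_prime_int.1 hp
  apply F.hS i j hij p hp
  have e1 : (p : ℤ) ∣ ((F.α i).1 * (F.α j).2 - (F.α j).1 * (F.α i).2) * x.1 := by
    have : ((F.α i).1 * (F.α j).2 - (F.α j).1 * (F.α i).2) * x.1 =
        (F.α i).1 * Lf (F.α j) x - (F.α j).1 * Lf (F.α i) x := by
      unfold Lf
      ring
    rw [this]
    exact dvd_sub (h2.mul_left _) (h1.mul_left _)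
  have e2 : (p : ℤ) ∣ ((F.α i).1 * (F.α j).2 - (F.α j).1 * (F.α i).2) * x.2 := by
    have : ((F.α i).1 * (F.α j).2 - (F.α j).1 * (F.α i).2) * x.2 =
        (F.α i).2 * Lf (F.α j) x - (F.α j).2 * Lf (F.α i) x := by
      unfold Lf
      ring
    rw [this]
    exact dvd_sub (h2.mul_left _) (h1.mul_left _)
  by_contra hcon
  rcases hpi.dvd_mul.1 e1 with h | h
  · exact hcon h
  · rcases hpi.dvd_mul.1 e2 with h' | h'
    · exact hcon h'
    · exact hpi.not_isUnit (hn.1.isUnit_of_dvd' h h')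

lemma log_rd (W : WeierstrassCurve ℤ) :
    Real.log (rd W) = ∑ p ∈ W.Δ.natAbs.primeFactors, Real.log (p : ℝ) := by
  unfold rd
  rw [Nat.cast_prod, Real.log_prod]
  intro p hp
  exact_mod_cast (Nat.prime_of_mem_primeFactors hp).ne_zero

lemma rd_pos (W : WeierstrassCurve ℤ) : 1 ≤ rd W :=
  Finset.prod_pos fun _ hp => (Nat.prime_of_mem_primeFactors hp).pos

lemma Fam.N1_le {W : WeierstrassCurve ℤ} {x : ℤ × ℤ} {k : ℕ} (hn : Nrm x)
    (hk : ∀ p : ℕ, p.Prime → p ∣ k → p ∈ F.S) (hW : W.Δ ≠ 0)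
    (h : k * W.Δ.natAbs = ∏ i, (Lf (F.α i) x).natAbs ^ F.e i) :
    N1 F.α F.S x ≤ Real.log (rd W) := by
  classical
  rw [log_rd]
  unfold N1
  have hdis : Set.PairwiseDisjoint (↑(Finset.univ : Finset (Fin q)))
      (fun i => (x.1 * (F.α i).2 - x.2 * (F.α i).1).natAbs.primeFactors \ F.S) := by
    intro i _ j _ hij
    rw [Function.onFun, Finset.disjoint_left]
    intro p h1 h2
    rw [Finset.mem_sdiff] at h1 h2
    have hp := Nat.prime_of_mem_primeFactors h1.1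
    exact h1.2 (F.disj hn hij hp (Int.natCast_dvd.2 (Nat.dvd_of_mem_primeFactors h1.1))
      (Int.natCast_dvd.2 (Nat.dvd_of_mem_primeFactors h2.1)))
  rw [← Finset.sum_biUnion hdis]
  refine Finset.sum_le_sum_of_subset_of_nonneg ?_ fun p _ _ => Real.log_natCast_nonneg p
  intro p hp
  rw [Finset.mem_biUnion] at hp
  obtain ⟨i, _, hp⟩ := hp
  rw [Finset.mem_sdiff] at hp
  have hpp := Nat.prime_of_mem_primeFactors hp.1
  rw [Nat.mem_primeFactors]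
  refine ⟨hpp, ?_, by simpa using hW⟩
  have h1 : p ∣ k * W.Δ.natAbs := by
    rw [h]
    refine dvd_trans ?_ (Finset.dvd_prod_of_mem _ (Finset.mem_univ i))
    exact dvd_pow (Nat.dvd_of_mem_primeFactors hp.1) (by have := F.he i; omega)
  rcases (Nat.Prime.dvd_mul hpp).1 h1 with h2 | h2
  · exact absurd (hk p hpp h2) hp.2
  · exact h2

lemma Fam.rd_le {W : WeierstrassCurve ℤ} {x : ℤ × ℤ} {k : ℕ} (hl : ∀ i, Lf (F.α i) x ≠ 0)
    (h : k * W.Δ.natAbs = ∏ i, (Lf (F.α i) x).natAbs ^ F.e i) :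
    rd W ≤ (F.U * htn x) ^ q := by
  classical
  have h1 : rd W ∣ ∏ i, (Lf (F.α i) x).natAbs := by
    unfold rd
    refine Finset.prod_primes_dvd _ (fun p hp => (Nat.prime_of_mem_primeFactors hp).prime) ?_
    intro p hp
    have hpp := Nat.prime_of_mem_primeFactors hp
    have h2 : p ∣ ∏ i, (Lf (F.α i) x).natAbs ^ F.e i := by
      rw [← h]
      exact (Nat.dvd_of_mem_primeFactors hp).mul_left _
    obtain ⟨i, _, hi⟩ := (hpp.prime.dvd_finsetProd_iff _).1 h2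
    exact (hpp.dvd_of_dvd_pow hi).trans (Finset.dvd_prod_of_mem _ (Finset.mem_univ i))
  have h2 : 0 < ∏ i, (Lf (F.α i) x).natAbs :=
    Finset.prod_pos fun i _ => Int.natAbs_pos.2 (hl i)
  refine (Nat.le_of_dvd h2 h1).trans ?_
  calc ∏ i, (Lf (F.α i) x).natAbs ≤ ∏ _i : Fin q, F.U * htn x :=
        Finset.prod_le_prod' fun i _ => F.Lf_le x i
    _ = (F.U * htn x) ^ q := by
        rw [Finset.prod_const, Finset.card_univ, Fintype.card_fin]

lemma ncard_biUnion_le {T : Set (ℤ × ℤ)} (hT : T.Finite) (R : ℤ × ℤ → Finset (ℤ × ℤ)) (K : ℕ)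
    (hK : ∀ x, (R x).card ≤ K) {Y : Set (ℤ × ℤ)} (hY : ∀ g ∈ Y, ∃ x ∈ T, g ∈ R x) :
    Y.Finite ∧ (Y.ncard : ℝ) ≤ K * T.ncard := by
  classical
  have hsub : Y ⊆ ↑(hT.toFinset.biUnion R) := by
    intro g hg
    obtain ⟨x, hx, hgx⟩ := hY g hg
    rw [Finset.mem_coe, Finset.mem_biUnion]
    exact ⟨x, hT.mem_toFinset.2 hx, hgx⟩
  have hfin : Y.Finite := (Finset.finite_toSet _).subset hsub
  refine ⟨hfin, ?_⟩
  have h1 : Y.ncard ≤ (hT.toFinset.biUnion R).card := by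
    rw [← Set.ncard_coe_finset]
    exact Set.ncard_le_ncard hsub (Finset.finite_toSet _)
  have h2 : (hT.toFinset.biUnion R).card ≤ hT.toFinset.card * K :=
    Finset.card_biUnion_le_card_mul _ _ _ fun x _ => hK x
  rw [← Set.ncard_eq_toFinset_card _ hT] at h2
  have h3 : Y.ncard ≤ K * T.ncard := by rw [mul_comm]; exact h1.trans h2
  exact_mod_cast h3

include F in
theorem Fam.upper (hq : 3 ≤ q) : ∃ C : ℝ, 0 < C ∧ ∀ X : ℝ, 1 ≤ X → (Cv P X).Finite ∧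
    ((Cv P X).ncard : ℝ) ≤ C * X ^ (2 / (q : ℝ)) := by
  obtain ⟨C, hC, h⟩ := upper_sharp hq F.α F.hα F.S
  refine ⟨(F.K + 1) * C, by positivity, fun X hX => ?_⟩
  have hfin := pts_finite hq F.α F.hα F.S hX
  have h1 : ∀ g ∈ Cv P X, ∃ x ∈ Pts F.α F.S X, g ∈ F.R x := by
    rintro g ⟨W, hW, hX', rfl⟩
    obtain ⟨x, hn, hl, k, hk0, hkA, hk, hprod, hR⟩ := F.hx W hW
    refine ⟨x, ⟨hn, hl, ?_⟩, hR⟩
    refine (F.N1_le hn hk (F.hP W hW) hprod).trans ?_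
    have := rd_pos W
    exact Real.log_le_log (by exact_mod_cast this) hX'
  obtain ⟨h2, h3⟩ := ncard_biUnion_le hfin F.R F.K F.hK h1
  refine ⟨h2, h3.trans ?_⟩
  have h4 := h X hX
  have h5 : (0 : ℝ) ≤ (Pts F.α F.S X).ncard := Nat.cast_nonneg _
  have h6 : (0 : ℝ) ≤ F.K := Nat.cast_nonneg _
  calc (F.K : ℝ) * (Pts F.α F.S X).ncard ≤ (F.K + 1) * (C * X ^ (2 / (q : ℝ))) := by
        apply mul_le_mul (by linarith) h4 h5 (by linarith)
    _ = _ := by ring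

/-- the points of a box at which a form takes a small value -/
lemma near_count (α : ℤ × ℤ) (hα : α ≠ (0, 0)) (H M : ℕ) :
    ({x : ℤ × ℤ | htn x ≤ H ∧ (Lf α x).natAbs ≤ M} : Set (ℤ × ℤ)).Finite ∧
    ({x : ℤ × ℤ | htn x ≤ H ∧ (Lf α x).natAbs ≤ M} : Set (ℤ × ℤ)).ncard ≤
      (2 * H + 1) * (2 * M + 1) := by
  classical
  have hcard : ∀ n : ℕ, (Finset.Icc (-(n : ℤ)) n).card = 2 * n + 1 := by
    intro n
    rw [Int.card_Icc]
    omega
  have key : ∀ f : ℤ × ℤ → ℤ × ℤ,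
      Set.InjOn f {x : ℤ × ℤ | htn x ≤ H ∧ (Lf α x).natAbs ≤ M} →
      (∀ x ∈ {x : ℤ × ℤ | htn x ≤ H ∧ (Lf α x).natAbs ≤ M},
        f x ∈ (↑((Finset.Icc (-(H : ℤ)) H) ×ˢ (Finset.Icc (-(M : ℤ)) M)) : Set (ℤ × ℤ))) →
      ({x : ℤ × ℤ | htn x ≤ H ∧ (Lf α x).natAbs ≤ M} : Set (ℤ × ℤ)).Finite ∧
      ({x : ℤ × ℤ | htn x ≤ H ∧ (Lf α x).natAbs ≤ M} : Set (ℤ × ℤ)).ncard ≤
      (2 * H + 1) * (2 * M + 1) := by
    intro f hf hm
    have hfin := Set.Finite.of_injOn hm hf (Finset.finite_toSet _)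
    refine ⟨hfin, ?_⟩
    have h1 := Set.ncard_le_ncard_of_injOn f hm hf (Finset.finite_toSet _)
    rw [Set.ncard_coe_finset, Finset.card_product, hcard, hcard] at h1
    exact h1
  by_cases h1 : α.1 = 0
  · have h2 : α.2 ≠ 0 := by
      intro h2
      exact hα (Prod.ext h1 h2)
    refine key (fun x => (x.2, Lf α x)) ?_ ?_
    · rintro x - y - hxy
      simp only [Prod.mk.injEq] at hxy
      obtain ⟨e1, e2⟩ := hxy
      unfold Lf at e2
      rw [e1] at e2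
      refine Prod.ext ?_ e1
      exact mul_right_cancel₀ h2 (by linarith)
    · rintro x ⟨hx1, hx2⟩
      have h3 : x.2.natAbs ≤ htn x := le_max_right _ _
      rw [Finset.mem_coe, Finset.mem_product, Finset.mem_Icc, Finset.mem_Icc]
      simp only
      omega
  · refine key (fun x => (x.1, Lf α x)) ?_ ?_
    · rintro x - y - hxy
      simp only [Prod.mk.injEq] at hxy
      obtain ⟨e1, e2⟩ := hxy
      unfold Lf at e2
      rw [e1] at e2
      refine Prod.ext e1 ?_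
      exact mul_right_cancel₀ h1 (by linarith)
    · rintro x ⟨hx1, hx2⟩
      have h3 : x.1.natAbs ≤ htn x := le_max_left _ _
      rw [Finset.mem_coe, Finset.mem_product, Finset.mem_Icc, Finset.mem_Icc]
      simp only
      omega

end

end Pool.Agent.Y680.T
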