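import Mathlib

/-!
# Embeddings of `ℤ/6`, `ℤ/2 × ℤ/4` and `ℤ/2 × ℤ/6`
-/

set_option autoImplicit false

namespace Pool.Agent.Y680.T

variable {A : Type*} [AddCommGroup A]

/-- the homomorphism with given values -/
def hom1 (n : ℕ) (P : A) (h : n • P = 0) : ZMod n →+ A :=
  ZMod.lift n ⟨zmultiplesHom A P, by simpa using h⟩

lemma hom1_coe (n : ℕ) (P : A) (h : n • P = 0) (k : ℕ) : hom1 n P h (k : ZMod n) = k • P := by
  have : ((k : ℤ) : ZMod n) = (k : ZMod n) := by push_cast; rfl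
  rw [← this, hom1, ZMod.lift_coe]
  simp

lemma emb6_of {P : A} (h : 6 • P = 0) (h3 : 3 • P ≠ 0) (h2 : 2 • P ≠ 0) :
    ∃ f : ZMod 6 →+ A, Function.Injective f := by
  refine ⟨hom1 6 P h, (injective_iff_map_eq_zero _).2 fun x hx => ?_⟩
  obtain ⟨k, hk, rfl⟩ : ∃ k : ℕ, k < 6 ∧ (k : ZMod 6) = x := ⟨x.val, x.val_lt, by simp⟩
  rw [hom1_coe] at hx
  interval_cases k
  · rfl
  · exfalso
    rw [one_smul] at hx
    exact h2 (by rw [hx, smul_zero])
  · exact absurd hx h2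
  · exact absurd hx h3
  · exfalso
    apply h2
    have : 2 • P = 6 • P - 4 • P := by module
    rw [this, h, hx, sub_zero]
  · exfalso
    apply h2
    have : 2 • P = 2 • (6 • P - 5 • P) := by module
    rw [this, h, hx, sub_zero, smul_zero]

lemma of_emb6 (h : ∃ f : ZMod 6 →+ A, Function.Injective f) :
    ∃ P R : A, 2 • P = 0 ∧ P ≠ 0 ∧ 3 • R = 0 ∧ R ≠ 0 := by
  obtain ⟨f, hf⟩ := h
  refine ⟨f 3, f 2, ?_, ?_, ?_, ?_⟩
  · rw [← map_nsmul, show (2 : ℕ) • (3 : ZMod 6) = 0 by decide, map_zero]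
  · intro h
    have := hf (h.trans (map_zero f).symm)
    exact absurd this (by decide)
  · rw [← map_nsmul, show (3 : ℕ) • (2 : ZMod 6) = 0 by decide, map_zero]
  · intro h
    have := hf (h.trans (map_zero f).symm)
    exact absurd this (by decide)

lemma emb24_of {P Q : A} (hP : 2 • P = 0) (hP0 : P ≠ 0) (hQ : 4 • Q = 0) (hQ2 : 2 • Q ≠ 0)
    (hPQ : P ≠ 2 • Q) : ∃ f : ZMod 2 × ZMod 4 →+ A, Function.Injective f := by
  refine ⟨(hom1 2 P hP).coprod (hom1 4 Q hQ), (injective_iff_map_eq_zero _).2 ?_⟩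
  rintro ⟨x, y⟩ hx
  obtain ⟨k, hk, rfl⟩ : ∃ k : ℕ, k < 2 ∧ (k : ZMod 2) = x := ⟨x.val, x.val_lt, by simp⟩
  obtain ⟨l, hl, rfl⟩ : ∃ l : ℕ, l < 4 ∧ (l : ZMod 4) = y := ⟨y.val, y.val_lt, by simp⟩
  rw [AddMonoidHom.coprod_apply] at hx
  simp only at hx
  rw [hom1_coe, hom1_coe] at hx
  interval_cases k <;> interval_cases l
  · rfl
  · exfalso
    apply hQ2
    have : 2 • Q = 2 • (0 • P + 1 • Q) := by module
    rw [this, hx, smul_zero]
  · exfalso
    apply hQ2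
    have : 2 • Q = 0 • P + 2 • Q := by module
    rw [this, hx]
  · exfalso
    apply hQ2
    have : 2 • Q = 2 • (4 • Q - (0 • P + 3 • Q)) := by module
    rw [this, hx, hQ, sub_zero, smul_zero]
  · exfalso
    apply hP0
    have : P = 1 • P + 0 • Q := by module
    rw [this, hx]
  · exfalso
    apply hQ2
    have : 2 • Q = 2 • (1 • P + 1 • Q) - 2 • P := by module
    rw [this, hx, hP, sub_zero, smul_zero]
  · exfalso
    apply hPQ
    have : P = (1 • P + 2 • Q) - 4 • Q + 2 • Q := by module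
    rw [this, hx, hQ]
    simp
  · exfalso
    apply hQ2
    have : 2 • Q = 2 • (1 • P + 3 • Q) - 2 • P - 4 • Q := by module
    rw [this, hx, hP, hQ, sub_zero, sub_zero, smul_zero]

lemma of_emb24 (h : ∃ f : ZMod 2 × ZMod 4 →+ A, Function.Injective f) :
    ∃ P Q : A, 2 • P = 0 ∧ P ≠ 0 ∧ 4 • Q = 0 ∧ 2 • Q ≠ 0 ∧ P ≠ 2 • Q := by
  obtain ⟨f, hf⟩ := h
  refine ⟨f (1, 0), f (0, 1), ?_, ?_, ?_, ?_, ?_⟩
  · rw [← map_nsmul, show (2 : ℕ) • ((1, 0) : ZMod 2 × ZMod 4) = 0 by decide, map_zero]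
  · intro h
    have := hf (h.trans (map_zero f).symm)
    exact absurd this (by decide)
  · rw [← map_nsmul, show (4 : ℕ) • ((0, 1) : ZMod 2 × ZMod 4) = 0 by decide, map_zero]
  · intro h
    rw [← map_nsmul] at h
    have := hf (h.trans (map_zero f).symm)
    exact absurd this (by decide)
  · intro h
    rw [← map_nsmul] at h
    have := hf h
    exact absurd this (by decide)

lemma emb26_of {P Q : A} (hP : 2 • P = 0) (hP0 : P ≠ 0) (hQ : 6 • Q = 0) (hQ2 : 2 • Q ≠ 0)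
    (hQ3 : 3 • Q ≠ 0) (hPQ : P ≠ 3 • Q) :
    ∃ f : ZMod 2 × ZMod 6 →+ A, Function.Injective f := by
  refine ⟨(hom1 2 P hP).coprod (hom1 6 Q hQ), (injective_iff_map_eq_zero _).2 ?_⟩
  rintro ⟨x, y⟩ hx
  obtain ⟨k, hk, rfl⟩ : ∃ k : ℕ, k < 2 ∧ (k : ZMod 2) = x := ⟨x.val, x.val_lt, by simp⟩
  obtain ⟨l, hl, rfl⟩ : ∃ l : ℕ, l < 6 ∧ (l : ZMod 6) = y := ⟨y.val, y.val_lt, by simp⟩
  rw [AddMonoidHom.coprod_apply] at hx
  simp only at hx
  rw [hom1_coe, hom1_coe] at hx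
  interval_cases k <;> interval_cases l
  · rfl
  · exfalso
    apply hQ2
    have : 2 • Q = 2 • (0 • P + 1 • Q) := by module
    rw [this, hx, smul_zero]
  · exfalso
    apply hQ2
    have : 2 • Q = 0 • P + 2 • Q := by module
    rw [this, hx]
  · exfalso
    apply hQ3
    have : 3 • Q = 0 • P + 3 • Q := by module
    rw [this, hx]
  · exfalso
    apply hQ2
    have : 2 • Q = 6 • Q - (0 • P + 4 • Q) := by module
    rw [this, hx, hQ, sub_zero]
  · exfalso
    apply hQ2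
    have : 2 • Q = 2 • (6 • Q - (0 • P + 5 • Q)) := by module
    rw [this, hx, hQ, sub_zero, smul_zero]
  · exfalso
    apply hP0
    have : P = 1 • P + 0 • Q := by module
    rw [this, hx]
  · exfalso
    apply hQ2
    have : 2 • Q = 2 • (1 • P + 1 • Q) - 2 • P := by module
    rw [this, hx, hP, sub_zero, smul_zero]
  · exfalso
    apply hQ2
    have : 2 • Q = (6 • Q - 2 • (1 • P + 2 • Q)) + 2 • P := by module
    rw [this, hx, hP, hQ]
    simp
  · exfalso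
    apply hPQ
    have : P = (1 • P + 3 • Q) - 6 • Q + 3 • Q := by module
    rw [this, hx, hQ]
    simp
  · exfalso
    apply hQ2
    have : 2 • Q = 2 • (1 • P + 4 • Q) - 2 • P - 6 • Q := by module
    rw [this, hx, hP, hQ, sub_zero, sub_zero, smul_zero]
  · exfalso
    apply hQ2
    have : 2 • Q = 2 • P + 2 • (6 • Q - (1 • P + 5 • Q)) := by module
    rw [this, hx, hP, hQ]
    simp

lemma of_emb26 (h : ∃ f : ZMod 2 × ZMod 6 →+ A, Function.Injective f) :
    ∃ P1 P2 R : A, 2 • P1 = 0 ∧ 2 • P2 = 0 ∧ P1 ≠ 0 ∧ P2 ≠ 0 ∧ P1 ≠ P2 ∧ 3 • R = 0 ∧ R ≠ 0 := by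
  obtain ⟨f, hf⟩ := h
  refine ⟨f (1, 0), f (0, 3), f (0, 2), ?_, ?_, ?_, ?_, ?_, ?_, ?_⟩
  · rw [← map_nsmul, show (2 : ℕ) • ((1, 0) : ZMod 2 × ZMod 6) = 0 by decide, map_zero]
  · rw [← map_nsmul, show (2 : ℕ) • ((0, 3) : ZMod 2 × ZMod 6) = 0 by decide, map_zero]
  · intro h
    have := hf (h.trans (map_zero f).symm)
    exact absurd this (by decide)
  · intro h
    have := hf (h.trans (map_zero f).symm)
    exact absurd this (by decide)
  · intro h
    have := hf h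
    exact absurd this (by decide)
  · rw [← map_nsmul, show (3 : ℕ) • ((0, 2) : ZMod 2 × ZMod 6) = 0 by decide, map_zero]
  · intro h
    have := hf (h.trans (map_zero f).symm)
    exact absurd this (by decide)

end Pool.Agent.Y680.T
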