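import Pool.Agent.Y680.T.Par

/-!
# Integral parameters of the semistable curves
-/

set_option autoImplicit false

namespace Pool.Agent.Y680.T

/-- coprime integral coordinates -/
lemma cop2 (m n : ℚ) (hn : n ≠ 0) : ∃ (l : ℚ) (a b : ℤ), l ≠ 0 ∧ IsCoprime a b ∧ 0 < b ∧
    m = l * a ∧ n = l * b := by
  refine ⟨n / (m / n).den, (m / n).num, (m / n).den, ?_, ?_, ?_, ?_, ?_⟩
  · exact div_ne_zero hn (by exact_mod_cast (m / n).den_nz)
  · rw [Int.isCoprime_iff_nat_coprime]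
    simpa using (m / n).reduced
  · exact_mod_cast (m / n).den_pos
  · have h1 : ((m / n).num : ℚ) = m / n * (m / n).den := (Rat.mul_den_eq_num _).symm
    rw [h1]
    have : ((m / n).den : ℚ) ≠ 0 := by exact_mod_cast (m / n).den_nz
    field_simp
  · have : ((m / n).den : ℚ) ≠ 0 := by exact_mod_cast (m / n).den_nz
    push_cast
    field_simp

/-- the scaling factor of a semistable curve is the inverse of an integer -/
lemma scale (c D g h : ℤ) (hcop : IsCoprime c D) (l : ℚ) (hc : (c : ℚ) = l ^ 4 * g)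
    (hd : (D : ℚ) = l ^ 12 * h) (hl : l ≠ 0) : ∃ t : ℕ, 0 < t ∧ (t : ℤ) ^ 4 * c = g ∧
      (t : ℤ) ^ 12 * D = h := by
  have hden : (l.den : ℚ) ≠ 0 := by exact_mod_cast l.den_nz
  have hl' : l * l.den = l.num := Rat.mul_den_eq_num l
  have e1 : (l.den : ℤ) ^ 4 * c = l.num ^ 4 * g := by
    have : (l.den : ℚ) ^ 4 * c = (l.num : ℚ) ^ 4 * g := by rw [hc, ← hl']; ring
    exact_mod_cast this
  have e2 : (l.den : ℤ) ^ 12 * D = l.num ^ 12 * h := by
    have : (l.den : ℚ) ^ 12 * D = (l.num : ℚ) ^ 12 * h := by rw [hd, ← hl']; ring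
    exact_mod_cast this
  have hn : l.num.natAbs = 1 := by
    by_contra hne
    obtain ⟨p, hp, hpn⟩ := Nat.exists_prime_and_dvd hne
    have hpi : Prime (p : ℤ) := Nat.prime_iff_prime_int.1 hp
    have h1 : (p : ℤ) ∣ l.num := Int.natCast_dvd.2 hpn
    have h2 : ¬ (p : ℤ) ∣ (l.den : ℤ) := by
      intro h2
      have h3 : p ∣ l.den := by exact_mod_cast h2
      have := Nat.dvd_gcd hpn h3
      rw [l.reduced] at this
      exact hp.one_lt.ne' (Nat.dvd_one.1 this)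
    have h3 : (p : ℤ) ∣ c := by
      have : (p : ℤ) ∣ (l.den : ℤ) ^ 4 * c := by
        rw [e1]
        exact (dvd_pow h1 (by norm_num)).mul_right _
      rcases hpi.dvd_mul.1 this with h4 | h4
      · exact absurd (hpi.dvd_of_dvd_pow h4) h2
      · exact h4
    have h4 : (p : ℤ) ∣ D := by
      have : (p : ℤ) ∣ (l.den : ℤ) ^ 12 * D := by
        rw [e2]
        exact (dvd_pow h1 (by norm_num)).mul_right _
      rcases hpi.dvd_mul.1 this with h4 | h4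
      · exact absurd (hpi.dvd_of_dvd_pow h4) h2
      · exact h4
    exact hpi.not_unit (hcop.isUnit_of_dvd' h3 h4)
  have hn2 : l.num ^ 2 = 1 := by
    rw [← Int.natAbs_sq, hn]
    norm_num
  refine ⟨l.den, l.den_pos, ?_, ?_⟩
  · rw [e1, show l.num ^ 4 = (l.num ^ 2) ^ 2 by ring, hn2]
    ring
  · rw [e2, show l.num ^ 12 = (l.num ^ 2) ^ 6 by ring, hn2]
    ring

lemma t_two {t : ℕ} (ht : 0 < t) (hp : ∀ p, p.Prime → p ∣ t → p = 2) (h4 : ¬ 4 ∣ t) :
    t = 1 ∨ t = 2 := by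
  have h := Nat.eq_prime_pow_of_unique_prime_dvd ht.ne' (p := 2) (fun {d} h1 h2 => hp d h1 h2)
  rcases Nat.lt_or_ge t.primeFactorsList.length 2 with h5 | h5
  · obtain ⟨k, hk⟩ : ∃ k, k = t.primeFactorsList.length := ⟨_, rfl⟩
    rw [← hk] at h h5
    interval_cases k
    · left; simpa using h
    · right; simpa using h
  · exfalso
    apply h4
    rw [h]
    exact pow_dvd_pow 2 h5

/-- `ℤ/2 × ℤ/4` -/
lemma int24 {c D : ℤ} (hcop : IsCoprime c D) (hD : D ≠ 0) (m n : ℚ)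
    (hc : (c : ℚ) = 16 * (m ^ 4 - m ^ 2 * n ^ 2 + n ^ 4))
    (hd : (D : ℚ) = 16 * (m ^ 2 * n ^ 2 * (m ^ 2 - n ^ 2)) ^ 2) :
    ∃ a b : ℤ, IsCoprime a b ∧ 0 < b ∧ c = a ^ 4 - a ^ 2 * b ^ 2 + b ^ 4 ∧
      256 * D = (a ^ 2 * b ^ 2 * (a ^ 2 - b ^ 2)) ^ 2 := by
  have hn : n ≠ 0 := by
    rintro rfl
    apply hD
    have : (D : ℚ) = 0 := by rw [hd]; ring
    exact_mod_cast this
  obtain ⟨l, a, b, hl, hab, hb, rfl, rfl⟩ := cop2 m n hn
  obtain ⟨t, ht, e1, e2⟩ := scale c D (16 * (a ^ 4 - a ^ 2 * b ^ 2 + b ^ 4))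
    (16 * (a ^ 2 * b ^ 2 * (a ^ 2 - b ^ 2)) ^ 2) hcop l (by rw [hc]; push_cast; ring)
    (by rw [hd]; push_cast; ring) hl
  have hodd : (a ^ 4 - a ^ 2 * b ^ 2 + b ^ 4) % 2 = 1 := by
    have h1 : ¬ ((2 : ℤ) ∣ a ∧ (2 : ℤ) ∣ b) := by
      rintro ⟨h2, h3⟩
      have := hab.isUnit_of_dvd' h2 h3
      exact absurd this (by decide)
    have h2 : a % 2 = 0 ∨ a % 2 = 1 := by omega
    have h3 : b % 2 = 0 ∨ b % 2 = 1 := by omega
    have key : (a ^ 4 - a ^ 2 * b ^ 2 + b ^ 4) % 2 =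
        ((a % 2) ^ 4 - (a % 2) ^ 2 * (b % 2) ^ 2 + (b % 2) ^ 4) % 2 := by
      apply Int.ModEq.symm
      have ha : a % 2 ≡ a [ZMOD 2] := Int.mod_modEq a 2
      have hb : b % 2 ≡ b [ZMOD 2] := Int.mod_modEq b 2
      exact ((ha.pow 4).sub ((ha.pow 2).mul (hb.pow 2))).add (hb.pow 4)
    rw [key]
    rcases h2 with h2 | h2 <;> rcases h3 with h3 | h3
    · exact absurd ⟨by omega, by omega⟩ h1
    all_goals
      rw [h2, h3]
      norm_num
  have hpr : ∀ p, p.Prime → p ∣ t → p = 2 := by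
    intro p hp hpt
    by_contra hp2
    have hpi : Prime (p : ℤ) := Nat.prime_iff_prime_int.1 hp
    have hpt' : (p : ℤ) ∣ (t : ℤ) := by exact_mod_cast hpt
    have h16 : ¬ (p : ℤ) ∣ 16 := by
      intro h
      have h' : (p : ℤ) ∣ 2 ^ 4 := by simpa using h
      have h'' := hpi.dvd_of_dvd_pow h'
      have : p ∣ 2 := by exact_mod_cast h''
      exact hp2 ((Nat.prime_dvd_prime_iff_eq hp Nat.prime_two).1 this)
    have g1 : (p : ℤ) ∣ a ^ 4 - a ^ 2 * b ^ 2 + b ^ 4 := by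
      have : (p : ℤ) ∣ 16 * (a ^ 4 - a ^ 2 * b ^ 2 + b ^ 4) := by
        rw [← e1]
        exact (dvd_pow hpt' (by norm_num)).mul_right _
      exact (hpi.dvd_mul.1 this).resolve_left h16
    have g2 : (p : ℤ) ∣ a ^ 2 * b ^ 2 * (a ^ 2 - b ^ 2) := by
      have : (p : ℤ) ∣ 16 * (a ^ 2 * b ^ 2 * (a ^ 2 - b ^ 2)) ^ 2 := by
        rw [← e2]
        exact (dvd_pow hpt' (by norm_num)).mul_right _
      exact hpi.dvd_of_dvd_pow ((hpi.dvd_mul.1 this).resolve_left h16)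
    have hcon : (p : ℤ) ∣ a → (p : ℤ) ∣ b → False := fun h1 h2 =>
      hpi.not_unit (hab.isUnit_of_dvd' h1 h2)
    rcases hpi.dvd_mul.1 g2 with g3 | g3
    · rcases hpi.dvd_mul.1 g3 with g4 | g4
      · have h1 := hpi.dvd_of_dvd_pow g4
        refine hcon h1 (hpi.dvd_of_dvd_pow (n := 4) ?_)
        have : b ^ 4 = (a ^ 4 - a ^ 2 * b ^ 2 + b ^ 4) - a * (a * (a ^ 2 - b ^ 2)) := by ring
        rw [this]
        exact dvd_sub g1 (h1.mul_right _)
      · have h1 := hpi.dvd_of_dvd_pow g4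
        refine hcon (hpi.dvd_of_dvd_pow (n := 4) ?_) h1
        have : a ^ 4 = (a ^ 4 - a ^ 2 * b ^ 2 + b ^ 4) - b * (b * (b ^ 2 - a ^ 2)) := by ring
        rw [this]
        exact dvd_sub g1 (h1.mul_right _)
    · have h4 : (p : ℤ) ∣ b ^ 4 := by
        have : b ^ 4 = (a ^ 4 - a ^ 2 * b ^ 2 + b ^ 4) - (a ^ 2 - b ^ 2) * a ^ 2 := by ring
        rw [this]
        exact dvd_sub g1 (g3.mul_right _)
      have h5 : (p : ℤ) ∣ a ^ 4 := by
        have : a ^ 4 = (a ^ 4 - a ^ 2 * b ^ 2 + b ^ 4) + (a ^ 2 - b ^ 2) * b ^ 2 := by ring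
        rw [this]
        exact dvd_add g1 (g3.mul_right _)
      exact hcon (hpi.dvd_of_dvd_pow h5) (hpi.dvd_of_dvd_pow h4)
  have h4 : ¬ 4 ∣ t := by
    rintro ⟨s, rfl⟩
    push_cast at e1
    have : (a ^ 4 - a ^ 2 * b ^ 2 + b ^ 4) = 16 * ((s : ℤ) ^ 4 * c) := by linarith
    omega
  rcases t_two ht hpr h4 with rfl | rfl
  · exfalso
    have h2c : (2 : ℤ) ∣ c := by
      push_cast at e1
      exact ⟨8 * (a ^ 4 - a ^ 2 * b ^ 2 + b ^ 4), by linarith⟩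
    have h2D : (2 : ℤ) ∣ D := by
      push_cast at e2
      exact ⟨8 * (a ^ 2 * b ^ 2 * (a ^ 2 - b ^ 2)) ^ 2, by linarith⟩
    exact absurd (hcop.isUnit_of_dvd' h2c h2D) (by decide)
  · push_cast at e1 e2
    exact ⟨a, b, hab, hb, by linarith, by linarith⟩

/-- `ℤ/2 × ℤ/6` -/
lemma int26 {c D : ℤ} (hcop : IsCoprime c D) (hD : D ≠ 0) (r s t : ℚ) (hr : r ≠ 0) (hs : s ≠ 0)
    (ht : t ≠ 0) (hrel : r * s + r * t + s * t = 0)
    (hc : (c : ℚ) = 16 * ((s ^ 2 - r ^ 2) ^ 2 - (s ^ 2 - r ^ 2) * (t ^ 2 - r ^ 2) +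
        (t ^ 2 - r ^ 2) ^ 2))
    (hd : (D : ℚ) = 16 * ((s ^ 2 - r ^ 2) * (t ^ 2 - r ^ 2) * (t ^ 2 - s ^ 2)) ^ 2) :
    ∃ a b U V : ℤ, IsCoprime a b ∧ 0 < b ∧ U = a ^ 3 * (a + 2 * b) ∧ V = b ^ 3 * (b + 2 * a) ∧
      c = U ^ 2 - U * V + V ^ 2 ∧ 256 * D = (U * V * (U - V)) ^ 2 := by
  obtain ⟨l, a, b, hl, hab, hb, rfl, rfl⟩ := cop2 s t ht
  have ha0 : (a : ℚ) ≠ 0 := by
    intro h
    rw [h, mul_zero] at hs
    exact hs rfl
  have hb0 : (b : ℚ) ≠ 0 := by exact_mod_cast hb.ne'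
  have hab0 : (a : ℚ) + b ≠ 0 := by
    intro h
    have : l ^ 2 * (a * b) = 0 := by
      have e : r * (l * a) + r * (l * b) = r * l * (a + b) := by ring
      rw [e, h, mul_zero, zero_add] at hrel
      linear_combination hrel
    exact (mul_ne_zero (pow_ne_zero 2 hl) (mul_ne_zero ha0 hb0)) this
  obtain ⟨rho, hrho⟩ : ∃ rho, rho = l / (a + b) := ⟨_, rfl⟩
  have hlr : l = rho * (a + b) := by rw [hrho]; field_simp
  have hrho0 : rho ≠ 0 := by
    rw [hrho]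
    exact div_ne_zero hl hab0
  have hr' : r = -(rho * (a * b)) := by
    have : (a + b) * l * r = (a + b) * l * (-(rho * (a * b))) := by
      have e : (a + b) * l * (-(rho * (a * b))) = -(l * a * (rho * (a + b) * b)) := by ring
      rw [e, ← hlr]
      linear_combination hrel
    exact mul_left_cancel₀ (mul_ne_zero hab0 hl) this
  obtain ⟨U, hU⟩ : ∃ U : ℤ, U = a ^ 3 * (a + 2 * b) := ⟨_, rfl⟩
  obtain ⟨V, hV⟩ : ∃ V : ℤ, V = b ^ 3 * (b + 2 * a) := ⟨_, rfl⟩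
  have eU : (l * a) ^ 2 - r ^ 2 = rho ^ 2 * U := by
    rw [hr', hlr, hU]
    push_cast
    ring
  have eV : (l * b) ^ 2 - r ^ 2 = rho ^ 2 * V := by
    rw [hr', hlr, hV]
    push_cast
    ring
  have eW : (l * b) ^ 2 - (l * a) ^ 2 = rho ^ 2 * (V - U) := by
    linear_combination eV - eU
  rw [eU, eV] at hc hd
  rw [eW] at hd
  obtain ⟨q, hq, e1, e2⟩ := scale c D (16 * (U ^ 2 - U * V + V ^ 2))
    (16 * (U * V * (U - V)) ^ 2) hcop rho (by rw [hc]; push_cast; ring)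
    (by rw [hd]; push_cast; ring) hrho0
  have hcon : ∀ p : ℕ, p.Prime → (p : ℤ) ∣ a → (p : ℤ) ∣ b → False := fun p hp h1 h2 =>
    (Nat.prime_iff_prime_int.1 hp).not_unit (hab.isUnit_of_dvd' h1 h2)
  -- primes dividing both U and V
  have hUV : ∀ p : ℕ, p.Prime → (p : ℤ) ∣ U → (p : ℤ) ∣ V →
      p = 3 ∧ (p : ℤ) ∣ a + 2 * b ∧ ¬ (p : ℤ) ∣ a ∧ ¬ (p : ℤ) ∣ b := by
    intro p hp h1 h2
    have hpi : Prime (p : ℤ) := Nat.prime_iff_prime_int.1 hp
    have ha : ¬ (p : ℤ) ∣ a := by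
      intro ha
      refine hcon p hp ha (hpi.dvd_of_dvd_pow (n := 4) ?_)
      have : b ^ 4 = V - a * (2 * b ^ 3) := by rw [hV]; ring
      rw [this]
      exact dvd_sub h2 (ha.mul_right _)
    have hb : ¬ (p : ℤ) ∣ b := by
      intro hb
      refine hcon p hp (hpi.dvd_of_dvd_pow (n := 4) ?_) hb
      have : a ^ 4 = U - b * (2 * a ^ 3) := by rw [hU]; ring
      rw [this]
      exact dvd_sub h1 (hb.mul_right _)
    have h3 : (p : ℤ) ∣ a + 2 * b := by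
      rw [hU] at h1
      rcases hpi.dvd_mul.1 h1 with h | h
      · exact absurd (hpi.dvd_of_dvd_pow h) ha
      · exact h
    have h4 : (p : ℤ) ∣ b + 2 * a := by
      rw [hV] at h2
      rcases hpi.dvd_mul.1 h2 with h | h
      · exact absurd (hpi.dvd_of_dvd_pow h) hb
      · exact h
    have h5 : (p : ℤ) ∣ 3 * b := by
      have : 3 * b = 2 * (a + 2 * b) - (b + 2 * a) := by ring
      rw [this]
      exact dvd_sub (h3.mul_left _) h4
    have h6 : (p : ℤ) ∣ 3 := (hpi.dvd_mul.1 h5).resolve_right hb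
    have h7 : p ∣ 3 := by exact_mod_cast h6
    exact ⟨(Nat.prime_dvd_prime_iff_eq hp Nat.prime_three).1 h7, h3, ha, hb⟩
  have hodd : (U ^ 2 - U * V + V ^ 2) % 2 = 1 := by
    have h1 : ¬ ((2 : ℤ) ∣ U ∧ (2 : ℤ) ∣ V) := by
      rintro ⟨h2, h3⟩
      have := hUV 2 Nat.prime_two h2 h3
      omega
    have h2 : U % 2 = 0 ∨ U % 2 = 1 := by omega
    have h3 : V % 2 = 0 ∨ V % 2 = 1 := by omega
    have key : (U ^ 2 - U * V + V ^ 2) % 2 =
        ((U % 2) ^ 2 - (U % 2) * (V % 2) + (V % 2) ^ 2) % 2 := by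
      apply Int.ModEq.symm
      have ha : U % 2 ≡ U [ZMOD 2] := Int.mod_modEq U 2
      have hb : V % 2 ≡ V [ZMOD 2] := Int.mod_modEq V 2
      exact ((ha.pow 2).sub (ha.mul hb)).add (hb.pow 2)
    rw [key]
    rcases h2 with h2 | h2 <;> rcases h3 with h3 | h3
    · exact absurd ⟨by omega, by omega⟩ h1
    all_goals
      rw [h2, h3]
      norm_num
  have hpr : ∀ p, p.Prime → p ∣ q → p = 2 := by
    intro p hp hpt
    by_contra hp2
    have hpi : Prime (p : ℤ) := Nat.prime_iff_prime_int.1 hp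
    have hpt' : (p : ℤ) ∣ (q : ℤ) := by exact_mod_cast hpt
    have h16 : ¬ (p : ℤ) ∣ 16 := by
      intro h
      have h' : (p : ℤ) ∣ 2 ^ 4 := by simpa using h
      have h'' := hpi.dvd_of_dvd_pow h'
      have : p ∣ 2 := by exact_mod_cast h''
      exact hp2 ((Nat.prime_dvd_prime_iff_eq hp Nat.prime_two).1 this)
    have g1 : (p : ℤ) ∣ U ^ 2 - U * V + V ^ 2 := by
      have : (p : ℤ) ∣ 16 * (U ^ 2 - U * V + V ^ 2) := by
        rw [← e1]
        exact (dvd_pow hpt' (by norm_num)).mul_right _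
      exact (hpi.dvd_mul.1 this).resolve_left h16
    have g2 : (p : ℤ) ∣ U * V * (U - V) := by
      have : (p : ℤ) ∣ 16 * (U * V * (U - V)) ^ 2 := by
        rw [← e2]
        exact (dvd_pow hpt' (by norm_num)).mul_right _
      exact hpi.dvd_of_dvd_pow ((hpi.dvd_mul.1 this).resolve_left h16)
    have g3 : (p : ℤ) ∣ U ∧ (p : ℤ) ∣ V := by
      rcases hpi.dvd_mul.1 g2 with g3 | g3
      · rcases hpi.dvd_mul.1 g3 with g4 | g4
        · refine ⟨g4, hpi.dvd_of_dvd_pow (n := 2) ?_⟩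
          have : V ^ 2 = (U ^ 2 - U * V + V ^ 2) - U * (U - V) := by ring
          rw [this]
          exact dvd_sub g1 (g4.mul_right _)
        · refine ⟨hpi.dvd_of_dvd_pow (n := 2) ?_, g4⟩
          have : U ^ 2 = (U ^ 2 - U * V + V ^ 2) - V * (V - U) := by ring
          rw [this]
          exact dvd_sub g1 (g4.mul_right _)
      · have h1 : (p : ℤ) ∣ V ^ 2 := by
          have : V ^ 2 = (U ^ 2 - U * V + V ^ 2) - (U - V) * U := by ring
          rw [this]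
          exact dvd_sub g1 (g3.mul_right _)
        have h2 : (p : ℤ) ∣ U ^ 2 := by
          have : U ^ 2 = (U ^ 2 - U * V + V ^ 2) + (U - V) * V := by ring
          rw [this]
          exact dvd_add g1 (g3.mul_right _)
        exact ⟨hpi.dvd_of_dvd_pow h2, hpi.dvd_of_dvd_pow h1⟩
    obtain ⟨rfl, h3, ha, hb⟩ := hUV p hp g3.1 g3.2
    -- 81 divides G
    have h81 : (81 : ℤ) ∣ U ^ 2 - U * V + V ^ 2 := by
      have h1 : (81 : ℤ) ∣ 16 * (U ^ 2 - U * V + V ^ 2) := by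
        rw [← e1]
        have h2 : ((3 : ℤ)) ^ 4 ∣ (q : ℤ) ^ 4 := pow_dvd_pow_of_dvd (by exact_mod_cast hpt) 4
        have h3 : (81 : ℤ) ∣ (q : ℤ) ^ 4 := by simpa using h2
        exact h3.mul_right _
      omega
    obtain ⟨k, hk⟩ : ∃ k, a = b + 3 * k := by
      push_cast at h3
      exact ⟨(a - b) / 3, by omega⟩
    obtain ⟨X, hX⟩ : ∃ X, X = a ^ 3 * (b + k) := ⟨_, rfl⟩
    obtain ⟨Y, hY⟩ : ∃ Y, Y = b ^ 3 * (b + 2 * k) := ⟨_, rfl⟩
    have eU : U = 3 * X := by rw [hU, hX]; rw [show a + 2 * b = 3 * (b + k) by rw [hk]; ring]; ring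
    have eV : V = 3 * Y := by rw [hV, hY]; rw [show b + 2 * a = 3 * (b + 2 * k) by rw [hk]; ring]; ring
    have h9 : (9 : ℤ) ∣ (X + Y) ^ 2 - 3 * (X * Y) := by
      have : U ^ 2 - U * V + V ^ 2 = 9 * ((X + Y) ^ 2 - 3 * (X * Y)) := by rw [eU, eV]; ring
      rw [this] at h81
      omega
    have h3p : Prime (3 : ℤ) := Int.prime_three
    have h3a : (3 : ℤ) ∣ X + Y := by
      refine h3p.dvd_of_dvd_pow (n := 2) ?_
      omega
    have h3b : (3 : ℤ) ∣ X * Y := by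
      have : (9 : ℤ) ∣ (X + Y) ^ 2 := by
        have := pow_dvd_pow_of_dvd h3a 2
        simpa using this
      omega
    have hXY : (3 : ℤ) ∣ X ∧ (3 : ℤ) ∣ Y := by
      rcases h3p.dvd_mul.1 h3b with h | h <;> exact ⟨by omega, by omega⟩
    have ha' : ¬ (3 : ℤ) ∣ a := by exact_mod_cast ha
    have hb' : ¬ (3 : ℤ) ∣ b := by exact_mod_cast hb
    have hx1 : (3 : ℤ) ∣ b + k := by
      have := hXY.1
      rw [hX] at this
      rcases h3p.dvd_mul.1 this with h | h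
      · exact absurd (h3p.dvd_of_dvd_pow h) ha'
      · exact h
    have hy1 : (3 : ℤ) ∣ b + 2 * k := by
      have := hXY.2
      rw [hY] at this
      rcases h3p.dvd_mul.1 this with h | h
      · exact absurd (h3p.dvd_of_dvd_pow h) hb'
      · exact h
    omega
  have h4 : ¬ 4 ∣ q := by
    rintro ⟨s, rfl⟩
    push_cast at e1
    have : (U ^ 2 - U * V + V ^ 2) = 16 * ((s : ℤ) ^ 4 * c) := by linarith
    omega
  rcases t_two hq hpr h4 with rfl | rfl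
  · exfalso
    have h2c : (2 : ℤ) ∣ c := by
      push_cast at e1
      exact ⟨8 * (U ^ 2 - U * V + V ^ 2), by linarith⟩
    have h2D : (2 : ℤ) ∣ D := by
      push_cast at e2
      exact ⟨8 * (U * V * (U - V)) ^ 2, by linarith⟩
    exact absurd (hcop.isUnit_of_dvd' h2c h2D) (by decide)
  · push_cast at e1 e2
    exact ⟨a, b, U, V, hab, hb, hU, hV, by linarith, by linarith⟩

/-- a point of order six -/
lemma int6 {c D : ℤ} (hcop : IsCoprime c D) (hD : D ≠ 0) (m r : ℚ)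
    (hc : (c : ℚ) = m * (m ^ 3 - 24 * (r ^ 2 * (m + 2 * r))))
    (hd : (D : ℚ) = r ^ 6 * (m + 2 * r) ^ 3 * (m + 3 * r) ^ 2 * (m - 6 * r)) :
    ∃ (a b : ℤ) (t : ℕ), IsCoprime a b ∧ 0 < b ∧ (t = 1 ∨ t = 2) ∧
      (t : ℤ) ^ 4 * c = a * (a ^ 3 - 24 * (b ^ 2 * (a + 2 * b))) ∧
      (t : ℤ) ^ 12 * D = b ^ 6 * (a + 2 * b) ^ 3 * (a + 3 * b) ^ 2 * (a - 6 * b) := by
  have hr : r ≠ 0 := by
    rintro rfl
    apply hD
    have : (D : ℚ) = 0 := by rw [hd]; ring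
    exact_mod_cast this
  obtain ⟨l, a, b, hl, hab, hb, rfl, rfl⟩ := cop2 m r hr
  obtain ⟨t, ht, e1, e2⟩ := scale c D (a * (a ^ 3 - 24 * (b ^ 2 * (a + 2 * b))))
    (b ^ 6 * (a + 2 * b) ^ 3 * (a + 3 * b) ^ 2 * (a - 6 * b)) hcop l
    (by rw [hc]; push_cast; ring) (by rw [hd]; push_cast; ring) hl
  have hcon : ∀ p : ℕ, p.Prime → (p : ℤ) ∣ a → (p : ℤ) ∣ b → False := fun p hp h1 h2 =>
    (Nat.prime_iff_prime_int.1 hp).not_unit (hab.isUnit_of_dvd' h1 h2)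
  have hpr : ∀ p, p.Prime → p ∣ t → p = 2 := by
    intro p hp hpt
    by_contra hp2
    have hpi : Prime (p : ℤ) := Nat.prime_iff_prime_int.1 hp
    have hpt' : (p : ℤ) ∣ (t : ℤ) := by exact_mod_cast hpt
    have h2n : ¬ (p : ℤ) ∣ 2 := by
      intro h
      have : p ∣ 2 := by exact_mod_cast h
      exact hp2 ((Nat.prime_dvd_prime_iff_eq hp Nat.prime_two).1 this)
    have g1 : (p : ℤ) ∣ a * (a ^ 3 - 24 * (b ^ 2 * (a + 2 * b))) := by
      rw [← e1]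
      exact (dvd_pow hpt' (by norm_num)).mul_right _
    have g2 : (p : ℤ) ∣ b ^ 6 * (a + 2 * b) ^ 3 * (a + 3 * b) ^ 2 * (a - 6 * b) := by
      rw [← e2]
      exact (dvd_pow hpt' (by norm_num)).mul_right _
    by_cases hp3 : p = 3
    · subst hp3
      have h3p : Prime (3 : ℤ) := Int.prime_three
      have ha : (3 : ℤ) ∣ a := by
        refine h3p.dvd_of_dvd_pow (n := 4) ?_
        have : a ^ 4 = a * (a ^ 3 - 24 * (b ^ 2 * (a + 2 * b))) +
          3 * (8 * (a * (b ^ 2 * (a + 2 * b)))) := by ring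
        rw [this]
        exact dvd_add (by exact_mod_cast g1) (dvd_mul_right _ _)
      have hb3 : ¬ (3 : ℤ) ∣ b := fun h => hcon 3 Nat.prime_three (by exact_mod_cast ha)
        (by exact_mod_cast h)
      obtain ⟨a', rfl⟩ := ha
      have hpt3 : (3 : ℤ) ∣ (t : ℤ) := by exact_mod_cast hpt
      have h81 : (81 : ℤ) ∣ 9 * (a' * (9 * a' ^ 3 - 24 * (a' * b ^ 2) - 16 * b ^ 3)) := by
        have h2 : ((3 : ℤ)) ^ 4 ∣ (t : ℤ) ^ 4 := pow_dvd_pow_of_dvd hpt3 4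
        have h3 : (81 : ℤ) ∣ (t : ℤ) ^ 4 := by simpa using h2
        have h4 : (81 : ℤ) ∣ (t : ℤ) ^ 4 * c := h3.mul_right _
        rw [e1] at h4
        have e : 3 * a' * ((3 * a') ^ 3 - 24 * (b ^ 2 * (3 * a' + 2 * b))) =
          9 * (a' * (9 * a' ^ 3 - 24 * (a' * b ^ 2) - 16 * b ^ 3)) := by ring
        rwa [e] at h4
      have h9 : (9 : ℤ) ∣ a' * (9 * a' ^ 3 - 24 * (a' * b ^ 2) - 16 * b ^ 3) := by omega
      have h3a : (3 : ℤ) ∣ a' := by
        have h5 : (3 : ℤ) ∣ a' * (9 * a' ^ 3 - 24 * (a' * b ^ 2) - 16 * b ^ 3) := by omega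
        rcases h3p.dvd_mul.1 h5 with h | h
        · exact h
        · exfalso
          apply hb3
          refine h3p.dvd_of_dvd_pow (n := 3) ?_
          have : b ^ 3 = -((9 * a' ^ 3 - 24 * (a' * b ^ 2) - 16 * b ^ 3)) +
            3 * (3 * a' ^ 3 - 8 * (a' * b ^ 2) - 5 * b ^ 3) := by ring
          rw [this]
          exact dvd_add ((dvd_neg).2 h) (dvd_mul_right _ _)
      have h312 : (81 : ℤ) ∣ b ^ 6 * (3 * a' + 2 * b) ^ 3 * (3 * a' + 3 * b) ^ 2 *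
          (3 * a' - 6 * b) := by
        rw [← e2]
        have h2 : ((3 : ℤ)) ^ 4 ∣ (t : ℤ) ^ 12 :=
          (pow_dvd_pow_of_dvd hpt3 4).trans (pow_dvd_pow _ (by norm_num))
        have h3 : (81 : ℤ) ∣ (t : ℤ) ^ 12 := by simpa using h2
        exact h3.mul_right _
      have e : b ^ 6 * (3 * a' + 2 * b) ^ 3 * (3 * a' + 3 * b) ^ 2 * (3 * a' - 6 * b) =
        27 * (b ^ 6 * (3 * a' + 2 * b) ^ 3 * (a' + b) ^ 2 * (a' - 2 * b)) := by ring
      rw [e] at h312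
      have h3c : (3 : ℤ) ∣ b ^ 6 * (3 * a' + 2 * b) ^ 3 * (a' + b) ^ 2 * (a' - 2 * b) := by omega
      rcases h3p.dvd_mul.1 h3c with h | h
      · rcases h3p.dvd_mul.1 h with h | h
        · rcases h3p.dvd_mul.1 h with h | h
          · exact hb3 (h3p.dvd_of_dvd_pow h)
          · have := h3p.dvd_of_dvd_pow h
            omega
        · have := h3p.dvd_of_dvd_pow h
          omega
      · omega
    · have h3n : ¬ (p : ℤ) ∣ 3 := by
        intro h
        have : p ∣ 3 := by exact_mod_cast h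
        exact hp3 ((Nat.prime_dvd_prime_iff_eq hp Nat.prime_three).1 this)
      have hpow : ∀ k l : ℕ, (p : ℤ) ∣ 2 ^ k * 3 ^ l * b ^ 4 → (p : ℤ) ∣ b := by
        intro k l h
        rcases hpi.dvd_mul.1 h with h | h
        · rcases hpi.dvd_mul.1 h with h | h
          · exact absurd (hpi.dvd_of_dvd_pow h) h2n
          · exact absurd (hpi.dvd_of_dvd_pow h) h3n
        · exact hpi.dvd_of_dvd_pow h
      have hfin : (p : ℤ) ∣ b → False := by
        intro hb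
        refine hcon p hp (hpi.dvd_of_dvd_pow (n := 4) ?_) hb
        have : a ^ 4 = a * (a ^ 3 - 24 * (b ^ 2 * (a + 2 * b))) +
          b * (24 * (a * (b * (a + 2 * b)))) := by ring
        rw [this]
        exact dvd_add g1 (hb.mul_right _)
      rcases hpi.dvd_mul.1 g2 with h | h
      · rcases hpi.dvd_mul.1 h with h | h
        · rcases hpi.dvd_mul.1 h with h | h
          · exact hfin (hpi.dvd_of_dvd_pow h)
          · have h1 := hpi.dvd_of_dvd_pow h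
            refine hfin (hpow 4 0 ?_)
            have : (2 : ℤ) ^ 4 * 3 ^ 0 * b ^ 4 = a * (a ^ 3 - 24 * (b ^ 2 * (a + 2 * b))) -
              (a + 2 * b) * (a ^ 3 - 2 * a ^ 2 * b - 20 * a * b ^ 2 - 8 * b ^ 3) := by ring
            rw [this]
            exact dvd_sub g1 (h1.mul_right _)
        · have h1 := hpi.dvd_of_dvd_pow h
          refine hfin (hpow 0 2 ?_)
          have : (2 : ℤ) ^ 0 * 3 ^ 2 * b ^ 4 = a * (a ^ 3 - 24 * (b ^ 2 * (a + 2 * b))) -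
            (a + 3 * b) * (a ^ 3 - 3 * a ^ 2 * b - 15 * a * b ^ 2 - 3 * b ^ 3) := by ring
          rw [this]
          exact dvd_sub g1 (h1.mul_right _)
      · refine hfin (hpow 4 2 ?_)
        have : (2 : ℤ) ^ 4 * 3 ^ 2 * b ^ 4 = a * (a ^ 3 - 24 * (b ^ 2 * (a + 2 * b))) -
          (a - 6 * b) * (a ^ 3 + 6 * a ^ 2 * b + 12 * a * b ^ 2 + 24 * b ^ 3) := by ring
        rw [this]
        exact dvd_sub g1 (h.mul_right _)
  have h4 : ¬ 4 ∣ t := by
    rintro ⟨s, rfl⟩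
    push_cast at e1 e2
    have h2p : Prime (2 : ℤ) := Int.prime_two
    have ha : (2 : ℤ) ∣ a := by
      refine h2p.dvd_of_dvd_pow (n := 4) ?_
      have : a ^ 4 = (4 * (s : ℤ)) ^ 4 * c + 2 * (12 * (a * (b ^ 2 * (a + 2 * b)))) := by
        rw [e1]; ring
      rw [this]
      exact dvd_add ⟨2 ^ 7 * (s : ℤ) ^ 4 * c, by ring⟩ (dvd_mul_right _ _)
    have hb2 : ¬ (2 : ℤ) ∣ b := fun h => hcon 2 Nat.prime_two (by exact_mod_cast ha)
      (by exact_mod_cast h)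
    obtain ⟨a', rfl⟩ := ha
    have h1 : a' * (a' ^ 3 - 6 * (a' * b ^ 2) - 6 * b ^ 3) = 2 * (8 * ((s : ℤ) ^ 4 * c)) := by
      have : 16 * (a' * (a' ^ 3 - 6 * (a' * b ^ 2) - 6 * b ^ 3)) =
        16 * (2 * (8 * ((s : ℤ) ^ 4 * c))) := by linear_combination -e1
      linarith
    have h2 : b ^ 6 * (a' + b) ^ 3 * (2 * a' + 3 * b) ^ 2 * (a' - 3 * b) =
        2 * (2 ^ 19 * ((s : ℤ) ^ 12 * D)) := by
      have : 16 * (b ^ 6 * (a' + b) ^ 3 * (2 * a' + 3 * b) ^ 2 * (a' - 3 * b)) =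
        16 * (2 * (2 ^ 19 * ((s : ℤ) ^ 12 * D))) := by linear_combination -e2
      linarith
    have h1' : (2 : ℤ) ∣ a' := by
      have : (2 : ℤ) ∣ a' * (a' ^ 3 - 6 * (a' * b ^ 2) - 6 * b ^ 3) := ⟨_, h1⟩
      rcases h2p.dvd_mul.1 this with h | h
      · exact h
      · refine h2p.dvd_of_dvd_pow (n := 3) ?_
        have e : a' ^ 3 = (a' ^ 3 - 6 * (a' * b ^ 2) - 6 * b ^ 3) +
          2 * (3 * (a' * b ^ 2) + 3 * b ^ 3) := by ring
        rw [e]
        exact dvd_add h (dvd_mul_right _ _)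
    have h2' : (2 : ℤ) ∣ b ^ 6 * (a' + b) ^ 3 * (2 * a' + 3 * b) ^ 2 * (a' - 3 * b) := ⟨_, h2⟩
    rcases h2p.dvd_mul.1 h2' with h | h
    · rcases h2p.dvd_mul.1 h with h | h
      · rcases h2p.dvd_mul.1 h with h | h
        · exact hb2 (h2p.dvd_of_dvd_pow h)
        · have := h2p.dvd_of_dvd_pow h
          omega
      · have := h2p.dvd_of_dvd_pow h
        omega
    · omega
  exact ⟨a, b, t, hab, hb, t_two ht hpr h4, e1, e2⟩

end Pool.Agent.Y680.T
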