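import Pool.Agent.Y680.T.Exc
import Pool.Agent.Y680.T.Grp
import Pool.Agent.Y680.T.Intg

/-!
# The lower bound for the number of curves in a family
-/

set_option autoImplicit false

namespace Pool.Agent.Y680.T

open Finset Pool.Agent.Results.MP_4d5ce1_nt.AllHeightsSharp Pool.Agent.Y911.PL

/-- the pairs used for the lower bound -/
def Gd (p : ℕ × ℕ) : Prop := 0 < p.1 ∧ 0 < p.2 ∧ Nat.Coprime p.1 p.2 ∧ Nat.Coprime p.2 6

instance (p : ℕ × ℕ) : Decidable (Gd p) := by unfold Gd; infer_instance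

/-- the pairs in a box -/
def T6 (N : ℕ) : Finset (ℕ × ℕ) :=
  ((Finset.Ioc 0 (2 * N)) ×ˢ (Finset.Ioc 0 (2 * N))).filter Gd

lemma cop6_iff (n : ℕ) : Nat.Coprime n 6 ↔ n % 2 = 1 ∧ n % 3 ≠ 0 := by
  rw [show (6 : ℕ) = 2 * 3 by norm_num, Nat.coprime_mul_iff_right, Nat.coprime_comm,
    Nat.Prime.coprime_iff_not_dvd Nat.prime_two, Nat.coprime_comm,
    Nat.Prime.coprime_iff_not_dvd Nat.prime_three]
  omega

lemma T6_card (N : ℕ) (hN : 1 ≤ N) : (N : ℝ) ^ 2 / 24 ≤ ((T6 N).card : ℝ) := by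
  classical
  have h1 := Pool.Agent.TH867.SR.coprime_count N hN
  have hsub : Pool.Agent.TH867.SR.cpp N ⊆ T6 N ∪ (T6 N).image Prod.swap ∪
      (T6 N).image (fun p => (p.1, p.2 - p.1)) := by
    intro p hp
    obtain ⟨h2, h3, h4⟩ := Finset.mem_filter.1 hp
    rw [Finset.mem_product, Finset.mem_Ioc, Finset.mem_Ioc] at h2
    obtain ⟨a, b⟩ := p
    simp only at h2 h3 h4
    by_cases hb : Nat.Coprime b 6
    · refine Finset.mem_union_left _ (Finset.mem_union_left _ ?_)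
      refine Finset.mem_filter.2 ⟨Finset.mem_product.2 ⟨Finset.mem_Ioc.2 ?_, Finset.mem_Ioc.2 ?_⟩,
        ?_, ?_, ?_, ?_⟩
      all_goals first | omega | assumption
    · by_cases ha : Nat.Coprime a 6
      · refine Finset.mem_union_left _ (Finset.mem_union_right _ ?_)
        refine Finset.mem_image.2 ⟨(b, a), ?_, rfl⟩
        refine Finset.mem_filter.2 ⟨Finset.mem_product.2 ⟨Finset.mem_Ioc.2 ?_, Finset.mem_Ioc.2 ?_⟩,
          ?_, ?_, h4.symm, ?_⟩
        all_goals first | omega | assumption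
      · refine Finset.mem_union_right _ ?_
        refine Finset.mem_image.2 ⟨(a, a + b), ?_, by simp⟩
        have hab : Nat.Coprime (a + b) 6 := by
          rw [cop6_iff] at ha hb ⊢
          have h5 : ¬ (2 ∣ a ∧ 2 ∣ b) := by
            rintro ⟨h6, h7⟩
            have := Nat.dvd_gcd h6 h7
            rw [h4] at this
            omega
          have h5' : ¬ (3 ∣ a ∧ 3 ∣ b) := by
            rintro ⟨h6, h7⟩
            have := Nat.dvd_gcd h6 h7
            rw [h4] at this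
            omega
          omega
        refine Finset.mem_filter.2 ⟨Finset.mem_product.2 ⟨Finset.mem_Ioc.2 ?_, Finset.mem_Ioc.2 ?_⟩,
          ?_, ?_, ?_, hab⟩
        · simp only; omega
        · simp only; omega
        · simp only; omega
        · simp only; omega
        · simp only
          rw [Nat.coprime_self_add_right]
          exact h4
  have h2 : (Pool.Agent.TH867.SR.cpp N).card ≤ 3 * (T6 N).card := by
    refine (Finset.card_le_card hsub).trans ?_
    have e1 := Finset.card_union_le (T6 N ∪ (T6 N).image Prod.swap)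
      ((T6 N).image (fun p => (p.1, p.2 - p.1)))
    have e2 := Finset.card_union_le (T6 N) ((T6 N).image Prod.swap)
    have e3 := Finset.card_image_le (s := T6 N) (f := Prod.swap)
    have e4 := Finset.card_image_le (s := T6 N) (f := fun p : ℕ × ℕ => (p.1, p.2 - p.1))
    omega
  have h3 : ((Pool.Agent.TH867.SR.cpp N).card : ℝ) ≤ 3 * ((T6 N).card : ℝ) := by exact_mod_cast h2
  linarith

/-- the lower bound for a family -/
theorem Fam.lower {q : ℕ} {P : WeierstrassCurve ℤ → Prop} (F : Fam q P) (hq : 3 ≤ q)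
    (I : ℕ × ℕ → ℤ × ℤ) (K' : ℕ) (hK' : 0 < K')
    (h1 : ∀ p, Gd p → ∃ W, P W ∧ inv W = I p ∧ ∃ (x : ℤ × ℤ) (k : ℕ),
      (∀ i, Lf (F.α i) x ≠ 0) ∧ k * W.Δ.natAbs = ∏ i, (Lf (F.α i) x).natAbs ^ F.e i ∧
      htn x ≤ 6 * max p.1 p.2)
    (h2 : ∀ g, ∀ s : Finset (ℕ × ℕ), (∀ p ∈ s, Gd p ∧ I p = g) → s.card ≤ K') :
    ∃ c' : ℝ, 0 < c' ∧ ∃ X₀ : ℝ, ∀ X : ℝ, X₀ ≤ X →
      c' * X ^ (2 / (q : ℝ)) ≤ ((Cv P X).ncard : ℝ) := by
  classical
  obtain ⟨C, hC, hup⟩ := F.upper hq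
  have hU : (1 : ℝ) ≤ F.U := by exact_mod_cast F.U_pos
  have hK0 : (0 : ℝ) < K' := by exact_mod_cast hK'
  refine lowerCv (P := P) hq (c := 1 / (24 * K')) (B := (12 * F.U : ℝ) ^ q) (by positivity)
    (by positivity) ?_ (fun X hX => (hup X hX).1)
  intro N hN
  refine ⟨(T6 N).image I, ?_, ?_⟩
  · have h3 := T6_card N hN
    have h4 : (T6 N).card ≤ K' * ((T6 N).image I).card := by
      refine Finset.card_le_mul_card_image _ _ fun g hg => ?_
      apply h2 g
      intro p hp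
      obtain ⟨h5, h6⟩ := Finset.mem_filter.1 hp
      exact ⟨(Finset.mem_filter.1 h5).2, h6⟩
    have h5 : ((T6 N).card : ℝ) ≤ K' * (((T6 N).image I).card : ℝ) := by exact_mod_cast h4
    have h6 : (N : ℝ) ^ 2 / 24 ≤ K' * (((T6 N).image I).card : ℝ) := h3.trans h5
    calc 1 / (24 * (K' : ℝ)) * (N : ℝ) ^ 2 = ((N : ℝ) ^ 2 / 24) / K' := by
          field_simp
      _ ≤ (K' * (((T6 N).image I).card : ℝ)) / K' := by gcongr
      _ = _ := by field_simp
  · intro g hg
    obtain ⟨p, hp, rfl⟩ := Finset.mem_image.1 hg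
    obtain ⟨h5, h6⟩ := Finset.mem_filter.1 hp
    obtain ⟨W, hW, hi, x, k, hl, hk, hx⟩ := h1 p h6
    refine ⟨W, hW, hi, ?_⟩
    have h7 : rd W ≤ (F.U * htn x) ^ q := F.rd_le hl hk
    rw [Finset.mem_product, Finset.mem_Ioc, Finset.mem_Ioc] at h5
    have h8 : htn x ≤ 12 * N := by
      have : max p.1 p.2 ≤ 2 * N := max_le h5.1.2 h5.2.2
      omega
    have h9 : rd W ≤ (F.U * (12 * N)) ^ q := h7.trans (by gcongr)
    have h10 : (rd W : ℝ) ≤ ((F.U : ℝ) * (12 * N)) ^ q := by exact_mod_cast h9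
    refine h10.trans (le_of_eq ?_)
    rw [← mul_pow]
    congr 1
    ring

end Pool.Agent.Y680.T
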