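import Pool.Agent.Y680.T.Pt

/-!
# Parametrisation of the curves with a rational point of order six, with `ℤ/2 × ℤ/4` and with
`ℤ/2 × ℤ/6`
-/

set_option autoImplicit false

open WeierstrassCurve

namespace Pool.Agent.Y680.T

variable {W : WeierstrassCurve ℚ}

lemma exists_some (P : W.toAffine.Point) (h : P ≠ 0) :
    ∃ x y, ∃ h : W.toAffine.Nonsingular x y, P = Affine.Point.some x y h := by
  rcases P with _ | ⟨x, y, h'⟩
  · exact absurd rfl h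
  · exact ⟨x, y, h', rfl⟩

/-- the three points of order two -/
lemma full2 (P1 P2 : W.toAffine.Point) (h1 : 2 • P1 = 0) (h2 : 2 • P2 = 0) (h10 : P1 ≠ 0)
    (h20 : P2 ≠ 0) (h12 : P1 ≠ P2) : ∃ (e1 e2 e3 y1 : ℚ) (hn : W.toAffine.Nonsingular e1 y1),
      P1 = Affine.Point.some e1 y1 hn ∧ W.b₂ = -4 * (e1 + e2 + e3) ∧
      W.b₄ = 2 * (e1 * e2 + e1 * e3 + e2 * e3) ∧ W.b₆ = -4 * (e1 * e2 * e3) := by
  have h3 : 2 • (P1 + P2) = 0 := by rw [nsmul_add, h1, h2, add_zero]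
  have h30 : P1 + P2 ≠ 0 := by
    intro h
    apply h12
    have e1 : P1 = -P2 := eq_neg_of_add_eq_zero_left h
    have e2 : P2 = -P2 := by
      apply eq_neg_of_add_eq_zero_left
      rw [← two_nsmul]
      exact h2
    rw [e1]
    exact e2.symm
  have h13 : P1 ≠ P1 + P2 := by
    intro h
    apply h20
    exact (left_eq_add.1 h)
  have h23 : P2 ≠ P1 + P2 := by
    intro h
    apply h10
    exact (right_eq_add.1 h)
  obtain ⟨x1, y1, n1, rfl⟩ := exists_some P1 h10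
  obtain ⟨x2, y2, n2, rfl⟩ := exists_some P2 h20
  obtain ⟨x3, y3, n3, e3⟩ := exists_some _ h30
  rw [e3] at h3 h13 h23
  have d12 : x1 ≠ x2 := fun h => h12 (two_inj n1 n2 h1 h2 h)
  have d13 : x1 ≠ x3 := fun h => h13 (two_inj n1 n3 h1 h3 h)
  have d23 : x2 ≠ x3 := fun h => h23 (two_inj n2 n3 h2 h3 h)
  have k1 := psi_sq n1.1
  have k2 := psi_sq n2.1
  have k3 := psi_sq n3.1
  rw [psi_of_two n1 h1] at k1
  rw [psi_of_two n2 h2] at k2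
  rw [psi_of_two n3 h3] at k3
  obtain ⟨r1, r2, r3⟩ := roots3 (W := W) (e1 := x1) (e2 := x2) (e3 := x3)
    (by rw [← k1]; ring) (by rw [← k2]; ring) (by rw [← k3]; ring) d12 d13 d23
  exact ⟨x1, x2, x3, y1, n1, rfl, r1, r2, r3⟩

/-- `ℤ/2 × ℤ/4` -/
lemma par24 (P Q : W.toAffine.Point) (hP : 2 • P = 0) (hP0 : P ≠ 0) (hQ : 4 • Q = 0)
    (hQ0 : 2 • Q ≠ 0) (hPQ : P ≠ 2 • Q) : ∃ m n : ℚ, W.c₄ = 16 * (m ^ 4 - m ^ 2 * n ^ 2 + n ^ 4) ∧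
      W.Δ = 16 * (m ^ 2 * n ^ 2 * (m ^ 2 - n ^ 2)) ^ 2 := by
  have h1 : 2 • (2 • Q) = 0 := by rw [← mul_nsmul]; exact hQ
  obtain ⟨e1, e2, e3, y1, n1, hQ1, b2, b4, b6⟩ := full2 (2 • Q) P h1 hP hQ0 hP0 (Ne.symm hPQ)
  obtain ⟨c4, hD⟩ := roots_inv b2 b4 b6
  have hQ0' : Q ≠ 0 := by
    rintro rfl
    exact hQ0 (nsmul_zero 2)
  obtain ⟨x, y, nQ, rfl⟩ := exists_some Q hQ0'
  obtain ⟨hp0, hx⟩ := dblX nQ n1 hQ1
  obtain ⟨hp, hy⟩ := dbl_roots nQ.1 b2 b4 b6 hx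
  rw [sub_self, zero_mul] at hy
  have hz : (x - e1) ^ 2 = (e1 - e2) * (e1 - e3) := by
    have := pow_eq_zero_iff (two_ne_zero) |>.1 hy.symm
    linear_combination this
  obtain ⟨r, hr⟩ : ∃ r, r = x - e1 := ⟨_, rfl⟩
  obtain ⟨u, hu⟩ : ∃ u, u = e1 - e2 := ⟨_, rfl⟩
  obtain ⟨v, hv⟩ : ∃ v, v = e1 - e3 := ⟨_, rfl⟩
  obtain ⟨p, hpp⟩ : ∃ p, p = psi W x y := ⟨_, rfl⟩
  rw [← hpp] at hp hp0
  have hz' : r ^ 2 = u * v := by rw [hr, hu, hv]; exact hz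
  have hp' : p ^ 2 = 4 * r ^ 2 * (2 * r + u + v) := by
    rw [hp]
    have e2' : x - e2 = r + u := by rw [hr, hu]; ring
    have e3' : x - e3 = r + v := by rw [hr, hv]; ring
    rw [← hr, e2', e3']
    linear_combination (-4 * r) * hz'
  have hr0 : r ≠ 0 := by
    rintro rfl
    apply hp0
    have : p ^ 2 = 0 := by rw [hp']; ring
    exact pow_eq_zero_iff (two_ne_zero) |>.1 this
  obtain ⟨k, hk⟩ : ∃ k, k = p / (2 * r) := ⟨_, rfl⟩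
  have hk2 : k ^ 2 = 2 * r + u + v := by
    rw [hk, div_pow, hp']
    field_simp
    ring
  have hk0 : k ≠ 0 := by
    rw [hk]
    exact div_ne_zero hp0 (mul_ne_zero two_ne_zero hr0)
  obtain ⟨t, ht⟩ : ∃ t, t = (u - v) / k := ⟨_, rfl⟩
  have htk : t * k = u - v := by rw [ht]; field_simp
  have ht2 : t ^ 2 = u + v - 2 * r := by
    have h5 : t ^ 2 * k ^ 2 = (u + v - 2 * r) * k ^ 2 := by
      have : t ^ 2 * k ^ 2 = (u - v) ^ 2 := by rw [← htk]; ring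
      rw [this, hk2]
      linear_combination 4 * hz'
    exact mul_right_cancel₀ (pow_ne_zero 2 hk0) h5
  have eu : u = ((k + t) / 2) ^ 2 := by
    linear_combination (-1 / 4) * hk2 - (1 / 4) * ht2 - (1 / 2) * htk
  have ev : v = ((k - t) / 2) ^ 2 := by
    linear_combination (-1 / 4) * hk2 - (1 / 4) * ht2 + (1 / 2) * htk
  refine ⟨(k + t) / 2, (k - t) / 2, ?_, ?_⟩
  · rw [c4, ← hu, ← hv]
    rw [show ((k + t) / 2) ^ 4 = u ^ 2 by rw [eu]; ring,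
      show ((k - t) / 2) ^ 4 = v ^ 2 by rw [ev]; ring, ← eu, ← ev]
  · have e23 : e2 - e3 = v - u := by rw [hu, hv]; ring
    rw [hD, ← hu, ← hv, e23, ← eu, ← ev]
    ring

/-- a point of order six -/
lemma par6 (P R : W.toAffine.Point) (hP : 2 • P = 0) (hP0 : P ≠ 0) (hR : 3 • R = 0)
    (hR0 : R ≠ 0) : ∃ a r : ℚ, W.c₄ = a * (a ^ 3 - 24 * (r ^ 2 * (a + 2 * r))) ∧
      W.Δ = r ^ 6 * (a + 2 * r) ^ 3 * (a + 3 * r) ^ 2 * (a - 6 * r) := by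
  obtain ⟨x, y, nR, rfl⟩ := exists_some R hR0
  obtain ⟨x2, y2, nP, rfl⟩ := exists_some P hP0
  obtain ⟨h0, l, hl, hf⟩ := three_flex nR hR
  have hE := nR.1
  rw [Affine.equation_iff] at hE
  have k2 := psi_sq nP.1
  rw [psi_of_two nP hP] at k2
  obtain ⟨p, hpp⟩ : ∃ p, p = psi W x y := ⟨_, rfl⟩
  obtain ⟨b, hb⟩ : ∃ b, b = W.a₁ + 2 * l := ⟨_, rfl⟩
  rw [← hpp] at h0 hl
  have hp3 : W.a₃ = p - 2 * y - W.a₁ * x := by rw [hpp, psi]; ring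
  have ha1 : W.a₁ = b - 2 * l := by rw [hb]; ring
  have ha2 : W.a₂ = l ^ 2 + W.a₁ * l - 3 * x := by linear_combination -hf
  have ha4 : W.a₄ = l * p - 3 * x ^ 2 - 2 * W.a₂ * x + W.a₁ * y := by linear_combination -hl
  have ha6 : W.a₆ = y ^ 2 + W.a₁ * x * y + W.a₃ * y - x ^ 3 - W.a₂ * x ^ 2 - W.a₄ * x := by
    linear_combination -hE
  have hc4 : W.c₄ = b * (b ^ 3 - 24 * p) := by
    simp only [WeierstrassCurve.c₄, WeierstrassCurve.b₂, WeierstrassCurve.b₄]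
    rw [ha4, hp3, ha2, ha1]
    ring
  have hD : W.Δ = p ^ 3 * (b ^ 3 - 27 * p) := by
    simp only [WeierstrassCurve.Δ, WeierstrassCurve.b₂, WeierstrassCurve.b₄, WeierstrassCurve.b₆,
      WeierstrassCurve.b₈]
    rw [ha6, ha4, hp3, ha2, ha1]
    ring
  have hX : 4 * (x2 - x) ^ 3 + (b * (x2 - x) + p) ^ 2 = 0 := by
    have : 4 * (x2 - x) ^ 3 + (b * (x2 - x) + p) ^ 2 =
        4 * x2 ^ 3 + W.b₂ * x2 ^ 2 + 2 * W.b₄ * x2 + W.b₆ := by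
      simp only [WeierstrassCurve.b₂, WeierstrassCurve.b₄, WeierstrassCurve.b₆]
      rw [ha6, ha4, hp3, ha2, ha1]
      ring
    rw [this, ← k2]
    ring
  obtain ⟨X, hXX⟩ : ∃ X, X = x2 - x := ⟨_, rfl⟩
  rw [← hXX] at hX
  have hX0 : X ≠ 0 := by
    rintro rfl
    apply h0
    have : p ^ 2 = 0 := by linear_combination hX
    exact pow_eq_zero_iff (two_ne_zero) |>.1 this
  obtain ⟨r, hr⟩ : ∃ r, r = -(b * X + p) / (2 * X) := ⟨_, rfl⟩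
  have hrX : 2 * X * r = -(b * X + p) := by rw [hr]; field_simp
  have hX2 : X = -r ^ 2 := by
    have h4 : 4 * X ^ 2 * X = 4 * X ^ 2 * (-r ^ 2) := by
      have : 4 * X ^ 2 * (-r ^ 2) = -(2 * X * r) ^ 2 := by ring
      rw [this, hrX]
      linear_combination hX
    exact mul_left_cancel₀ (mul_ne_zero four_ne_zero (pow_ne_zero 2 hX0)) h4
  have hp : p = r ^ 2 * (b + 2 * r) := by
    have : p = -(2 * X * r) - b * X := by rw [hrX]; ring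
    rw [this, hX2]
    ring
  refine ⟨b, r, ?_, ?_⟩
  · rw [hc4, hp]
  · rw [hD, hp]
    ring

/-- `ℤ/2 × ℤ/6` -/
lemma par26 (P1 P2 R : W.toAffine.Point) (h1 : 2 • P1 = 0) (h2 : 2 • P2 = 0) (h10 : P1 ≠ 0)
    (h20 : P2 ≠ 0) (h12 : P1 ≠ P2) (hR : 3 • R = 0) (hR0 : R ≠ 0) :
    ∃ r s t : ℚ, r ≠ 0 ∧ s ≠ 0 ∧ t ≠ 0 ∧ r * s + r * t + s * t = 0 ∧
      W.c₄ = 16 * ((s ^ 2 - r ^ 2) ^ 2 - (s ^ 2 - r ^ 2) * (t ^ 2 - r ^ 2) +
        (t ^ 2 - r ^ 2) ^ 2) ∧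
      W.Δ = 16 * ((s ^ 2 - r ^ 2) * (t ^ 2 - r ^ 2) * (t ^ 2 - s ^ 2)) ^ 2 := by
  obtain ⟨e1, e2, e3, y1, n1, -, b2, b4, b6⟩ := full2 P1 P2 h1 h2 h10 h20 h12
  obtain ⟨c4, hD⟩ := roots_inv b2 b4 b6
  obtain ⟨x, y, nR, rfl⟩ := exists_some R hR0
  obtain ⟨hp0, hx⟩ := three_x nR hR
  obtain ⟨hp, hy⟩ := dbl_roots nR.1 b2 b4 b6 hx
  obtain ⟨p, hpp⟩ : ∃ p, p = psi W x y := ⟨_, rfl⟩
  rw [← hpp] at hp hp0 hy
  obtain ⟨A, hA⟩ : ∃ A, A = x - e1 := ⟨_, rfl⟩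
  obtain ⟨B, hB⟩ : ∃ B, B = x - e2 := ⟨_, rfl⟩
  obtain ⟨C, hC⟩ : ∃ C, C = x - e3 := ⟨_, rfl⟩
  rw [← hA, ← hB, ← hC] at hp
  rw [← hA] at hy
  have e12 : e1 - e2 = B - A := by rw [hA, hB]; ring
  have e13 : e1 - e3 = C - A := by rw [hA, hC]; ring
  have e23 : e2 - e3 = C - B := by rw [hB, hC]; ring
  rw [e12, e13] at hy
  have hrel : (A * B) ^ 2 + (A * C) ^ 2 + (B * C) ^ 2 -
      2 * (A * B) * (A * C) - 2 * (A * B) * (B * C) - 2 * (A * C) * (B * C) = 0 := by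
    rw [hp] at hy
    linear_combination -hy
  have hr : ((A * B + A * C - B * C) / p) ^ 2 = A := by
    rw [div_pow, div_eq_iff (pow_ne_zero 2 hp0), hp]
    linear_combination hrel
  have hs : ((A * B + B * C - A * C) / p) ^ 2 = B := by
    rw [div_pow, div_eq_iff (pow_ne_zero 2 hp0), hp]
    linear_combination hrel
  have ht : ((A * C + B * C - A * B) / p) ^ 2 = C := by
    rw [div_pow, div_eq_iff (pow_ne_zero 2 hp0), hp]
    linear_combination hrel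
  have hABC : A * B * C ≠ 0 := by
    intro h
    apply hp0
    have : p ^ 2 = 0 := by rw [hp, h, mul_zero]
    exact pow_eq_zero_iff (two_ne_zero) |>.1 this
  obtain ⟨⟨hA0, hB0⟩, hC0⟩ : (A ≠ 0 ∧ B ≠ 0) ∧ C ≠ 0 := by
    refine ⟨⟨?_, ?_⟩, ?_⟩
    · rintro rfl; exact hABC (by ring)
    · rintro rfl; exact hABC (by ring)
    · rintro rfl; exact hABC (by ring)
  refine ⟨(A * B + A * C - B * C) / p, (A * B + B * C - A * C) / p, (A * C + B * C - A * B) / p,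
    ?_, ?_, ?_, ?_, ?_, ?_⟩
  · intro h
    rw [h] at hr
    exact hA0 (by rw [← hr]; ring)
  · intro h
    rw [h] at hs
    exact hB0 (by rw [← hs]; ring)
  · intro h
    rw [h] at ht
    exact hC0 (by rw [← ht]; ring)
  · field_simp
    linear_combination -hrel
  · rw [hr, hs, ht, c4, e12, e13]
  · rw [hr, hs, ht, hD, e12, e13, e23]

end Pool.Agent.Y680.T
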