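import Mathlib

/-!
# Points of order two, three and four on a Weierstrass curve
-/

set_option autoImplicit false

open WeierstrassCurve

namespace Pool.Agent.Y680.T

section

variable {F : Type*} [Field F] {W : WeierstrassCurve F}

/-- `2 y + a₁ x + a₃` -/
def psi (W : WeierstrassCurve F) (x y : F) : F := 2 * y + W.a₁ * x + W.a₃

lemma psi_sq {x y : F} (h : W.toAffine.Equation x y) :
    psi W x y ^ 2 = 4 * x ^ 3 + W.b₂ * x ^ 2 + 2 * W.b₄ * x + W.b₆ := by
  rw [Affine.equation_iff] at h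
  simp only [psi, WeierstrassCurve.b₂, WeierstrassCurve.b₄, WeierstrassCurve.b₆]
  linear_combination 4 * h

lemma psi_eq_zero {x y : F} : psi W x y = 0 ↔ y = W.toAffine.negY x y := by
  simp only [psi, Affine.negY]
  constructor <;> intro h <;> linear_combination h

lemma psi_neg {x y : F} : psi W x (W.toAffine.negY x y) = - psi W x y := by
  simp only [psi, Affine.negY]
  ring

variable [DecidableEq F]

lemma two_of_psi {x y : F} (h : W.toAffine.Nonsingular x y) (h0 : psi W x y = 0) :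
    2 • Affine.Point.some x y h = 0 := by
  rw [two_nsmul, Affine.Point.add_self_of_Y_eq (psi_eq_zero.1 h0)]

lemma psi_of_two {x y : F} (h : W.toAffine.Nonsingular x y)
    (h2 : 2 • Affine.Point.some x y h = 0) : psi W x y = 0 := by
  by_contra h0
  rw [two_nsmul, Affine.Point.add_self_of_Y_ne (fun hh => h0 (psi_eq_zero.2 hh))] at h2
  exact Affine.Point.some_ne_zero _ h2

/-- the double of a point which is not of order two -/
lemma dbl {x y : F} (h : W.toAffine.Nonsingular x y) (h0 : psi W x y ≠ 0) :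
    ∃ (l x' y' : F) (h' : W.toAffine.Nonsingular x' y'),
      l * psi W x y = 3 * x ^ 2 + 2 * W.a₂ * x + W.a₄ - W.a₁ * y ∧
      x' = l ^ 2 + W.a₁ * l - W.a₂ - 2 * x ∧ y' = -(l * (x' - x) + y) - W.a₁ * x' - W.a₃ ∧
      2 • Affine.Point.some x y h = Affine.Point.some x' y' h' := by
  have hy : y ≠ W.toAffine.negY x y := fun hh => h0 (psi_eq_zero.2 hh)
  have hne : ¬(x = x ∧ y = W.toAffine.negY x y) := fun hh => hy hh.2
  refine ⟨W.toAffine.slope x x y y, W.toAffine.addX x x (W.toAffine.slope x x y y),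
    W.toAffine.addY x x y (W.toAffine.slope x x y y), Affine.nonsingular_add h h hne, ?_, ?_, ?_, ?_⟩
  · rw [Affine.slope_of_Y_ne rfl hy]
    have e : y - W.toAffine.negY x y = psi W x y := by
      simp only [psi, Affine.negY]
      ring
    rw [e, div_mul_cancel₀ _ h0]
  · rw [Affine.addX]
    ring
  · rw [Affine.addY, Affine.negY, Affine.negAddY]
  · rw [two_nsmul, Affine.Point.add_self_of_Y_ne hy]

/-- the duplication formula -/
lemma dblX {x y x' y' : F} (h : W.toAffine.Nonsingular x y) (h' : W.toAffine.Nonsingular x' y')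
    (h2 : 2 • Affine.Point.some x y h = Affine.Point.some x' y' h') :
    psi W x y ≠ 0 ∧ x' * psi W x y ^ 2 = x ^ 4 - W.b₄ * x ^ 2 - 2 * W.b₆ * x - W.b₈ := by
  have h0 : psi W x y ≠ 0 := by
    intro h0
    rw [two_of_psi h h0] at h2
    exact Affine.Point.some_ne_zero _ h2.symm
  refine ⟨h0, ?_⟩
  obtain ⟨l, x'', y'', h'', e1, e2, -, e3⟩ := dbl h h0
  rw [h2, Affine.Point.some.injEq] at e3
  rw [e3.1, e2]
  have hE := h.1
  rw [Affine.equation_iff] at hE
  have e4 : (l ^ 2 + W.a₁ * l - W.a₂ - 2 * x) * psi W x y ^ 2 =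
      (l * psi W x y) ^ 2 + W.a₁ * (l * psi W x y) * psi W x y -
        (W.a₂ + 2 * x) * psi W x y ^ 2 := by ring
  rw [e4, e1]
  simp only [psi, WeierstrassCurve.b₂, WeierstrassCurve.b₄, WeierstrassCurve.b₆,
    WeierstrassCurve.b₈]
  linear_combination (-(W.a₁ ^ 2) - 8 * x - 4 * W.a₂) * hE

/-- the tangent at a point of order three is a flex -/
lemma three_flex {x y : F} (h : W.toAffine.Nonsingular x y)
    (h3 : 3 • Affine.Point.some x y h = 0) :
    psi W x y ≠ 0 ∧ ∃ l : F, l * psi W x y = 3 * x ^ 2 + 2 * W.a₂ * x + W.a₄ - W.a₁ * y ∧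
      l ^ 2 + W.a₁ * l - W.a₂ - 3 * x = 0 := by
  have h0 : psi W x y ≠ 0 := by
    intro h0
    have h2 := two_of_psi h h0
    have : Affine.Point.some x y h = 0 := by
      have e : 3 • Affine.Point.some x y h = 2 • Affine.Point.some x y h +
          Affine.Point.some x y h := by rw [← succ_nsmul]
      rw [h3, h2, zero_add] at e
      exact e.symm
    exact Affine.Point.some_ne_zero _ this
  refine ⟨h0, ?_⟩
  obtain ⟨l, x', y', h', e1, e2, -, e3⟩ := dbl h h0
  refine ⟨l, e1, ?_⟩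
  have e : 2 • Affine.Point.some x y h = - Affine.Point.some x y h := by
    have e : 3 • Affine.Point.some x y h = 2 • Affine.Point.some x y h +
        Affine.Point.some x y h := by rw [← succ_nsmul]
    rw [h3] at e
    exact eq_neg_of_add_eq_zero_left e.symm
  rw [e, Affine.Point.neg_some, Affine.Point.some.injEq] at e3
  have := e3.1
  rw [e2] at this
  linear_combination -this

lemma three_x {x y : F} (h : W.toAffine.Nonsingular x y)
    (h3 : 3 • Affine.Point.some x y h = 0) :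
    psi W x y ≠ 0 ∧ x * psi W x y ^ 2 = x ^ 4 - W.b₄ * x ^ 2 - 2 * W.b₆ * x - W.b₈ := by
  obtain ⟨h0, -⟩ := three_flex h h3
  refine ⟨h0, ?_⟩
  have e : 2 • Affine.Point.some x y h = - Affine.Point.some x y h := by
    have e : 3 • Affine.Point.some x y h = 2 • Affine.Point.some x y h +
        Affine.Point.some x y h := by rw [← succ_nsmul]
    rw [h3] at e
    exact eq_neg_of_add_eq_zero_left e.symm
  rw [Affine.Point.neg_some] at e
  exact (dblX h _ e).2

variable [NeZero (2 : F)]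

/-- points of order two with the same abscissa are equal -/
lemma two_inj {x y x' y' : F} (h : W.toAffine.Nonsingular x y)
    (h' : W.toAffine.Nonsingular x' y') (h2 : 2 • Affine.Point.some x y h = 0)
    (h2' : 2 • Affine.Point.some x' y' h' = 0) (hx : x = x') :
    Affine.Point.some x y h = Affine.Point.some x' y' h' := by
  have e1 := psi_of_two h h2
  have e2 := psi_of_two h' h2'
  subst hx
  have h22 : (2 : F) ≠ 0 := NeZero.ne 2
  have : y = y' := by
    have h3 : (2 : F) * (y - y') = 0 := by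
      simp only [psi] at e1 e2
      linear_combination e1 - e2
    have := (mul_eq_zero.1 h3).resolve_left h22
    exact sub_eq_zero.1 this
  subst this
  rfl

/-- the cubic of the 2-division points, given three of them -/
lemma roots3 {e1 e2 e3 : F} (h1 : 4 * e1 ^ 3 + W.b₂ * e1 ^ 2 + 2 * W.b₄ * e1 + W.b₆ = 0)
    (h2 : 4 * e2 ^ 3 + W.b₂ * e2 ^ 2 + 2 * W.b₄ * e2 + W.b₆ = 0)
    (h3 : 4 * e3 ^ 3 + W.b₂ * e3 ^ 2 + 2 * W.b₄ * e3 + W.b₆ = 0)
    (h12 : e1 ≠ e2) (h13 : e1 ≠ e3) (h23 : e2 ≠ e3) :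
    W.b₂ = -4 * (e1 + e2 + e3) ∧ W.b₄ = 2 * (e1 * e2 + e1 * e3 + e2 * e3) ∧
      W.b₆ = -4 * (e1 * e2 * e3) := by
  have h22 : (2 : F) ≠ 0 := NeZero.ne 2
  have k12 : 4 * (e1 ^ 2 + e1 * e2 + e2 ^ 2) + W.b₂ * (e1 + e2) + 2 * W.b₄ = 0 := by
    have h4 : (e1 - e2) * (4 * (e1 ^ 2 + e1 * e2 + e2 ^ 2) + W.b₂ * (e1 + e2) + 2 * W.b₄) = 0 := by
      linear_combination h1 - h2
    exact (mul_eq_zero.1 h4).resolve_left (sub_ne_zero.2 h12)
  have k13 : 4 * (e1 ^ 2 + e1 * e3 + e3 ^ 2) + W.b₂ * (e1 + e3) + 2 * W.b₄ = 0 := by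
    have h4 : (e1 - e3) * (4 * (e1 ^ 2 + e1 * e3 + e3 ^ 2) + W.b₂ * (e1 + e3) + 2 * W.b₄) = 0 := by
      linear_combination h1 - h3
    exact (mul_eq_zero.1 h4).resolve_left (sub_ne_zero.2 h13)
  have k : 4 * (e1 + e2 + e3) + W.b₂ = 0 := by
    have h4 : (e2 - e3) * (4 * (e1 + e2 + e3) + W.b₂) = 0 := by
      linear_combination k12 - k13
    exact (mul_eq_zero.1 h4).resolve_left (sub_ne_zero.2 h23)
  have k4 : 2 * W.b₄ = 2 * (2 * (e1 * e2 + e1 * e3 + e2 * e3)) := by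
    linear_combination k12 - (e1 + e2) * k
  refine ⟨by linear_combination k, mul_left_cancel₀ h22 k4, ?_⟩
  linear_combination h1 - e1 ^ 2 * k - e1 * k4

/-- the invariants in terms of the differences of the roots -/
lemma roots_inv {e1 e2 e3 : F} (h2 : W.b₂ = -4 * (e1 + e2 + e3))
    (h4 : W.b₄ = 2 * (e1 * e2 + e1 * e3 + e2 * e3)) (h6 : W.b₆ = -4 * (e1 * e2 * e3)) :
    W.c₄ = 16 * ((e1 - e2) ^ 2 - (e1 - e2) * (e1 - e3) + (e1 - e3) ^ 2) ∧
      W.Δ = 16 * ((e1 - e2) * (e1 - e3) * (e2 - e3)) ^ 2 := by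
  have h22 : (2 : F) ≠ 0 := NeZero.ne 2
  have hb8 := W.b_relation
  constructor
  · rw [WeierstrassCurve.c₄, h2, h4]
    ring
  · have h44 : (4 : F) ≠ 0 := by
      have : (4 : F) = 2 * 2 := by norm_num
      rw [this]
      exact mul_ne_zero h22 h22
    apply mul_left_cancel₀ h44
    have e : 4 * W.Δ = -W.b₂ ^ 2 * (4 * W.b₈) - 32 * W.b₄ ^ 3 - 108 * W.b₆ ^ 2 +
        36 * W.b₂ * W.b₄ * W.b₆ := by
      rw [WeierstrassCurve.Δ]
      ring
    rw [e, hb8, h2, h4, h6]
    ring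

/-- the duplication formula in terms of the roots -/
lemma dbl_roots {e1 e2 e3 x y x' : F} (hE : W.toAffine.Equation x y)
    (h2 : W.b₂ = -4 * (e1 + e2 + e3))
    (h4 : W.b₄ = 2 * (e1 * e2 + e1 * e3 + e2 * e3)) (h6 : W.b₆ = -4 * (e1 * e2 * e3))
    (hx : x' * psi W x y ^ 2 = x ^ 4 - W.b₄ * x ^ 2 - 2 * W.b₆ * x - W.b₈) :
    psi W x y ^ 2 = 4 * ((x - e1) * (x - e2) * (x - e3)) ∧
    (x' - e1) * psi W x y ^ 2 = ((x - e1) ^ 2 - (e1 - e2) * (e1 - e3)) ^ 2 := by
  have h22 : (2 : F) ≠ 0 := NeZero.ne 2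
  have h44 : (4 : F) ≠ 0 := by
    have : (4 : F) = 2 * 2 := by norm_num
    rw [this]
    exact mul_ne_zero h22 h22
  have hp := psi_sq hE
  have hb8 := W.b_relation
  have hp' : psi W x y ^ 2 = 4 * ((x - e1) * (x - e2) * (x - e3)) := by
    rw [hp, h2, h4, h6]
    ring
  refine ⟨hp', ?_⟩
  apply mul_left_cancel₀ h44
  have e : 4 * ((x' - e1) * psi W x y ^ 2) = 4 * (x' * psi W x y ^ 2) - 4 * e1 * psi W x y ^ 2 := by
    ring
  have e8 : 4 * (x ^ 4 - W.b₄ * x ^ 2 - 2 * W.b₆ * x - W.b₈) =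
      4 * x ^ 4 - 4 * W.b₄ * x ^ 2 - 8 * W.b₆ * x - 4 * W.b₈ := by ring
  rw [e, hx, e8, hb8, hp', h2, h4, h6]
  ring

end

end Pool.Agent.Y680.T
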